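import Pool.Agent.Lib.MP_bcd198_co.T.RepA

/-!
# JOB T/RepB: number of permutations with given numbers of moved points and non trivial cycles

* `perm_fix`: for given sets `A`, `R` the number of `σ` with `mv σ = A`, `Rep σ = R` is at most `|A|^(|A|-|R|)`: the map `σ ↦ (v ↦ σ⁻¹ v)` from these `σ` to the functions
  `(A \ R) → A` is injective. Let `σ, σ'` be two such permutations with `σ⁻¹ v = σ'⁻¹ v` for all `v ∈ A \ R`. Claim: `σ i = σ' i` for all `i`. If `i ∉ A`, both are `i`.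
  Let `i ∈ A` (`σ i, σ' i ∈ A`). If `σ i ∉ R` then `σ'⁻¹ (σ i) = σ⁻¹ (σ i) = i`, so `σ' i = σ i`; the same if `σ' i ∉ R`. Let `m := σ i ∈ R`, `m' := σ' i ∈ R`.
  Let `l ≥ 0` be minimal with `(σ⁻¹)^l i ∈ R`; it exists since `i = (σ^k) m'' ` for some `m'' ∈ R` (`rep_cover`). Since `R` meets the cycle of `i` only in `m`
  (`rep_unique`), `(σ⁻¹)^l i = m`. By induction on `t ≤ l`: `(σ'⁻¹)^t i = (σ⁻¹)^t i` (for `t < l` the point `(σ⁻¹)^t i` is in `A \ R`, where `σ⁻¹` and `σ'⁻¹` agree). So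
  `(σ'⁻¹)^l i = m ∈ R`; as `m' = σ' i` is the only point of `R` in the `σ'`-cycle of `i`, `m = m'`.
  If `R ⊄ A` or so, there is no such `σ`. (`|A \ R| = |A| - |R|` as `R ⊆ A`.)
* `perm_count`: sum over `A` with `s` elements (`binom(n,s)` of them) and `R ⊆ A` with `o` elements (at most `2^s`).
* `perm_count_real`: `binom(n,s) ≤ n^s/s!` (`Nat.choose_le_pow_div`), `s^(s-o) = s^s/s^o` (`o ≤ s`, by `rep_card`; if there is no such `σ` the left side is `0`), `s^s/s! ≤ e^s ≤ 3^s`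
  (`Real.pow_div_factorial_le_exp`), so the product is `≤ 2^s 3^s n^s / s^o`.
-/

set_option autoImplicit false

namespace MPbcd198.T

open Equiv

private theorem RepB_ai {n : ℕ} (σ : Perm (Fin n)) (v : Fin n) : σ (σ⁻¹ v) = v := by
  rw [← Perm.mul_apply, mul_inv_cancel, Perm.one_apply]

private theorem RepB_ia {n : ℕ} (σ : Perm (Fin n)) (v : Fin n) : σ⁻¹ (σ v) = v := by
  rw [← Perm.mul_apply, inv_mul_cancel, Perm.one_apply]

private theorem RepB_mem_mv {n : ℕ} (σ : Perm (Fin n)) (v : Fin n) : v ∈ mv σ ↔ σ v ≠ v := by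
  unfold mv
  rw [Finset.mem_filter]
  exact ⟨fun h => h.2, fun h => ⟨Finset.mem_univ _, h⟩⟩

private theorem RepB_inv_mem {n : ℕ} (σ : Perm (Fin n)) {v : Fin n} (hv : v ∈ mv σ) :
    σ⁻¹ v ∈ mv σ := by
  rw [RepB_mem_mv] at hv ⊢
  intro h
  rw [RepB_ai] at h
  apply hv
  calc σ v = σ (σ⁻¹ v) := by rw [← h]
    _ = v := RepB_ai σ v

private theorem RepB_pow_inv_mem {n : ℕ} (σ : Perm (Fin n)) {v : Fin n} (hv : v ∈ mv σ) (t : ℕ) :
    ((σ⁻¹) ^ t) v ∈ mv σ := by
  induction t with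
  | zero => exact hv
  | succ t ih =>
    rw [pow_succ', Perm.mul_apply]
    exact RepB_inv_mem σ ih

private theorem RepB_pow_inv {n : ℕ} (σ : Perm (Fin n)) (t : ℕ) (v w : Fin n) :
    ((σ⁻¹) ^ t) v = w ↔ (σ ^ t) w = v := by
  rw [inv_pow, Perm.inv_eq_iff_eq]
  exact eq_comm

private theorem RepB_inj {n : ℕ} (σ τ : Perm (Fin n)) (hA : mv σ = mv τ) (hR : Rep σ = Rep τ)
    (h : ∀ v ∈ mv σ, v ∉ Rep σ → σ⁻¹ v = τ⁻¹ v) : σ = τ := by
  classical
  ext1 i
  by_cases hi : i ∈ mv σ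
  · have hσi : σ i ∈ mv σ := by
      rw [RepB_mem_mv] at hi ⊢
      exact fun h1 => hi (σ.injective h1)
    have hi' : i ∈ mv τ := hA ▸ hi
    have hτi : τ i ∈ mv σ := by
      rw [hA, RepB_mem_mv]
      rw [RepB_mem_mv] at hi'
      exact fun h1 => hi' (τ.injective h1)
    by_cases h1 : σ i ∈ Rep σ
    · by_cases h2 : τ i ∈ Rep σ
      · -- both values are representatives
        obtain ⟨u₀, hu₀, k, hk⟩ := rep_cover σ i ((RepB_mem_mv σ i).1 hi)
        have hex : ∃ l : ℕ, ((σ⁻¹) ^ l) i ∈ Rep σ := ⟨k, by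
          rw [(RepB_pow_inv σ k i u₀).2 hk]; exact hu₀⟩
        set l := Nat.find hex with hl
        have hlR : ((σ⁻¹) ^ l) i ∈ Rep σ := Nat.find_spec hex
        have hmin : ∀ t < l, ((σ⁻¹) ^ t) i ∉ Rep σ := fun t ht => Nat.find_min hex ht
        have hagree : ∀ t ≤ l, ((τ⁻¹) ^ t) i = ((σ⁻¹) ^ t) i := by
          intro t
          induction t with
          | zero => intro _; rfl
          | succ t ih =>
            intro ht
            rw [pow_succ', Perm.mul_apply, pow_succ', Perm.mul_apply, ih (by omega)]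
            exact (h _ (RepB_pow_inv_mem σ hi t) (hmin t (by omega))).symm
        set u := ((σ⁻¹) ^ l) i with hu
        have e1 : (σ ^ l) u = i := (RepB_pow_inv σ l i u).1 hu.symm
        have e2 : (τ ^ l) u = i := (RepB_pow_inv τ l i u).1 (hagree l le_rfl)
        have e3 : u = σ i := rep_unique σ u (σ i) hlR h1 (l + 1) (by
          rw [pow_succ', Perm.mul_apply, e1])
        have e4 : u = τ i := rep_unique τ u (τ i) (hR ▸ hlR) (hR ▸ h2) (l + 1) (by
          rw [pow_succ', Perm.mul_apply, e2])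
        rw [← e3, ← e4]
      · have e := h (τ i) hτi h2
        rw [RepB_ia, Perm.inv_eq_iff_eq] at e
        exact e.symm
    · have e := h (σ i) hσi h1
      rw [RepB_ia] at e
      exact (Perm.inv_eq_iff_eq.1 e.symm)
  · have hi' : i ∉ mv τ := hA ▸ hi
    rw [RepB_mem_mv, not_not] at hi hi'
    rw [hi, hi']

theorem perm_fix {n : ℕ} (A R : Finset (Fin n)) :
    Nat.card {σ : Perm (Fin n) // mv σ = A ∧ Rep σ = R} ≤ A.card ^ (A.card - R.card) := by
  classical
  by_cases hRA : R ⊆ A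
  · have hf : ∀ σ : {σ : Perm (Fin n) // mv σ = A ∧ Rep σ = R}, ∀ v : {x // x ∈ A \ R},
        σ.1⁻¹ v.1 ∈ A := by
      intro σ v
      have hv := (Finset.mem_sdiff.1 v.2).1
      have h1 := RepB_inv_mem σ.1 (v := v.1) (by rw [σ.2.1]; exact hv)
      rw [σ.2.1] at h1
      exact h1
    let f : {σ : Perm (Fin n) // mv σ = A ∧ Rep σ = R} → ({x // x ∈ A \ R} → {x // x ∈ A}) :=
      fun σ v => ⟨σ.1⁻¹ v.1, hf σ v⟩
    have hinj : Function.Injective f := by
      intro σ τ hστ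
      apply Subtype.ext
      refine RepB_inj σ.1 τ.1 (σ.2.1.trans τ.2.1.symm) (σ.2.2.trans τ.2.2.symm) ?_
      intro v hv hvR
      rw [σ.2.1] at hv
      rw [σ.2.2] at hvR
      have h1 := congrFun hστ ⟨v, Finset.mem_sdiff.2 ⟨hv, hvR⟩⟩
      exact congrArg Subtype.val h1
    have h1 := Nat.card_le_card_of_injective f hinj
    refine h1.trans (le_of_eq ?_)
    rw [Nat.card_eq_fintype_card, Fintype.card_fun, Fintype.card_coe, Fintype.card_coe,
      Finset.card_sdiff_of_subset hRA]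
  · have hem : IsEmpty {σ : Perm (Fin n) // mv σ = A ∧ Rep σ = R} := by
      refine ⟨fun σ => hRA ?_⟩
      have h1 := rep_sub σ.1
      rw [σ.2.1, σ.2.2] at h1
      exact h1
    rw [Nat.card_of_isEmpty]
    exact Nat.zero_le _

theorem perm_count (n s o : ℕ) :
    Nat.card {σ : Perm (Fin n) // (mv σ).card = s ∧ (Rep σ).card = o} ≤
      n.choose s * 2 ^ s * s ^ (s - o) := by
  classical
  rw [Nat.card_eq_fintype_card, Fintype.card_subtype]
  have hsub : (Finset.univ.filter fun σ : Perm (Fin n) => (mv σ).card = s ∧ (Rep σ).card = o) ⊆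
      (Finset.powersetCard s (Finset.univ : Finset (Fin n))).biUnion fun A =>
        (A.powerset.filter fun R => R.card = o).biUnion fun R =>
          Finset.univ.filter fun σ : Perm (Fin n) => mv σ = A ∧ Rep σ = R := by
    intro σ hσ
    rw [Finset.mem_filter] at hσ
    rw [Finset.mem_biUnion]
    refine ⟨mv σ, Finset.mem_powersetCard.2 ⟨Finset.subset_univ _, hσ.2.1⟩, ?_⟩
    rw [Finset.mem_biUnion]
    refine ⟨Rep σ, Finset.mem_filter.2 ⟨Finset.mem_powerset.2 (rep_sub σ), hσ.2.2⟩, ?_⟩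
    exact Finset.mem_filter.2 ⟨Finset.mem_univ _, rfl, rfl⟩
  refine (Finset.card_le_card hsub).trans ?_
  have h1 : (Finset.powersetCard s (Finset.univ : Finset (Fin n))).card = n.choose s := by
    rw [Finset.card_powersetCard, Finset.card_univ, Fintype.card_fin]
  rw [← h1, mul_assoc]
  refine Finset.card_biUnion_le_card_mul _ _ _ fun A hA => ?_
  have hAs : A.card = s := (Finset.mem_powersetCard.1 hA).2
  have h2 : (A.powerset.filter fun R => R.card = o).card ≤ 2 ^ s := by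
    refine (Finset.card_filter_le _ _).trans (le_of_eq ?_)
    rw [Finset.card_powerset, hAs]
  refine le_trans (Finset.card_biUnion_le_card_mul _ _ (s ^ (s - o)) fun R hR => ?_)
    (Nat.mul_le_mul_right _ h2)
  have hRo : R.card = o := (Finset.mem_filter.1 hR).2
  have h3 := perm_fix A R
  rw [Nat.card_eq_fintype_card, Fintype.card_subtype, hAs, hRo] at h3
  exact h3

theorem perm_count_real (n s o : ℕ) (hs : 1 ≤ s) :
    (Nat.card {σ : Perm (Fin n) // (mv σ).card = s ∧ (Rep σ).card = o} : ℝ) ≤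
      6 ^ s * (n : ℝ) ^ s / (s : ℝ) ^ o := by
  have hs0 : (0 : ℝ) < s := by exact_mod_cast hs
  rcases isEmpty_or_nonempty {σ : Perm (Fin n) // (mv σ).card = s ∧ (Rep σ).card = o} with he | he
  · rw [Nat.card_of_isEmpty, Nat.cast_zero]
    positivity
  · obtain ⟨σ⟩ := he
    have hos : o ≤ s := by
      have h1 := rep_card σ.1
      rw [σ.2.1, σ.2.2] at h1
      omega
    have h1 : (Nat.card {σ : Perm (Fin n) // (mv σ).card = s ∧ (Rep σ).card = o} : ℝ) ≤
        (n.choose s : ℝ) * 2 ^ s * (s : ℝ) ^ (s - o) := by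
      exact_mod_cast perm_count n s o
    have h2 : (n.choose s : ℝ) ≤ (n : ℝ) ^ s / (s.factorial : ℝ) := Nat.choose_le_pow_div s n
    have h3 : (s : ℝ) ^ (s - o) = (s : ℝ) ^ s / (s : ℝ) ^ o := by
      rw [pow_sub₀ _ hs0.ne' hos]
      rfl
    have h4 : (s : ℝ) ^ s / (s.factorial : ℝ) ≤ 3 ^ s := by
      calc (s : ℝ) ^ s / (s.factorial : ℝ) ≤ Real.exp s :=
            Real.pow_div_factorial_le_exp (s : ℝ) hs0.le s
        _ = Real.exp 1 ^ s := by rw [← Real.exp_nat_mul, mul_one]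
        _ ≤ 3 ^ s := pow_le_pow_left₀ (Real.exp_pos 1).le (by linarith [Real.exp_one_lt_d9]) s
    have hfac : (0 : ℝ) < (s.factorial : ℝ) := by exact_mod_cast s.factorial_pos
    calc (Nat.card {σ : Perm (Fin n) // (mv σ).card = s ∧ (Rep σ).card = o} : ℝ)
        ≤ (n.choose s : ℝ) * 2 ^ s * (s : ℝ) ^ (s - o) := h1
      _ ≤ (n : ℝ) ^ s / (s.factorial : ℝ) * 2 ^ s * (s : ℝ) ^ (s - o) := by
          refine mul_le_mul_of_nonneg_right ?_ (by positivity)
          exact mul_le_mul_of_nonneg_right h2 (by positivity)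
      _ = ((s : ℝ) ^ s / (s.factorial : ℝ)) * (2 ^ s * (n : ℝ) ^ s / (s : ℝ) ^ o) := by
          rw [h3]
          field_simp
      _ ≤ 3 ^ s * (2 ^ s * (n : ℝ) ^ s / (s : ℝ) ^ o) :=
          mul_le_mul_of_nonneg_right h4 (by positivity)
      _ = 6 ^ s * (n : ℝ) ^ s / (s : ℝ) ^ o := by
          rw [show (6 : ℝ) = 3 * 2 by norm_num, mul_pow]
          ring

end MPbcd198.T
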