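import Pool.Agent.Lib.MP_bcd198_co.T.FixB
import Pool.Agent.Lib.MP_bcd198_co.T.RepB

/-!
# JOB T/AutS: the pairs (regular graph, non trivial automorphism) are negligible (`d ≥ 3`)

`K' := (d+1) (6 · 6^d (d!)^(d+1)) ≥ 1`, `N(n,s,o)` = number of `σ` with `|mv σ| = s`, `|Rep σ| = o`, `Q := MNum (dn/2)/(d!)^n`. The number of pairs is
`∑_{σ ≠ 1} #{G : Reg d G ∧ IsAut G σ}`; `σ ≠ 1` gives `s ≥ 2` (`mv σ` is not empty and `2 o ≤ s` with `o ≥ 1` by `rep_cover`, `rep_card`), `s ≤ n`, `2 o ≤ s`. By `fix_bound` and `perm_count_real` it is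
`≤ Q ∑_{s=2}^n ∑_{o ≤ s/2} (6^s n^s/s^o) K'^s √s^(do) (1/√n)^(ds)`.
Since `n^s = √n^(2s)`, `s^o = √s^(2o)`, `d ≥ 3`: the term is `(6K')^s (1/√n)^((d-2)s) √s^((d-2)o) ≤ (6K')^s (1/√n)^((d-2)(s-o))` (as `√s ≤ √n`, `o ≤ s`)
`≤ (6K')^s (1/√n)^(s-o)` (`1/√n ≤ 1`, `d - 2 ≥ 1`) `≤ (6K')^s (1/√√n)^s`, because with `y = 1/√√n ≤ 1`, `(1/√n)^(s-o) = y^(2(s-o))` and `2(s-o) ≥ s`.
The number of `o ≤ s/2` is `≤ s ≤ 2^s` (for `s ≥ 2`). So the sum is `≤ Q ∑_{s ≥ 2} z^s` with `z = 12 K' / √√n`, and if `z ≤ 1/2` it is `≤ Q · 2 z²`, which is `≤ ε Q` for large `n`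
(`z → 0`).
-/

set_option autoImplicit false

namespace MPbcd198.T

open Equiv

/-- the term for given numbers of moved points and cycles -/
private theorem autS_term {n d s o : ℕ} (hd : 3 ≤ d) (hn : 1 ≤ n) (hs : 1 ≤ s) (hsn : s ≤ n)
    (ho : 2 * o ≤ s) (K : ℝ) (hK : 0 ≤ K) :
    (6 ^ s * (n : ℝ) ^ s / (s : ℝ) ^ o) * (K ^ s * √(s : ℝ) ^ (d * o) * (1 / √(n : ℝ)) ^ (d * s)) ≤
      (6 * K * (1 / √√(n : ℝ))) ^ s := by
  obtain ⟨c, rfl⟩ : ∃ c, d = c + 3 := ⟨d - 3, by omega⟩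
  have hn' : (1 : ℝ) ≤ (n : ℝ) := by exact_mod_cast hn
  have hs' : (1 : ℝ) ≤ (s : ℝ) := by exact_mod_cast hs
  have hx1 : 1 ≤ √(n : ℝ) := Real.one_le_sqrt.2 hn'
  have hx0 : 0 < √(n : ℝ) := by linarith
  have ht1 : 1 ≤ √(s : ℝ) := Real.one_le_sqrt.2 hs'
  have ht0 : 0 < √(s : ℝ) := by linarith
  have hts : √(s : ℝ) ≤ √(n : ℝ) := Real.sqrt_le_sqrt (by exact_mod_cast hsn)
  have hw1 : 1 ≤ √√(n : ℝ) := Real.one_le_sqrt.2 hx1
  have hw0 : 0 < √√(n : ℝ) := by linarith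
  have hnn : (n : ℝ) = √(n : ℝ) ^ 2 := (Real.sq_sqrt (by linarith)).symm
  have hss : (s : ℝ) = √(s : ℝ) ^ 2 := (Real.sq_sqrt (by linarith)).symm
  have hww : √(n : ℝ) = √√(n : ℝ) ^ 2 := (Real.sq_sqrt hx0.le).symm
  set x := √(n : ℝ) with hx
  set t := √(s : ℝ) with ht
  set w := √x with hw
  obtain ⟨r, hr⟩ : ∃ r, s = o + r := ⟨s - o, by omega⟩
  have hro : o ≤ r := by omega
  have h1 : (6 ^ s * (n : ℝ) ^ s / (s : ℝ) ^ o) *
      (K ^ s * t ^ ((c + 3) * o) * (1 / x) ^ ((c + 3) * s)) =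
      (6 * K) ^ s * (t ^ ((c + 1) * o) * (1 / x) ^ ((c + 1) * s)) := by
    have e1 : (n : ℝ) ^ s = x ^ (2 * s) := by rw [hnn, ← pow_mul]
    have e2 : (s : ℝ) ^ o = t ^ (2 * o) := by rw [hss, ← pow_mul]
    rw [e1, e2]
    have e3 : t ^ ((c + 3) * o) = t ^ (2 * o) * t ^ ((c + 1) * o) := by
      rw [← pow_add]; congr 1; ring
    have e4 : (1 / x) ^ ((c + 3) * s) = (1 / x) ^ (2 * s) * (1 / x) ^ ((c + 1) * s) := by
      rw [← pow_add]; congr 1; ring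
    rw [e3, e4, mul_pow]
    have e5 : x ^ (2 * s) * (1 / x) ^ (2 * s) = 1 := by
      rw [← mul_pow, mul_one_div_cancel hx0.ne', one_pow]
    have e6 : t ^ (2 * o) ≠ 0 := pow_ne_zero _ ht0.ne'
    calc 6 ^ s * x ^ (2 * s) / t ^ (2 * o) *
          (K ^ s * (t ^ (2 * o) * t ^ ((c + 1) * o)) * ((1 / x) ^ (2 * s) * (1 / x) ^ ((c + 1) * s)))
        = (6 ^ s * K ^ s) * (t ^ ((c + 1) * o) * (1 / x) ^ ((c + 1) * s)) *
            (x ^ (2 * s) * (1 / x) ^ (2 * s)) * (t ^ (2 * o) / t ^ (2 * o)) := by ring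
      _ = _ := by rw [e5, div_self e6]; ring
  rw [h1, mul_pow (6 * K) (1 / w)]
  apply mul_le_mul_of_nonneg_left _ (by positivity)
  have hix1 : 1 / x ≤ 1 := by rw [div_le_one hx0]; exact hx1
  have hiw1 : 1 / w ≤ 1 := by rw [div_le_one hw0]; exact hw1
  have hix0 : 0 ≤ 1 / x := by positivity
  have hiw0 : 0 ≤ 1 / w := by positivity
  calc t ^ ((c + 1) * o) * (1 / x) ^ ((c + 1) * s)
      ≤ x ^ ((c + 1) * o) * (1 / x) ^ ((c + 1) * s) := by
        apply mul_le_mul_of_nonneg_right _ (by positivity)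
        exact pow_le_pow_left₀ ht0.le hts _
    _ = (1 / x) ^ ((c + 1) * r) := by
        have e7 : (1 / x) ^ ((c + 1) * s) = (1 / x) ^ ((c + 1) * o) * (1 / x) ^ ((c + 1) * r) := by
          rw [← pow_add]; congr 1; rw [hr]; ring
        rw [e7, ← mul_assoc, ← mul_pow, mul_one_div_cancel hx0.ne', one_pow, one_mul]
    _ ≤ (1 / x) ^ r := by
        apply pow_le_pow_of_le_one hix0 hix1
        nlinarith [Nat.zero_le (c * r)]
    _ = (1 / w) ^ (2 * r) := by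
        rw [hww, pow_mul, ← one_div_pow]
    _ ≤ (1 / w) ^ s := by
        apply pow_le_pow_of_le_one hiw0 hiw1
        omega

private theorem autS_geom (z : ℝ) (hz0 : 0 ≤ z) (hz : z ≤ 1 / 2) (n : ℕ) :
    ∑ s ∈ Finset.Icc 2 n, z ^ s ≤ z := by
  have h1 : ∀ m : ℕ, ∑ s ∈ Finset.Icc 2 (m + 1), z ^ s ≤ z - z ^ (m + 1) := by
    intro m
    induction m with
    | zero => simp
    | succ m ih =>
      rw [Finset.sum_Icc_succ_top (by omega)]
      have h2 : z ^ (m + 1 + 1) ≤ z ^ (m + 1) / 2 := by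
        rw [pow_succ]
        nlinarith [pow_nonneg hz0 (m + 1)]
      linarith
  rcases Nat.eq_zero_or_pos n with h | h
  · subst h; simpa using hz0
  · obtain ⟨m, rfl⟩ : ∃ m, n = m + 1 := ⟨n - 1, by omega⟩
    have := h1 m
    have h3 := pow_nonneg hz0 (m + 1)
    linarith

open Classical in
private theorem autS_card (d n : ℕ) :
    (Nat.card {t : SimpleGraph (Fin n) × Perm (Fin n) // Reg d t.1 ∧ t.2 ≠ 1 ∧ IsAut t.1 t.2} : ℝ) =
      ∑ σ ∈ (Finset.univ.filter fun σ : Perm (Fin n) => σ ≠ 1),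
        (Nat.card {G : SimpleGraph (Fin n) // Reg d G ∧ IsAut G σ} : ℝ) := by
  let e : {t : SimpleGraph (Fin n) × Perm (Fin n) // Reg d t.1 ∧ t.2 ≠ 1 ∧ IsAut t.1 t.2} ≃
      Σ σ : {σ : Perm (Fin n) // σ ≠ 1}, {G : SimpleGraph (Fin n) // Reg d G ∧ IsAut G σ.1} :=
    { toFun := fun t => ⟨⟨t.1.2, t.2.2.1⟩, ⟨t.1.1, t.2.1, t.2.2.2⟩⟩
      invFun := fun p => ⟨(p.2.1, p.1.1), p.2.2.1, p.1.2, p.2.2.2⟩
      left_inv := fun t => rfl
      right_inv := fun p => rfl }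
  rw [Nat.card_congr e, Nat.card_sigma, Nat.cast_sum]
  rw [← Finset.sum_subtype (Finset.univ.filter fun σ : Perm (Fin n) => σ ≠ 1)
    (p := fun σ => σ ≠ 1) (by simp)
    (fun σ => (Nat.card {G : SimpleGraph (Fin n) // Reg d G ∧ IsAut G σ} : ℝ))]

open Classical in
theorem aut_small (d : ℕ) (hd : 3 ≤ d) (ε : ℝ) (hε : 0 < ε) : ∃ n₀ : ℕ, ∀ n : ℕ, n₀ ≤ n →
    Even (d * n) →
    (Nat.card {t : SimpleGraph (Fin n) × Perm (Fin n) // Reg d t.1 ∧ t.2 ≠ 1 ∧ IsAut t.1 t.2} : ℝ) ≤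
      ε * (MNum (d * n / 2) / (d.factorial : ℝ) ^ n) := by
  obtain ⟨K, hKdef⟩ : ∃ K : ℝ, K = (d + 1) * (6 * 6 ^ d * (d.factorial : ℝ) ^ (d + 1)) := ⟨_, rfl⟩
  have hK : 0 < K := by rw [hKdef]; positivity
  obtain ⟨δ, hδdef⟩ : ∃ δ : ℝ, δ = min (1 / 2) ε := ⟨_, rfl⟩
  have hδ : 0 < δ := by rw [hδdef]; exact lt_min (by norm_num) hε
  obtain ⟨n₁, hn₁⟩ := exists_nat_ge ((12 * K / δ) ^ 4)
  refine ⟨n₁ + 1, fun n hn heven => ?_⟩
  have hn1 : 1 ≤ n := by omega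
  obtain ⟨Q, hQdef⟩ : ∃ Q : ℝ, Q = MNum (d * n / 2) / (d.factorial : ℝ) ^ n := ⟨_, rfl⟩
  have hQ : 0 ≤ Q := by rw [hQdef]; unfold MNum; positivity
  rw [← hQdef]
  -- the size of `z`
  have hw0 : 0 < √√(n : ℝ) := by
    apply Real.sqrt_pos.2
    apply Real.sqrt_pos.2
    exact_mod_cast hn1
  have hz : 12 * K / √√(n : ℝ) ≤ δ := by
    have h1 : 12 * K / δ ≤ √√(n : ℝ) := by
      apply Real.le_sqrt_of_sq_le
      apply Real.le_sqrt_of_sq_le
      have e0 : ((12 * K / δ) ^ 2) ^ 2 = (12 * K / δ) ^ 4 := by rw [← pow_mul]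
      have e1 : (n₁ : ℝ) ≤ (n : ℝ) := by exact_mod_cast (by omega : n₁ ≤ n)
      rw [e0]
      exact hn₁.trans e1
    rw [div_le_iff₀ hw0]
    rw [div_le_iff₀ hδ] at h1
    linarith
  obtain ⟨z, hzdef⟩ : ∃ z : ℝ, z = 12 * K / √√(n : ℝ) := ⟨_, rfl⟩
  rw [← hzdef] at hz
  have hz0 : 0 ≤ z := by rw [hzdef]; positivity
  have hz1 : z ≤ 1 / 2 := hz.trans (by rw [hδdef]; exact min_le_left _ _)
  have hz2 : z ≤ ε := hz.trans (by rw [hδdef]; exact min_le_right _ _)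
  -- the sum
  rw [autS_card]
  set T : Finset (ℕ × ℕ) := (Finset.Icc 2 n ×ˢ Finset.range (n + 1)).filter
    fun p => 2 * p.2 ≤ p.1 with hT
  have hmaps : ∀ σ ∈ (Finset.univ.filter fun σ : Perm (Fin n) => σ ≠ 1),
      ((mv σ).card, (Rep σ).card) ∈ T := by
    intro σ hσ
    have hσ1 : σ ≠ 1 := (Finset.mem_filter.1 hσ).2
    obtain ⟨v, hv⟩ : ∃ v, σ v ≠ v := by
      by_contra hcon
      push Not at hcon
      exact hσ1 (Equiv.ext hcon)
    obtain ⟨u, hu, -⟩ := rep_cover σ v hv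
    have h1 : 1 ≤ (Rep σ).card := Finset.card_pos.2 ⟨u, hu⟩
    have h2 := rep_card σ
    have h3 : (mv σ).card ≤ n := by
      have := Finset.card_le_univ (mv σ)
      simpa using this
    rw [hT, Finset.mem_filter, Finset.mem_product, Finset.mem_Icc, Finset.mem_range]
    refine ⟨⟨⟨?_, ?_⟩, ?_⟩, ?_⟩ <;> dsimp only <;> omega
  rw [← Finset.sum_fiberwise_of_maps_to hmaps]
  have hterm : ∀ p ∈ T, ∑ σ ∈ (Finset.univ.filter fun σ : Perm (Fin n) => σ ≠ 1) with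
      ((mv σ).card, (Rep σ).card) = p,
        (Nat.card {G : SimpleGraph (Fin n) // Reg d G ∧ IsAut G σ} : ℝ) ≤
      (6 * K * (1 / √√(n : ℝ))) ^ p.1 * Q := by
    rintro ⟨s, o⟩ hp
    rw [hT, Finset.mem_filter, Finset.mem_product, Finset.mem_Icc, Finset.mem_range] at hp
    obtain ⟨⟨⟨hs2, hsn⟩, -⟩, hos⟩ := hp
    dsimp only at hs2 hsn hos
    have h1 : ∀ σ ∈ ((Finset.univ.filter fun σ : Perm (Fin n) => σ ≠ 1).filter
        fun σ => ((mv σ).card, (Rep σ).card) = (s, o)),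
        (Nat.card {G : SimpleGraph (Fin n) // Reg d G ∧ IsAut G σ} : ℝ) ≤
        K ^ s * √(s : ℝ) ^ (d * o) * (1 / √(n : ℝ)) ^ (d * s) * Q := by
      intro σ hσ
      rw [Finset.mem_filter, Finset.mem_filter] at hσ
      obtain ⟨⟨-, hσ1⟩, hσ2⟩ := hσ
      rw [Prod.mk.injEq] at hσ2
      have := fix_bound (by omega : 1 ≤ d) heven σ hσ1
      rw [hσ2.1, hσ2.2, ← hKdef, ← hQdef] at this
      exact this
    refine (Finset.sum_le_card_nsmul _ _ _ h1).trans ?_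
    rw [nsmul_eq_mul]
    have h2 : (((Finset.univ.filter fun σ : Perm (Fin n) => σ ≠ 1).filter
        fun σ => ((mv σ).card, (Rep σ).card) = (s, o)).card : ℝ) ≤
        6 ^ s * (n : ℝ) ^ s / (s : ℝ) ^ o := by
      refine le_trans ?_ (perm_count_real n s o (by omega))
      have h3 : Nat.card {σ : Perm (Fin n) // (mv σ).card = s ∧ (Rep σ).card = o} =
          (Finset.univ.filter fun σ : Perm (Fin n) => (mv σ).card = s ∧ (Rep σ).card = o).card := by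
        rw [Nat.card_eq_fintype_card, Fintype.card_subtype]
      rw [h3]
      exact_mod_cast Finset.card_le_card (by
        intro σ hσ
        rw [Finset.mem_filter, Finset.mem_filter] at hσ
        rw [Finset.mem_filter]
        refine ⟨Finset.mem_univ _, ?_⟩
        have := hσ.2
        rw [Prod.mk.injEq] at this
        exact this)
    have h4 := autS_term hd hn1 (by omega : 1 ≤ s) hsn hos K hK.le
    have h5 : 0 ≤ K ^ s * √(s : ℝ) ^ (d * o) * (1 / √(n : ℝ)) ^ (d * s) := by positivity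
    calc _ ≤ (6 ^ s * (n : ℝ) ^ s / (s : ℝ) ^ o) *
          (K ^ s * √(s : ℝ) ^ (d * o) * (1 / √(n : ℝ)) ^ (d * s) * Q) :=
          mul_le_mul_of_nonneg_right h2 (mul_nonneg h5 hQ)
      _ = ((6 ^ s * (n : ℝ) ^ s / (s : ℝ) ^ o) *
          (K ^ s * √(s : ℝ) ^ (d * o) * (1 / √(n : ℝ)) ^ (d * s))) * Q := by ring
      _ ≤ _ := mul_le_mul_of_nonneg_right h4 hQ
  refine (Finset.sum_le_sum hterm).trans ?_
  rw [← Finset.sum_mul]
  apply mul_le_mul_of_nonneg_right _ hQ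
  set y := 6 * K * (1 / √√(n : ℝ)) with hy
  have hy0 : 0 ≤ y := by positivity
  have hyz : 2 * y = z := by rw [hy, hzdef]; ring
  calc ∑ p ∈ T, y ^ p.1
      = ∑ s ∈ Finset.Icc 2 n, ∑ o ∈ (Finset.range (n + 1)).filter (fun o => 2 * o ≤ s), y ^ s := by
        rw [hT, Finset.sum_filter, Finset.sum_product]
        apply Finset.sum_congr rfl
        intro s _
        rw [Finset.sum_filter]
    _ ≤ ∑ s ∈ Finset.Icc 2 n, z ^ s := by
        apply Finset.sum_le_sum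
        intro s hs
        rw [Finset.mem_Icc] at hs
        rw [Finset.sum_const, nsmul_eq_mul, ← hyz, mul_pow 2 y s]
        apply mul_le_mul_of_nonneg_right _ (pow_nonneg hy0 s)
        have h6 : ((Finset.range (n + 1)).filter (fun o => 2 * o ≤ s)).card ≤ s := by
          have h7 : ((Finset.range (n + 1)).filter (fun o => 2 * o ≤ s)) ⊆ Finset.range s := by
            intro o ho
            rw [Finset.mem_filter] at ho
            rw [Finset.mem_range]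
            omega
          simpa using Finset.card_le_card h7
        calc (((Finset.range (n + 1)).filter (fun o => 2 * o ≤ s)).card : ℝ) ≤ (s : ℝ) := by
              exact_mod_cast h6
          _ ≤ 2 ^ s := by exact_mod_cast (Nat.lt_two_pow_self (n := s)).le
    _ ≤ z := autS_geom z hz0 hz1 n
    _ ≤ ε := hz2

end MPbcd198.T
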