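import Pool.Agent.Lib.MP_bcd198_co.Types

/-!
# MP_bcd198_co, STREAM T (tree case): definitions

Everything lives in the namespace `MPbcd198.T`.
-/

set_option autoImplicit false

namespace MPbcd198.T

open Equiv

/-- every vertex has exactly `d` neighbours -/
def Reg {V : Type} (d : ℕ) (G : SimpleGraph V) : Prop :=
  ∀ v, Nat.card (G.neighborSet v) = d

/-- no cycle of length at most `g` -/
def NoCyc {V : Type} (g : ℕ) (G : SimpleGraph V) : Prop :=
  ∀ (v : V) (w : G.Walk v v), w.IsCycle → g < w.length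

/-- `σ` is an automorphism of `G` -/
def IsAut {V : Type} (G : SimpleGraph V) (σ : Perm V) : Prop :=
  ∀ x y, G.Adj (σ x) (σ y) ↔ G.Adj x y

/-! ## Partial matchings -/

/-- the perfect matching `a` contains the partial matching `M` (a list of pairs) -/
def Ext {Ω : Type} (M : List (Ω × Ω)) (a : Perm Ω) : Prop := ∀ e ∈ M, a e.1 = e.2

/-- the points of a partial matching -/
def pts {Ω : Type} (M : List (Ω × Ω)) : List Ω := M.map Prod.fst ++ M.map Prod.snd

/-- no conflict: any edge of `M` and any edge of `M'` are equal or disjoint -/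
def NoConf {Ω : Type} (M M' : List (Ω × Ω)) : Prop :=
  ∀ e ∈ M, ∀ e' ∈ M', e' = e ∨ e' = e.swap ∨
    (e.1 ≠ e'.1 ∧ e.1 ≠ e'.2 ∧ e.2 ≠ e'.1 ∧ e.2 ≠ e'.2)

/-! ## Short cycles in the configuration model; the darts are `Fin n × Fin d` -/

/-- index of the short cycles: `k + 1` distinct vertices `v_j` and at each of them two distinct
darts `out_j`, `in_j` -/
abbrev CIdx (n d g : ℕ) : Type :=
  Σ k : Fin g, {t : (Fin (k.val + 1) → Fin n) × (Fin (k.val + 1) → Fin d) ×
    (Fin (k.val + 1) → Fin d) // Function.Injective t.1 ∧ ∀ i, t.2.1 i ≠ t.2.2 i}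

/-- the matching `a` contains the cycle `c`: the dart `out_j` at `v_j` is matched with the dart
`in_{j+1}` at `v_{j+1}` (indices modulo `k+1`) -/
def HasCyc {n d g : ℕ} (c : CIdx n d g) (a : Perm (Fin n × Fin d)) : Prop :=
  ∀ j : Fin (c.1.val + 1), a (c.2.1.1 j, c.2.1.2.1 j) = (c.2.1.1 (j + 1), c.2.1.2.2 (j + 1))

/-- the graph of a matching of the darts -/
def gr {n d : ℕ} (a : Perm (Fin n × Fin d)) : SimpleGraph (Fin n) :=
  SimpleGraph.fromRel fun v w => ∃ i j, a (v, i) = (w, j)

/-- (bound for the) probability that a random matching contains a given set of `k+1` edges -/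
noncomputable def pr (n d k : ℕ) : ℝ :=
  (∏ i ∈ Finset.range (k + 1), ((d * n : ℝ) - 1 - 2 * i))⁻¹

/-! ## Cycles of a permutation -/

open Classical in
/-- the minimal elements of the non trivial cycles of `σ` -/
noncomputable def Rep {n : ℕ} (σ : Perm (Fin n)) : Finset (Fin n) :=
  Finset.univ.filter fun v => σ v ≠ v ∧ ∀ k : ℕ, v ≤ (σ ^ k) v

open Classical in
/-- the moved points -/
noncomputable def mv {n : ℕ} (σ : Perm (Fin n)) : Finset (Fin n) :=
  Finset.univ.filter fun v => σ v ≠ v

open Classical in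
/-- the neighbours of `v` fixed by `σ` -/
noncomputable def outN {n : ℕ} (σ : Perm (Fin n)) (G : SimpleGraph (Fin n)) (v : Fin n) :
    Finset (Fin n) :=
  Finset.univ.filter fun w => G.Adj v w ∧ σ w = w

open Classical in
/-- the neighbours of `v` moved by `σ` -/
noncomputable def inN {n : ℕ} (σ : Perm (Fin n)) (G : SimpleGraph (Fin n)) (v : Fin n) :
    Finset (Fin n) :=
  Finset.univ.filter fun w => G.Adj v w ∧ σ w ≠ w

end MPbcd198.T
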