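import Pool.Agent.Lib.MP_bcd198_co.T.Base

/-!
# JOB T/Burn: labelled and unlabelled graphs (Burnside)

`locSetoid`, `UnlabelledS`, `ClassConnected` are in Defs.lean. `F : SimpleGraph W`, `u : W`, `r`, `n` are arbitrary. For a class `x` let `G_x := x.out` (a representative,
`Quotient.out_eq`). For every labelled `G` in the class `x` choose an isomorphism `π_G : G_x ≃g G` (`Quotient.exact`), i.e. a permutation `π_G` of `Fin n`.
* `burn_lower`: `G ↦ (class of G, π_G)` is injective (`G` is the image of `G_x` under `π_G`): `#labelled ≤ #classes · n!` (`Fintype.card_perm`).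
* `burn_upper`: map `(x, π)`, `x` a class which is not `ClassConnected`, `π : Perm (Fin n)`, to `(G, σ)` with `G := π · G_x` (`G.Adj (π v) (π w) ↔ G_x.Adj v w`, e.g. `SimpleGraph.map π.toEmbedding G_x` or
  `comap π.symm`), `σ := π_G⁻¹ then π`, i.e. `σ = π * π_G⁻¹`. `G` is again locally `F` (`IsLocally` is invariant under isomorphism: an isomorphism `G_x ≃g G` preserves `edist` and so gives
  isomorphisms of the links `link r G_x v ≃g link r G (π v)` mapping centre to centre), it is in the class `x`, it is not connected (otherwise `x` would be `ClassConnected`),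
  and `σ` is an automorphism of `G`. The map is injective: `G` determines `x`, `G_x` and `π_G`, and `π = σ * π_G`. Hence `#classes · n! ≤ #{(G, σ)}`.
  (Transport of `edist` under an isomorphism: `SimpleGraph.Iso`… e.g. `SimpleGraph.edist` via walks `Walk.map`, two inequalities.)
-/

set_option autoImplicit false

namespace MPbcd198.T

open Equiv

private lemma burn_edist_hom {V V' : Type} {G : SimpleGraph V} {G' : SimpleGraph V'}
    (f : G →g G') (a b : V) : G'.edist (f a) (f b) ≤ G.edist a b := by
  by_cases h : G.edist a b = ⊤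
  · rw [h]; exact le_top
  · obtain ⟨p, hp⟩ := SimpleGraph.exists_walk_of_edist_ne_top h
    rw [← hp, ← SimpleGraph.Walk.length_map f p]
    exact SimpleGraph.edist_le (p.map f)

private lemma burn_edist_iso {V V' : Type} {G : SimpleGraph V} {G' : SimpleGraph V'}
    (e : G ≃g G') (a b : V) : G'.edist (e a) (e b) = G.edist a b := by
  apply le_antisymm
  · exact burn_edist_hom e.toHom a b
  · have h := burn_edist_hom e.symm.toHom (e a) (e b)
    have h1 : e.symm.toHom (e a) = a := e.symm_apply_apply a
    have h2 : e.symm.toHom (e b) = b := e.symm_apply_apply b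
    rw [h1, h2] at h
    exact h

theorem isLocally_iso {V V' W : Type} {F : SimpleGraph W} {u : W} {r : ℕ} {G : SimpleGraph V}
    {G' : SimpleGraph V'} (e : G ≃g G') (h : IsLocally r F u G) : IsLocally r F u G' := by
  intro v'
  obtain ⟨v, rfl⟩ := e.surjective v'
  obtain ⟨φ, hφ⟩ := h v
  let ψ : link r G v ≃g link r G' (e v) :=
    { toFun := fun w => ⟨e w.1, by rw [burn_edist_iso e]; exact w.2⟩
      invFun := fun w => ⟨e.symm w.1, by
        rw [← burn_edist_iso e, e.apply_symm_apply]; exact w.2⟩
      left_inv := fun w => Subtype.ext (e.symm_apply_apply w.1)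
      right_inv := fun w => Subtype.ext (e.apply_symm_apply w.1)
      map_rel_iff' := by
        intro a b
        exact e.map_rel_iff }
  refine ⟨φ.trans ψ, ?_⟩
  have : (φ.trans ψ) (linkCentre r F u) = ψ (φ (linkCentre r F u)) := rfl
  rw [this, hφ]
  rfl

section

variable {W : Type} (r : ℕ) (F : SimpleGraph W) (u : W) (n : ℕ)

private lemma burn_exists (G : LocGraph r F u n) : ∃ π : Perm (Fin n), ∀ v w,
    G.1.Adj (π v) (π w) ↔ (Quotient.out (Quotient.mk (locSetoid r F u n) G)).1.Adj v w := by
  have h : (locSetoid r F u n).r (Quotient.out (Quotient.mk (locSetoid r F u n) G)) G :=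
    Quotient.exact (Quotient.out_eq (Quotient.mk (locSetoid r F u n) G))
  obtain ⟨e⟩ := h
  exact ⟨e.toEquiv, fun v w => e.map_rel_iff⟩

private noncomputable def burnPi (G : LocGraph r F u n) : Perm (Fin n) :=
  (burn_exists r F u n G).choose

private lemma burnPi_spec (G : LocGraph r F u n) (v w : Fin n) :
    G.1.Adj (burnPi r F u n G v) (burnPi r F u n G w) ↔
      (Quotient.out (Quotient.mk (locSetoid r F u n) G)).1.Adj v w :=
  (burn_exists r F u n G).choose_spec v w

end

theorem burn_lower {W : Type} (r : ℕ) (F : SimpleGraph W) (u : W) (n : ℕ) :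
    Nat.card (LocGraph r F u n) ≤ Nat.card (UnlabelledS r F u n) * n.factorial := by
  classical
  have h1 : Nat.card (UnlabelledS r F u n) * n.factorial =
      Nat.card (UnlabelledS r F u n × Perm (Fin n)) := by
    rw [Nat.card_prod, Nat.card_eq_fintype_card (α := Perm (Fin n)), Fintype.card_perm,
      Fintype.card_fin]
  rw [h1]
  have : Finite (LocGraph r F u n) := inferInstance
  have : Finite (UnlabelledS r F u n) := inferInstance
  refine Nat.card_le_card_of_injective
    (fun G : LocGraph r F u n => (Quotient.mk (locSetoid r F u n) G, burnPi r F u n G)) ?_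
  intro G H h
  have h2 : Quotient.mk (locSetoid r F u n) G = Quotient.mk (locSetoid r F u n) H :=
    congrArg Prod.fst h
  have h3 : burnPi r F u n G = burnPi r F u n H := congrArg Prod.snd h
  apply Subtype.ext
  ext a b
  obtain ⟨v, rfl⟩ := (burnPi r F u n G).surjective a
  obtain ⟨w, rfl⟩ := (burnPi r F u n G).surjective b
  rw [burnPi_spec, h2, h3, burnPi_spec]

theorem burn_upper {W : Type} (r : ℕ) (F : SimpleGraph W) (u : W) (n : ℕ) :
    Nat.card {x : UnlabelledS r F u n // ¬ ClassConnected x} * n.factorial ≤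
      Nat.card {t : SimpleGraph (Fin n) × Perm (Fin n) //
        IsLocally r F u t.1 ∧ ¬ t.1.Connected ∧ IsAut t.1 t.2} := by
  classical
  have h1 : Nat.card {x : UnlabelledS r F u n // ¬ ClassConnected x} * n.factorial =
      Nat.card ({x : UnlabelledS r F u n // ¬ ClassConnected x} × Perm (Fin n)) := by
    rw [Nat.card_prod, Nat.card_eq_fintype_card (α := Perm (Fin n)), Fintype.card_perm,
      Fintype.card_fin]
  rw [h1]
  have : Finite (SimpleGraph (Fin n) × Perm (Fin n)) := inferInstance
  -- the graph attached to a class and a permutation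
  let iso : ∀ (x : UnlabelledS r F u n) (π : Perm (Fin n)),
      (Quotient.out x).1 ≃g (Quotient.out x).1.comap π.symm := fun x π =>
    { toEquiv := π
      map_rel_iff' := by
        intro a b
        simp [SimpleGraph.comap_adj] }
  let Gr : UnlabelledS r F u n → Perm (Fin n) → LocGraph r F u n := fun x π =>
    ⟨(Quotient.out x).1.comap π.symm, isLocally_iso (iso x π) (Quotient.out x).2⟩
  have hmk : ∀ x π, Quotient.mk (locSetoid r F u n) (Gr x π) = x := by
    intro x π
    rw [← Quotient.out_eq x]
    apply Quotient.sound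
    rw [Quotient.out_eq x]
    exact ⟨(iso x π).symm⟩
  have hadj : ∀ x π a b, (Gr x π).1.Adj a b ↔ (Quotient.out x).1.Adj (π⁻¹ a) (π⁻¹ b) := by
    intro x π a b
    rfl
  have haut : ∀ x π, IsAut (Gr x π).1 (π * (burnPi r F u n (Gr x π))⁻¹) := by
    intro x π a b
    rw [hadj]
    have h2 := burnPi_spec r F u n (Gr x π) ((burnPi r F u n (Gr x π))⁻¹ a)
      ((burnPi r F u n (Gr x π))⁻¹ b)
    rw [hmk] at h2
    have h3 : ∀ c, burnPi r F u n (Gr x π) ((burnPi r F u n (Gr x π))⁻¹ c) = c := fun c =>
      (burnPi r F u n (Gr x π)).apply_symm_apply c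
    rw [h3, h3] at h2
    rw [h2]
    have h4 : ∀ c, π⁻¹ ((π * (burnPi r F u n (Gr x π))⁻¹) c) =
        (burnPi r F u n (Gr x π))⁻¹ c := fun c => π.symm_apply_apply _
    rw [h4, h4]
  refine Nat.card_le_card_of_injective
    (fun p : {x : UnlabelledS r F u n // ¬ ClassConnected x} × Perm (Fin n) =>
      (⟨((Gr p.1.1 p.2).1, p.2 * (burnPi r F u n (Gr p.1.1 p.2))⁻¹),
        (Gr p.1.1 p.2).2, fun hc => p.1.2 ⟨Gr p.1.1 p.2, hmk _ _, hc⟩, haut _ _⟩ :
        {t : SimpleGraph (Fin n) × Perm (Fin n) //
        IsLocally r F u t.1 ∧ ¬ t.1.Connected ∧ IsAut t.1 t.2})) ?_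
  rintro ⟨⟨x, hx⟩, π⟩ ⟨⟨y, hy⟩, ρ⟩ h
  have h2 : ((Gr x π).1, π * (burnPi r F u n (Gr x π))⁻¹) =
      ((Gr y ρ).1, ρ * (burnPi r F u n (Gr y ρ))⁻¹) := congrArg Subtype.val h
  have h3 : Gr x π = Gr y ρ := Subtype.ext (congrArg Prod.fst h2)
  have h4 : π * (burnPi r F u n (Gr x π))⁻¹ = ρ * (burnPi r F u n (Gr y ρ))⁻¹ :=
    congrArg Prod.snd h2
  have h5 : x = y := by
    rw [← hmk x π, h3, hmk]
  rw [h3] at h4
  have h6 : π = ρ := mul_right_cancel h4
  subst h5
  subst h6
  rfl

end MPbcd198.T
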