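import Pool.Agent.Lib.MP_bcd198_co.T.PMr
import Pool.Agent.Lib.MP_bcd198_co.L.CntB

/-!
# JOB T/Cfg: number of graphs with a given degree sequence

Let `V` be finite, `δ : V → ℕ`, `Δ := Σ v, Fin (δ v)` (the darts), `|Δ| = ∑ δ v`.
For a graph `G` with degree sequence `δ` and a family of bijections `e_v : Fin (δ v) ≃ G.neighborSet v` define `a : Perm Δ` by
`a (v,i) = (w, e_w⁻¹ v)` with `w = e_v i`. It is a fixed point free involution (`w ≠ v`; `e_w(e_w⁻¹ v) = v` and `e_v⁻¹ w = i`).
The map `(G, e) ↦ a` is injective: `G.Adj v w ↔ ∃ i j, a (v,i) = (w,j)`, and `e_v i = (a (v,i)).1`.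
Number of pairs `(G, e)` = `#{G} ∏_v (δ v)!` (`Fintype.card_equiv`: `Nat.card (G.neighborSet v) = δ v`), number of `a` = `MNum ((∑ δ)/2)` if `∑ δ` is even
(`L.card_PM`); if there is a `G` then `a` exists and `∑ δ = |Δ|` is even (`L.even_card`; or the handshake lemma). If there is no `G` then the left side is `0`
and `MNum_pos`.
-/

set_option autoImplicit false

namespace MPbcd198.T

theorem deg_even {V : Type} [Fintype V] (δ : V → ℕ) (G : SimpleGraph V)
    (hG : ∀ v, Nat.card (G.neighborSet v) = δ v) : Even (∑ v, δ v) := by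
  classical
  have h1 := G.sum_degrees_eq_twice_card_edges
  have h2 : ∑ v, δ v = ∑ v, G.degree v := by
    refine Finset.sum_congr rfl fun v _ => ?_
    rw [← hG v, Nat.card_eq_fintype_card, SimpleGraph.card_neighborSet_eq_degree]
  rw [h2, h1]
  exact even_two_mul _

/-- reversing the darts of a graph -/
private def Cfg_inv {V : Type} (G : SimpleGraph V) : Equiv.Perm (Σ v, G.neighborSet v) where
  toFun x := ⟨x.2.1, ⟨x.1, (SimpleGraph.mem_neighborSet _ _ _).2 ((SimpleGraph.mem_neighborSet _ _ _).1 x.2.2).symm⟩⟩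
  invFun x := ⟨x.2.1, ⟨x.1, (SimpleGraph.mem_neighborSet _ _ _).2 ((SimpleGraph.mem_neighborSet _ _ _).1 x.2.2).symm⟩⟩
  left_inv x := rfl
  right_inv x := rfl

/-- the matching of the half edges given by a graph and a numbering of the neighbours -/
private def Cfg_map {V : Type} {δ : V → ℕ} {G : SimpleGraph V}
    (e : ∀ v, Fin (δ v) ≃ G.neighborSet v) : Equiv.Perm (Σ v, Fin (δ v)) :=
  ((Equiv.sigmaCongrRight e).trans (Cfg_inv G)).trans (Equiv.sigmaCongrRight e).symm

private theorem Cfg_map_fst {V : Type} {δ : V → ℕ} {G : SimpleGraph V}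
    (e : ∀ v, Fin (δ v) ≃ G.neighborSet v) (v : V) (i : Fin (δ v)) :
    (Cfg_map e ⟨v, i⟩).1 = (e v i).1 := rfl

private theorem Cfg_map_pm {V : Type} {δ : V → ℕ} {G : SimpleGraph V}
    (e : ∀ v, Fin (δ v) ≃ G.neighborSet v) : IsPM (Cfg_map e) := by
  intro x
  constructor
  · intro h
    have h1 : (Cfg_map e x).1 = x.1 := by rw [h]
    obtain ⟨v, i⟩ := x
    rw [Cfg_map_fst] at h1
    have h2 := (SimpleGraph.mem_neighborSet _ _ _).1 (e v i).2
    rw [h1] at h2
    exact h2.ne rfl
  · simp only [Cfg_map, Equiv.trans_apply, Equiv.apply_symm_apply]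
    change (Equiv.sigmaCongrRight e).symm ((Equiv.sigmaCongrRight e) x) = x
    rw [Equiv.symm_apply_apply]

private theorem Cfg_card_equiv {α : Type} [Finite α] {k : ℕ} (h : Nat.card α = k) :
    Nat.card (Fin k ≃ α) = k.factorial := by
  have e : α ≃ Fin k := Finite.equivFinOfCardEq h
  rw [Nat.card_congr (Equiv.equivCongr (Equiv.refl (Fin k)) e)]
  have h1 : Nat.card (Equiv.Perm (Fin k)) = (Nat.card (Fin k)).factorial := Nat.card_perm
  rw [Nat.card_fin] at h1
  exact h1

theorem deg_count {V : Type} [Fintype V] (δ : V → ℕ) :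
    (Nat.card {G : SimpleGraph V // ∀ v, Nat.card (G.neighborSet v) = δ v} : ℝ) *
      ∏ v, ((δ v).factorial : ℝ) ≤ MNum ((∑ v, δ v) / 2) := by
  classical
  by_cases hne : Nonempty {G : SimpleGraph V // ∀ v, Nat.card (G.neighborSet v) = δ v}
  · obtain ⟨G₀, hG₀⟩ := hne
    obtain ⟨m, hm⟩ := deg_even δ G₀ hG₀
    have hm2 : (∑ v, δ v) / 2 = m := by omega
    have hcard : Fintype.card (Σ v, Fin (δ v)) = 2 * m := by
      rw [Fintype.card_sigma]
      simp only [Fintype.card_fin]
      omega
    rw [hm2, ← L.card_PM hcard]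
    set 𝓖 := {G : SimpleGraph V // ∀ v, Nat.card (G.neighborSet v) = δ v} with h𝓖
    have hS : Nat.card (Σ G : 𝓖, ∀ v, Fin (δ v) ≃ G.1.neighborSet v) =
        Nat.card 𝓖 * ∏ v, (δ v).factorial := by
      haveI : Fintype 𝓖 := Fintype.ofFinite _
      rw [Nat.card_sigma]
      have h1 : ∀ G : 𝓖, Nat.card (∀ v, Fin (δ v) ≃ G.1.neighborSet v) =
          ∏ v, (δ v).factorial := by
        intro G
        rw [Nat.card_pi]
        exact Finset.prod_congr rfl fun v _ => Cfg_card_equiv (G.2 v)
      rw [Finset.sum_congr rfl fun G _ => h1 G, Finset.sum_const, Finset.card_univ, smul_eq_mul,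
        Nat.card_eq_fintype_card]
    have hinj : Function.Injective
        (fun x : (Σ G : 𝓖, ∀ v, Fin (δ v) ≃ G.1.neighborSet v) =>
          (⟨Cfg_map x.2, Cfg_map_pm x.2⟩ : PMT (Σ v, Fin (δ v)))) := by
      rintro ⟨⟨G, hG⟩, e⟩ ⟨⟨G', hG'⟩, e'⟩ h
      have h1 : Cfg_map e = Cfg_map e' := congrArg Subtype.val h
      have h2 : ∀ v i, (e v i).1 = (e' v i).1 := by
        intro v i
        rw [← Cfg_map_fst, ← Cfg_map_fst, h1]
      have h3 : G = G' := by
        ext v w
        constructor
        · intro hvw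
          have h4 := h2 v ((e v).symm ⟨w, hvw⟩)
          rw [Equiv.apply_symm_apply] at h4
          have h5 := (e' v ((e v).symm ⟨w, hvw⟩)).2
          rw [SimpleGraph.mem_neighborSet, ← h4] at h5
          exact h5
        · intro hvw
          have h4 := h2 v ((e' v).symm ⟨w, hvw⟩)
          rw [Equiv.apply_symm_apply] at h4
          have h5 := (e v ((e' v).symm ⟨w, hvw⟩)).2
          rw [SimpleGraph.mem_neighborSet, h4] at h5
          exact h5
      subst h3
      have h6 : e = e' := by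
        funext v
        ext i
        exact h2 v i
      rw [h6]
    have hle := Nat.card_le_card_of_injective _ hinj
    rw [hS] at hle
    exact_mod_cast hle
  · rw [not_nonempty_iff] at hne
    rw [Nat.card_of_isEmpty, Nat.cast_zero, zero_mul]
    exact (MNum_pos _).le

end MPbcd198.T
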