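import Pool.Agent.Lib.MP_bcd198_co.T.Base

/-!
# JOB T/CycE: the numerical estimates for the local lemma

`pr n d k = 1/∏_{i ≤ k} (dn - 1 - 2i)` (Base.lean). Let `d ≥ 1`, `g`, and `n ≥ n₀` with `n₀` so large that `dn - 1 - 2i ≥ dn/2 > 0` for all `i < g`, i.e.
`dn ≥ 4g + 2`. Then `0 ≤ pr n d k ≤ (2/(dn))^(k+1)` for `k < g` (`Finset.prod_le_prod`), which is `≤ 1/4` (the base is `≤ 1/4` if `dn ≥ 8`).
Number of indices `c = ⟨k, (v, out, in)⟩` with given `k`: at most `n^(k+1) d^(2(k+1))` (forget the conditions, `Fintype.card_fun`).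
* `sum_pr`: `∑_c pr ≤ ∑_{k<g} n^(k+1) d^(2(k+1)) (2/(dn))^(k+1) = ∑_{k<g} (2d)^(k+1) =: lam` (`Fintype.sum_sigma`, `Finset.sum_const`).
* `sum_conf`: fix `c`. The number of `c'` with given `k'` having a vertex in common with `c` (`∃ i j, c.v i = c'.v j`) is at most
  `(k+1)(k'+1) n^(k') d^(2(k'+1)) ≤ g² n^(k') d^(2(k'+1))`: choose `i`, `j`, then `c'.v j` is determined, the other `k'` vertices are arbitrary (inject
  into `Fin (k+1) × Fin (k'+1) × (the functions v' with v' j = given)`, or bound the card of the union over `i, j` of `{v' : v' j = v i}`, each of which has `n^(k')`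
  elements; it is enough to have `≤ n^(k')`: e.g. `v' ↦ v' ∘ j.succAbove` is injective on this set). So the sum is
  `≤ ∑_{k'<g} g² n^(k') d^(2(k'+1)) (2/(dn))^(k'+1) = (1/n) g² ∑_{k'<g} (2d)^(k'+1) ≤ 1/4` for `n ≥ 4 g² lam`.
-/

set_option autoImplicit false

namespace MPbcd198.T

/-- the cycles with `m + 1` vertices -/
private abbrev CycE_T (n d m : ℕ) : Type :=
  {t : (Fin (m + 1) → Fin n) × (Fin (m + 1) → Fin d) × (Fin (m + 1) → Fin d) //
    Function.Injective t.1 ∧ ∀ i, t.2.1 i ≠ t.2.2 i}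

private theorem CycE_pr {n d g k : ℕ} (hk : k < g) (hn : 4 * g + 2 ≤ d * n) :
    0 < pr n d k ∧ pr n d k ≤ (2 / ((d : ℝ) * n)) ^ (k + 1) := by
  have hn' : (4 * g + 2 : ℝ) ≤ (d : ℝ) * n := by exact_mod_cast hn
  have hg0 : (0 : ℝ) ≤ g := Nat.cast_nonneg g
  have hdn : (0 : ℝ) < (d : ℝ) * n := by linarith
  have hfac : ∀ i ∈ Finset.range (k + 1), (d : ℝ) * n / 2 ≤ (d * n : ℝ) - 1 - 2 * i := by
    intro i hi
    have h1 : i + 1 ≤ g := by
      have := Finset.mem_range.1 hi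
      omega
    have h2 : (i : ℝ) + 1 ≤ g := by exact_mod_cast h1
    linarith
  have hprod : ((d : ℝ) * n / 2) ^ (k + 1) ≤
      ∏ i ∈ Finset.range (k + 1), ((d * n : ℝ) - 1 - 2 * i) := by
    have h1 := Finset.prod_le_prod (s := Finset.range (k + 1)) (f := fun _ => (d : ℝ) * n / 2)
      (g := fun i : ℕ => (d * n : ℝ) - 1 - 2 * i) (fun i _ => by positivity) hfac
    rw [Finset.prod_const, Finset.card_range] at h1
    exact h1
  have hpos : (0 : ℝ) < ((d : ℝ) * n / 2) ^ (k + 1) := by positivity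
  have hppos : (0 : ℝ) < ∏ i ∈ Finset.range (k + 1), ((d * n : ℝ) - 1 - 2 * i) :=
    lt_of_lt_of_le hpos hprod
  refine ⟨inv_pos.2 hppos, ?_⟩
  calc pr n d k ≤ (((d : ℝ) * n / 2) ^ (k + 1))⁻¹ := inv_anti₀ hpos hprod
    _ = (2 / ((d : ℝ) * n)) ^ (k + 1) := by
        rw [← inv_pow, inv_div]

theorem pr_bounds (d g : ℕ) (hd : 1 ≤ d) : ∃ n₀ : ℕ, ∀ n : ℕ, n₀ ≤ n → ∀ k < g,
    0 < pr n d k ∧ pr n d k ≤ 1 / 4 ∧ 2 * g + 2 ≤ d * n := by
  refine ⟨4 * g + 8, fun n hn k hk => ?_⟩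
  have h1 : n ≤ d * n := Nat.le_mul_of_pos_left n hd
  have h2 : 4 * g + 8 ≤ d * n := hn.trans h1
  obtain ⟨h3, h4⟩ := CycE_pr (n := n) (d := d) hk (by omega)
  refine ⟨h3, ?_, by omega⟩
  have h5 : (8 : ℝ) ≤ (d : ℝ) * n := by
    have : 8 ≤ d * n := by omega
    exact_mod_cast this
  have h6 : 2 / ((d : ℝ) * n) ≤ 1 / 4 := by
    rw [div_le_div_iff₀ (by linarith) (by norm_num)]
    linarith
  have h7 : 0 ≤ 2 / ((d : ℝ) * n) := by positivity
  calc pr n d k ≤ (2 / ((d : ℝ) * n)) ^ (k + 1) := h4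
    _ ≤ (1 / 4 : ℝ) ^ (k + 1) := pow_le_pow_left₀ h7 h6 _
    _ ≤ (1 / 4 : ℝ) ^ 1 := pow_le_pow_of_le_one (by norm_num) (by norm_num) (by omega)
    _ = 1 / 4 := pow_one _

private theorem CycE_card (n d m : ℕ) :
    Fintype.card (CycE_T n d m) ≤ n ^ (m + 1) * (d ^ (m + 1) * d ^ (m + 1)) := by
  refine (Fintype.card_subtype_le _).trans (le_of_eq ?_)
  simp only [Fintype.card_prod, Fintype.card_fun, Fintype.card_fin]

private theorem CycE_val {n d m : ℕ} (hn : 0 < n) (hd : 0 < d) :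
    ((n : ℝ) ^ (m + 1) * ((d : ℝ) ^ (m + 1) * (d : ℝ) ^ (m + 1))) *
      (2 / ((d : ℝ) * n)) ^ (m + 1) = (2 * (d : ℝ)) ^ (m + 1) := by
  have hn' : (n : ℝ) ≠ 0 := by positivity
  have hd' : (d : ℝ) ≠ 0 := by positivity
  rw [← mul_pow, ← mul_pow, ← mul_pow]
  congr 1
  field_simp

private theorem CycE_val' {n d m : ℕ} (hn : 0 < n) (hd : 0 < d) :
    ((n : ℝ) ^ m * ((d : ℝ) ^ (m + 1) * (d : ℝ) ^ (m + 1))) *
      (2 / ((d : ℝ) * n)) ^ (m + 1) = (2 * (d : ℝ)) ^ (m + 1) / n := by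
  have hn' : (n : ℝ) ≠ 0 := by positivity
  rw [← CycE_val (n := n) (d := d) (m := m) hn hd, pow_succ (n : ℝ) m]
  field_simp

theorem sum_pr (d g : ℕ) (hd : 1 ≤ d) : ∃ lam : ℝ, ∃ n₀ : ℕ, ∀ n : ℕ, n₀ ≤ n →
    ∑ c : CIdx n d g, pr n d c.1.val ≤ lam := by
  refine ⟨∑ k : Fin g, (2 * (d : ℝ)) ^ (k.val + 1), 4 * g + 8, fun n hn => ?_⟩
  have h1 : n ≤ d * n := Nat.le_mul_of_pos_left n hd
  have hn0 : 0 < n := by omega
  rw [Fintype.sum_sigma]
  refine Finset.sum_le_sum fun k _ => ?_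
  obtain ⟨h3, h4⟩ := CycE_pr (n := n) (d := d) k.2 (by omega)
  have h5 : ∑ _t : CycE_T n d k.val, pr n d k.val =
      (Fintype.card (CycE_T n d k.val) : ℝ) * pr n d k.val := by
    rw [Finset.sum_const, Finset.card_univ, nsmul_eq_mul]
  refine (le_of_eq h5).trans ?_
  have h6 : (Fintype.card (CycE_T n d k.val) : ℝ) ≤
      (n : ℝ) ^ (k.val + 1) * ((d : ℝ) ^ (k.val + 1) * (d : ℝ) ^ (k.val + 1)) := by
    exact_mod_cast CycE_card n d k.val
  calc (Fintype.card (CycE_T n d k.val) : ℝ) * pr n d k.val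
      ≤ ((n : ℝ) ^ (k.val + 1) * ((d : ℝ) ^ (k.val + 1) * (d : ℝ) ^ (k.val + 1))) *
        (2 / ((d : ℝ) * n)) ^ (k.val + 1) :=
        mul_le_mul h6 h4 h3.le (by positivity)
    _ = (2 * (d : ℝ)) ^ (k.val + 1) := CycE_val hn0 hd

open Classical in
private theorem CycE_one {n d m : ℕ} (a : Fin n) (j : Fin (m + 1)) :
    (Finset.univ.filter fun t : CycE_T n d m => a = t.1.1 j).card ≤
      n ^ m * (d ^ (m + 1) * d ^ (m + 1)) := by
  have h1 : (Finset.univ : Finset ((Fin m → Fin n) × (Fin (m + 1) → Fin d) ×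
      (Fin (m + 1) → Fin d))).card = n ^ m * (d ^ (m + 1) * d ^ (m + 1)) := by
    rw [Finset.card_univ]
    simp only [Fintype.card_prod, Fintype.card_fun, Fintype.card_fin]
  rw [← h1]
  refine Finset.card_le_card_of_injOn
    (fun t : CycE_T n d m => (t.1.1 ∘ j.succAbove, t.1.2.1, t.1.2.2))
    (fun t _ => Finset.mem_coe.2 (Finset.mem_univ _)) ?_
  intro t ht t' ht' htt
  rw [Finset.mem_coe, Finset.mem_filter] at ht ht'
  simp only [Prod.mk.injEq] at htt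
  obtain ⟨e1, e2, e3⟩ := htt
  apply Subtype.ext
  refine Prod.ext ?_ (Prod.ext e2 e3)
  funext x
  by_cases hx : x = j
  · rw [hx, ← ht.2, ← ht'.2]
  · obtain ⟨y, hy⟩ := Fin.exists_succAbove_eq hx
    rw [← hy]
    exact congrFun e1 y

open Classical in
private theorem CycE_conf {n d m k : ℕ} (v : Fin (k + 1) → Fin n) :
    (Finset.univ.filter fun t : CycE_T n d m => ∃ i j, v i = t.1.1 j).card ≤
      (k + 1) * ((m + 1) * (n ^ m * (d ^ (m + 1) * d ^ (m + 1)))) := by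
  have hsub : (Finset.univ.filter fun t : CycE_T n d m => ∃ i j, v i = t.1.1 j) ⊆
      (Finset.univ : Finset (Fin (k + 1))).biUnion fun i =>
        (Finset.univ : Finset (Fin (m + 1))).biUnion fun j =>
          Finset.univ.filter fun t : CycE_T n d m => v i = t.1.1 j := by
    intro t ht
    obtain ⟨i, j, hij⟩ := (Finset.mem_filter.1 ht).2
    rw [Finset.mem_biUnion]
    refine ⟨i, Finset.mem_univ _, ?_⟩
    rw [Finset.mem_biUnion]
    exact ⟨j, Finset.mem_univ _, Finset.mem_filter.2 ⟨Finset.mem_univ _, hij⟩⟩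
  refine (Finset.card_le_card hsub).trans ?_
  have hk : (Finset.univ : Finset (Fin (k + 1))).card = k + 1 := by
    rw [Finset.card_univ, Fintype.card_fin]
  have hm : (Finset.univ : Finset (Fin (m + 1))).card = m + 1 := by
    rw [Finset.card_univ, Fintype.card_fin]
  calc _ ≤ (Finset.univ : Finset (Fin (k + 1))).card *
        ((Finset.univ : Finset (Fin (m + 1))).card * (n ^ m * (d ^ (m + 1) * d ^ (m + 1)))) := by
        refine Finset.card_biUnion_le_card_mul _ _ _ fun i _ => ?_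
        exact Finset.card_biUnion_le_card_mul _ _ _ fun j _ => CycE_one (v i) j
    _ = _ := by rw [hk, hm]

open Classical in
theorem sum_conf (d g : ℕ) (hd : 1 ≤ d) : ∃ n₀ : ℕ, ∀ n : ℕ, n₀ ≤ n → ∀ c : CIdx n d g,
    ∑ c' ∈ Finset.univ.filter (fun c' : CIdx n d g => ∃ i j, c.2.1.1 i = c'.2.1.1 j),
      pr n d c'.1.val ≤ 1 / 4 := by
  set L : ℕ := ∑ k : Fin g, (2 * d) ^ (k.val + 1) with hL
  refine ⟨4 * g + 8 + 4 * (g * g * L), fun n hn c => ?_⟩
  have h1 : n ≤ d * n := Nat.le_mul_of_pos_left n hd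
  have hn0 : 0 < n := by omega
  have hn0' : (0 : ℝ) < n := by exact_mod_cast hn0
  rw [Finset.sum_filter, Fintype.sum_sigma]
  have hterm : ∀ m : Fin g,
      ∑ t : CycE_T n d m.val, (if ∃ i j, c.2.1.1 i = t.1.1 j then pr n d m.val else 0) ≤
        (g : ℝ) * g * ((2 * (d : ℝ)) ^ (m.val + 1) / n) := by
    intro m
    obtain ⟨h3, h4⟩ := CycE_pr (n := n) (d := d) m.2 (by omega)
    rw [← Finset.sum_filter, Finset.sum_const, nsmul_eq_mul]
    have h5 := CycE_conf (d := d) (m := m.val) c.2.1.1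
    have h6 : (c.1.val + 1) * ((m.val + 1) * (n ^ m.val * (d ^ (m.val + 1) * d ^ (m.val + 1)))) ≤
        g * g * (n ^ m.val * (d ^ (m.val + 1) * d ^ (m.val + 1))) := by
      rw [← mul_assoc]
      exact Nat.mul_le_mul_right _ (Nat.mul_le_mul c.1.2 m.2)
    have h7 : ((Finset.univ.filter fun t : CycE_T n d m.val =>
        ∃ i j, c.2.1.1 i = t.1.1 j).card : ℝ) ≤
        (g : ℝ) * g * ((n : ℝ) ^ m.val * ((d : ℝ) ^ (m.val + 1) * (d : ℝ) ^ (m.val + 1))) := by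
      exact_mod_cast h5.trans h6
    calc _ ≤ ((g : ℝ) * g * ((n : ℝ) ^ m.val * ((d : ℝ) ^ (m.val + 1) * (d : ℝ) ^ (m.val + 1)))) *
          (2 / ((d : ℝ) * n)) ^ (m.val + 1) := mul_le_mul h7 h4 h3.le (by positivity)
      _ = (g : ℝ) * g * ((2 * (d : ℝ)) ^ (m.val + 1) / n) := by
          rw [← CycE_val' (n := n) (d := d) (m := m.val) hn0 hd]
          ring
  refine (Finset.sum_le_sum fun m _ => hterm m).trans ?_
  rw [← Finset.mul_sum, ← Finset.sum_div]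
  have hLr : (L : ℝ) = ∑ k : Fin g, (2 * (d : ℝ)) ^ (k.val + 1) := by
    rw [hL]
    push_cast
    rfl
  rw [← hLr, ← mul_div_assoc, div_le_div_iff₀ hn0' (by norm_num)]
  have h8 : 4 * (g * g * L) ≤ n := by omega
  have h9 : (4 * (g * g * L) : ℝ) ≤ n := by exact_mod_cast h8
  linarith

end MPbcd198.T
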