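import Pool.Agent.Lib.MP_bcd198_co.T.Base

/-!
# JOB T/Neg: negative dependence for perfect matchings (Lu-Szekely)

For a partial matching `M` (list of pairs, all points distinct) and a set `J` of partial matchings, let
`N(M) := |{a : IsPM a, Ext M a, no M' ∈ J with Ext M' a}|`. All `M' ∈ J` have no conflict with `M`.
* Step (`neg_step`): for `e = (x, y)` and `M = e :: M₀`, all points distinct, every `M' ∈ J` without conflict with `e`:
  `N(e :: M₀) (|Ω| - 1 - 2|M₀|) ≤ N(M₀)`.
  Proof: let `Z` be the set of the points `z ∉ pts M₀`, `z ≠ x`; `|Z| = |Ω| - 1 - 2|M₀|` (`pts` has length `2|M₀|`, no duplicates). For `z ∈ Z` let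
  `τ = swap y z` and `a ↦ a' = τ * a * τ` (`τ⁻¹ = τ`); this is injective, and it maps a matching `a` counted in `N(e :: M₀)` to a perfect matching `a'` with
  `a' x = z` (`a' x = τ (a (τ x)) = τ (a x) = τ y = z` as `x ≠ y`, `x ≠ z`), `Ext M₀ a'` (the points of `M₀` are different from `y`, `z`), and avoiding `J`:
  suppose `M' ∈ J`, `Ext M' a'`. If `z = y`, `a' = a`: contradiction. Let `z ≠ y`, and let `e' ∈ M'`. `e' = e` would give `a' x = y ≠ z`;
  `e' = e.swap` would give `a' y = x`, so `a' x = y` (`a'` is an involution), contradiction. So by `NoConf` the points of `e'` are different from `x`, `y`.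
  They are also different from `z`: `e'.1 = z` gives `e'.2 = a' z = x`, `e'.2 = z` gives `e'.1 = a' (e'.2) = a' z = x` (`a' (a' e'.1) = e'.1`),
  contradictions. So `τ` fixes `e'.1` and `e'.2` and `a e'.1 = τ (a' (τ e'.1)) = τ (a' e'.1) = τ e'.2 = e'.2`. Hence `Ext M' a`, contradiction.
  The images for different `z ∈ Z` are disjoint (`a' x = z`) and are contained in the set counted by `N(M₀)`. So `|Z| N(e :: M₀) ≤ N(M₀)`
  (e.g. an injection `Z × {a} → {a'}`, `Nat.card_le_card_of_injective`).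
* `neg_dep`: induction on `M`: `∏_{i < |M₀|+1} (|Ω| - 1 - 2i) = (∏_{i < |M₀|}) (|Ω| - 1 - 2|M₀|)` (`Finset.prod_range_succ`), and `NoConf (e :: M₀) M'` gives `NoConf M₀ M'`.
  For `M = []`: equality, `Ext [] a` is true.
-/

set_option autoImplicit false

namespace MPbcd198.T

open Equiv

private lemma neg_pts_cons {Ω : Type} {x y : Ω} {M : List (Ω × Ω)}
    (hM : (pts ((x, y) :: M)).Nodup) :
    (pts M).Nodup ∧ x ∉ pts M ∧ y ∉ pts M ∧ x ≠ y := by
  unfold pts at hM ⊢
  simp only [List.map_cons, List.cons_append, List.nodup_cons, List.mem_append, List.mem_cons,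
    List.nodup_append, not_or] at hM ⊢
  obtain ⟨⟨h1, h2, h3⟩, h4, ⟨h5, h6⟩, h7⟩ := hM
  refine ⟨⟨h4, h6, fun a ha b hb => h7 a ha b (Or.inr hb)⟩, ⟨h1, h3⟩, ⟨?_, h5⟩, h2⟩
  intro hy
  exact h7 y hy y (Or.inl rfl) rfl

private lemma neg_pts_length {Ω : Type} (M : List (Ω × Ω)) : (pts M).length = 2 * M.length := by
  unfold pts
  simp only [List.length_append, List.length_map]
  ring

private lemma neg_mem_pts {Ω : Type} {M : List (Ω × Ω)} {e : Ω × Ω} (he : e ∈ M) :
    e.1 ∈ pts M ∧ e.2 ∈ pts M := by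
  unfold pts
  exact ⟨List.mem_append.2 (Or.inl (List.mem_map.2 ⟨e, he, rfl⟩)),
    List.mem_append.2 (Or.inr (List.mem_map.2 ⟨e, he, rfl⟩))⟩

open Classical in
private lemma neg_conj_pm {Ω : Type} {a : Perm Ω} (ha : IsPM a) (y z : Ω) :
    IsPM (swap y z * a * swap y z) := by
  intro w
  have h := ha (swap y z w)
  constructor
  · intro h'
    apply h.1
    have h2 : swap y z ((swap y z * a * swap y z) w) = swap y z w := by rw [h']
    simpa [Perm.mul_apply] using h2
  · simp only [Perm.mul_apply, swap_apply_self]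
    rw [h.2, swap_apply_self]

open Classical in
private lemma neg_conj_avoid {Ω : Type} {a : Perm Ω} (ha : IsPM a) {x y z : Ω} (hxy : x ≠ y)
    (hxz : x ≠ z) (hax : a x = y) {M' : List (Ω × Ω)}
    (hc : ∀ e' ∈ M', e' = (x, y) ∨ e' = (y, x) ∨
      (x ≠ e'.1 ∧ x ≠ e'.2 ∧ y ≠ e'.1 ∧ y ≠ e'.2))
    (hE : Ext M' (swap y z * a * swap y z)) : Ext M' a := by
  have hpm := neg_conj_pm ha y z
  have hx : (swap y z * a * swap y z) x = z := by
    simp only [Perm.mul_apply]
    rw [swap_apply_of_ne_of_ne hxy hxz, hax, swap_apply_left]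
  by_cases hzy : z = y
  · subst hzy
    intro e he
    have := hE e he
    simpa using this
  intro e' he'
  have hE' := hE e' he'
  have hz : (swap y z * a * swap y z) z = x := by
    have := (hpm x).2
    rw [hx] at this
    exact this
  rcases hc e' he' with h | h | h
  · exfalso
    rw [h] at hE'
    simp only at hE'
    rw [hx] at hE'
    exact hzy hE'
  · exfalso
    rw [h] at hE'
    simp only at hE'
    have h2 := (hpm y).2
    rw [hE', hx] at h2
    exact hzy h2
  · obtain ⟨h1, h2, h3, h4⟩ := h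
    have h5 : e'.1 ≠ z := by
      intro h6
      rw [h6, hz] at hE'
      exact h2 hE'
    have h6 : e'.2 ≠ z := by
      intro h7
      have h8 := (hpm e'.1).2
      rw [hE', h7, hz] at h8
      exact h1 h8
    have h7 : swap y z (a e'.1) = e'.2 := by
      have h8 := hE'
      simp only [Perm.mul_apply] at h8
      rw [swap_apply_of_ne_of_ne (Ne.symm h3) h5] at h8
      exact h8
    have h8 : a e'.1 = swap y z e'.2 := by
      rw [← h7, swap_apply_self]
    rw [h8, swap_apply_of_ne_of_ne (Ne.symm h4) h6]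

open Classical in
private lemma neg_step {Ω : Type} [Fintype Ω] (x y : Ω) (M : List (Ω × Ω))
    (hM : (pts ((x, y) :: M)).Nodup)
    (J : Set (List (Ω × Ω))) (hJ : ∀ M' ∈ J, NoConf ((x, y) :: M) M') :
    Nat.card {a : Perm Ω // IsPM a ∧ Ext ((x, y) :: M) a ∧ ∀ M' ∈ J, ¬ Ext M' a} *
        (Fintype.card Ω - 1 - 2 * M.length) ≤
      Nat.card {a : Perm Ω // IsPM a ∧ Ext M a ∧ ∀ M' ∈ J, ¬ Ext M' a} := by
  obtain ⟨hnd, hxM, hyM, hxy⟩ := neg_pts_cons hM
  set Z : Finset Ω := (insert x (pts M).toFinset)ᶜ with hZ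
  have hcard : Z.card = Fintype.card Ω - 1 - 2 * M.length := by
    rw [hZ, Finset.card_compl, Finset.card_insert_of_notMem (by simpa using hxM),
      List.toFinset_card_of_nodup hnd, neg_pts_length]
    omega
  have hZmem : ∀ z ∈ Z, z ≠ x ∧ z ∉ pts M := by
    intro z hz
    rw [hZ, Finset.mem_compl, Finset.mem_insert, List.mem_toFinset, not_or] at hz
    exact hz
  rw [← hcard]
  have h1 : Nat.card {a : Perm Ω // IsPM a ∧ Ext ((x, y) :: M) a ∧ ∀ M' ∈ J, ¬ Ext M' a} * Z.card =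
      Nat.card ({a : Perm Ω // IsPM a ∧ Ext ((x, y) :: M) a ∧ ∀ M' ∈ J, ¬ Ext M' a} × Z) := by
    rw [Nat.card_prod]
    congr 1
    simp
  rw [h1]
  have hprop : ∀ (a : Perm Ω), (IsPM a ∧ Ext ((x, y) :: M) a ∧ ∀ M' ∈ J, ¬ Ext M' a) →
      ∀ z ∈ Z, IsPM (swap y z * a * swap y z) ∧ Ext M (swap y z * a * swap y z) ∧
        ∀ M' ∈ J, ¬ Ext M' (swap y z * a * swap y z) := by
    rintro a ⟨hpm, hext, hav⟩ z hz
    obtain ⟨hzx, hzM⟩ := hZmem z hz
    refine ⟨neg_conj_pm hpm y z, ?_, ?_⟩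
    · intro e he
      obtain ⟨h1, h2⟩ := neg_mem_pts he
      have h3 : e.1 ≠ y := fun h => hyM (h ▸ h1)
      have h4 : e.1 ≠ z := fun h => hzM (h ▸ h1)
      have h5 : e.2 ≠ y := fun h => hyM (h ▸ h2)
      have h6 : e.2 ≠ z := fun h => hzM (h ▸ h2)
      simp only [Perm.mul_apply]
      rw [swap_apply_of_ne_of_ne h3 h4, hext e (List.mem_cons_of_mem _ he),
        swap_apply_of_ne_of_ne h5 h6]
    · intro M' hM' hE
      refine hav M' hM' (neg_conj_avoid hpm hxy hzx.symm (hext (x, y) (List.mem_cons_self ..)) ?_ hE)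
      intro e' he'
      exact hJ M' hM' (x, y) (List.mem_cons_self ..) e' he'
  have hval : ∀ (a : Perm Ω), (IsPM a ∧ Ext ((x, y) :: M) a ∧ ∀ M' ∈ J, ¬ Ext M' a) →
      ∀ z ∈ Z, (swap y z * a * swap y z) x = z := by
    rintro a ⟨hpm, hext, hav⟩ z hz
    obtain ⟨hzx, hzM⟩ := hZmem z hz
    simp only [Perm.mul_apply]
    have h2 : a x = y := hext (x, y) (List.mem_cons_self ..)
    rw [swap_apply_of_ne_of_ne hxy hzx.symm, h2, swap_apply_left]
  let f : {a : Perm Ω // IsPM a ∧ Ext ((x, y) :: M) a ∧ ∀ M' ∈ J, ¬ Ext M' a} × Z →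
      {a : Perm Ω // IsPM a ∧ Ext M a ∧ ∀ M' ∈ J, ¬ Ext M' a} :=
    fun p => ⟨swap y p.2.1 * p.1.1 * swap y p.2.1, hprop p.1.1 p.1.2 p.2.1 p.2.2⟩
  refine Nat.card_le_card_of_injective f ?_
  rintro ⟨⟨a, ha⟩, ⟨z, hz⟩⟩ ⟨⟨b, hb⟩, ⟨w, hw⟩⟩ h
  have h2 : swap y z * a * swap y z = swap y w * b * swap y w := congrArg Subtype.val h
  have h3 : z = w := by
    have h4 := hval a ha z hz
    rw [h2, hval b hb w hw] at h4
    exact h4.symm
  subst h3
  have h4 : a = b := by
    have h5 : swap y z * (swap y z * a * swap y z) * swap y z =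
        swap y z * (swap y z * b * swap y z) * swap y z := by rw [h2]
    simpa [mul_assoc] using h5
  subst h4
  rfl

theorem neg_dep {Ω : Type} [Fintype Ω] (M : List (Ω × Ω)) (hM : (pts M).Nodup)
    (J : Set (List (Ω × Ω))) (hJ : ∀ M' ∈ J, NoConf M M') :
    Nat.card {a : Perm Ω // IsPM a ∧ Ext M a ∧ ∀ M' ∈ J, ¬ Ext M' a} *
        ∏ i ∈ Finset.range M.length, (Fintype.card Ω - 1 - 2 * i) ≤
      Nat.card {a : Perm Ω // IsPM a ∧ ∀ M' ∈ J, ¬ Ext M' a} := by
  classical
  induction M with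
  | nil =>
    simp only [List.length_nil, Finset.range_zero, Finset.prod_empty, mul_one]
    apply le_of_eq
    apply Nat.card_congr
    apply Equiv.subtypeEquivRight
    intro a
    constructor
    · rintro ⟨h1, -, h3⟩
      exact ⟨h1, h3⟩
    · rintro ⟨h1, h3⟩
      exact ⟨h1, fun e he => absurd he (List.not_mem_nil), h3⟩
  | cons e M ih =>
    obtain ⟨x, y⟩ := e
    have h1 := neg_step x y M hM J hJ
    have h2 := ih (neg_pts_cons hM).1
      (fun M' hM' e he e' he' => hJ M' hM' e (List.mem_cons_of_mem _ he) e' he')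
    rw [List.length_cons, Finset.prod_range_succ]
    calc _ = (Nat.card {a : Perm Ω // IsPM a ∧ Ext ((x, y) :: M) a ∧ ∀ M' ∈ J, ¬ Ext M' a} *
        (Fintype.card Ω - 1 - 2 * M.length)) *
        ∏ i ∈ Finset.range M.length, (Fintype.card Ω - 1 - 2 * i) := by ring
      _ ≤ _ := (Nat.mul_le_mul_right _ h1).trans h2

end MPbcd198.T
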