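import Pool.Agent.Lib.MP_bcd198_co.T.LLL
import Pool.Agent.Lib.MP_bcd198_co.T.Neg
import Pool.Agent.Lib.MP_bcd198_co.T.CycE
import Pool.Agent.Lib.MP_bcd198_co.L.CntB

/-!
# JOB T/CycL: a positive proportion of the matchings of the darts contains no short cycle
-/

set_option autoImplicit false

namespace MPbcd198.T

open Equiv

section

variable {n d g : ℕ}

/-- the edges of a short cycle -/
private def lst (c : CIdx n d g) : List ((Fin n × Fin d) × (Fin n × Fin d)) :=
  List.ofFn fun j : Fin (c.1.val + 1) =>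
    ((c.2.1.1 j, c.2.1.2.1 j), (c.2.1.1 (j + 1), c.2.1.2.2 (j + 1)))

private theorem ext_lst (c : CIdx n d g) (a : Perm (Fin n × Fin d)) :
    Ext (lst c) a ↔ HasCyc c a := by
  constructor
  · intro h j
    exact h ((c.2.1.1 j, c.2.1.2.1 j), (c.2.1.1 (j + 1), c.2.1.2.2 (j + 1)))
      (List.mem_ofFn.2 ⟨j, rfl⟩)
  · intro h e he
    obtain ⟨j, rfl⟩ := List.mem_ofFn.1 he
    exact h j

private theorem length_lst (c : CIdx n d g) : (lst c).length = c.1.val + 1 := by
  simp [lst]

private theorem nodup_lst (c : CIdx n d g) : (pts (lst c)).Nodup := by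
  have hv := c.2.2.1
  have hio := c.2.2.2
  rw [pts, lst, List.map_ofFn, List.map_ofFn, List.nodup_append]
  refine ⟨?_, ?_, ?_⟩
  · rw [List.nodup_ofFn]
    intro i j h
    exact hv (congrArg Prod.fst h)
  · rw [List.nodup_ofFn]
    intro i j h
    have h1 : i + 1 = j + 1 := hv (congrArg Prod.fst h)
    exact add_right_cancel h1
  · intro x hx y hy hxy
    obtain ⟨i, rfl⟩ := List.mem_ofFn.1 hx
    obtain ⟨j, rfl⟩ := List.mem_ofFn.1 hy
    have h1 : i = j + 1 := hv (congrArg Prod.fst hxy)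
    have h2 : c.2.1.2.1 i = c.2.1.2.2 (j + 1) := congrArg Prod.snd hxy
    rw [← h1] at h2
    exact hio i h2

private theorem noConf_lst (c c' : CIdx n d g) (h : ¬ ∃ i j, c.2.1.1 i = c'.2.1.1 j) :
    NoConf (lst c) (lst c') := by
  intro e he e' he'
  obtain ⟨i, rfl⟩ := List.mem_ofFn.1 he
  obtain ⟨j, rfl⟩ := List.mem_ofFn.1 he'
  right
  right
  refine ⟨?_, ?_, ?_, ?_⟩
  · intro hh
    exact h ⟨i, j, congrArg Prod.fst hh⟩
  · intro hh
    exact h ⟨i, j + 1, congrArg Prod.fst hh⟩
  · intro hh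
    exact h ⟨i + 1, j, congrArg Prod.fst hh⟩
  · intro hh
    exact h ⟨i + 1, j + 1, congrArg Prod.fst hh⟩

open Classical in
private theorem card_filter_sub {X : Type} [Fintype X] (Q : Perm X → Prop) :
    (Finset.univ.filter fun a : {a : Perm X // IsPM a} => Q a.1).card =
      Nat.card {a : Perm X // IsPM a ∧ Q a} := by
  rw [← Fintype.card_subtype, ← Nat.card_eq_fintype_card]
  exact Nat.card_congr (Equiv.subtypeSubtypeEquivSubtypeInter IsPM Q)

end

theorem few_short (d g : ℕ) (hd : 1 ≤ d) : ∃ δ : ℝ, 0 < δ ∧ ∃ n₀ : ℕ, ∀ n : ℕ, n₀ ≤ n →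
    Even (d * n) → δ * MNum (d * n / 2) ≤
      (Nat.card {a : Perm (Fin n × Fin d) // IsPM a ∧ ∀ c : CIdx n d g, ¬ HasCyc c a} : ℝ) := by
  classical
  obtain ⟨n₁, h₁⟩ := pr_bounds d g hd
  obtain ⟨lam, n₂, h₂⟩ := sum_pr d g hd
  obtain ⟨n₃, h₃⟩ := sum_conf d g hd
  refine ⟨(1 / 16 : ℝ) ^ lam, Real.rpow_pos_of_pos (by norm_num) _, n₁ + n₂ + n₃,
    fun n hn hev => ?_⟩
  have b1 := h₁ n (by omega)
  have b2 := h₂ n (by omega)
  have b3 := h₃ n (by omega)
  have key := lll (Ω := {a : Perm (Fin n × Fin d) // IsPM a}) (I := CIdx n d g)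
    (fun c => Finset.univ.filter fun a => HasCyc c a.1)
    (fun c => Finset.univ.filter fun c' : CIdx n d g => ∃ i j, c.2.1.1 i = c'.2.1.1 j)
    (fun c => pr n d c.1.val) (fun c => (b1 c.1.val c.1.2).1.le) ?_ ?_
    (fun c => (b1 c.1.val c.1.2).2.1) lam b2
  · -- conclusion
    have e1 : (Fintype.card {a : Perm (Fin n × Fin d) // IsPM a} : ℝ) = MNum (d * n / 2) := by
      rw [← Nat.card_eq_fintype_card]
      refine L.card_PM ?_
      rw [Fintype.card_prod, Fintype.card_fin, Fintype.card_fin]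
      obtain ⟨m, hm⟩ := hev
      rw [mul_comm n d, hm]
      omega
    rw [e1] at key
    refine key.trans (le_of_eq ?_)
    rw [← card_filter_sub (X := Fin n × Fin d) fun a => ∀ c : CIdx n d g, ¬ HasCyc c a]
    congr 2
    ext a
    simp
  · -- negative dependence
    intro c J hJ
    have hk := c.1.2
    have hb := b1 c.1.val hk
    have e1 : (((Finset.univ.filter fun a : {a : Perm (Fin n × Fin d) // IsPM a} =>
        HasCyc c a.1).filter fun ω => ∀ j ∈ J, ω ∉ Finset.univ.filter fun a :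
          {a : Perm (Fin n × Fin d) // IsPM a} => HasCyc j a.1).card) =
        Nat.card {a : Perm (Fin n × Fin d) // IsPM a ∧ Ext (lst c) a ∧
          ∀ M' ∈ {M : List ((Fin n × Fin d) × (Fin n × Fin d)) | ∃ j ∈ J, M = lst j},
            ¬ Ext M' a} := by
      rw [← card_filter_sub (X := Fin n × Fin d) fun a => Ext (lst c) a ∧
          ∀ M' ∈ {M : List ((Fin n × Fin d) × (Fin n × Fin d)) | ∃ j ∈ J, M = lst j},
            ¬ Ext M' a]
      congr 1
      ext a
      simp only [Finset.mem_filter, Finset.mem_univ, true_and, Set.mem_ofPred_eq, ext_lst]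
      constructor
      · rintro ⟨h1, h2⟩
        refine ⟨h1, ?_⟩
        rintro M' ⟨j, hj, rfl⟩
        rw [ext_lst]
        exact h2 j hj
      · rintro ⟨h1, h2⟩
        refine ⟨h1, fun j hj => ?_⟩
        rw [← ext_lst]
        exact h2 _ ⟨j, hj, rfl⟩
    have e2 : ((Finset.univ.filter fun ω : {a : Perm (Fin n × Fin d) // IsPM a} =>
        ∀ j ∈ J, ω ∉ Finset.univ.filter fun a :
          {a : Perm (Fin n × Fin d) // IsPM a} => HasCyc j a.1).card) =
        Nat.card {a : Perm (Fin n × Fin d) // IsPM a ∧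
          ∀ M' ∈ {M : List ((Fin n × Fin d) × (Fin n × Fin d)) | ∃ j ∈ J, M = lst j},
            ¬ Ext M' a} := by
      rw [← card_filter_sub (X := Fin n × Fin d) fun a =>
          ∀ M' ∈ {M : List ((Fin n × Fin d) × (Fin n × Fin d)) | ∃ j ∈ J, M = lst j},
            ¬ Ext M' a]
      congr 1
      ext a
      simp only [Finset.mem_filter, Finset.mem_univ, true_and, Set.mem_ofPred_eq]
      constructor
      · rintro h2 M' ⟨j, hj, rfl⟩
        rw [ext_lst]
        exact h2 j hj
      · intro h2 j hj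
        rw [← ext_lst]
        exact h2 _ ⟨j, hj, rfl⟩
    have e3 := neg_dep (lst c) (nodup_lst c)
      {M : List ((Fin n × Fin d) × (Fin n × Fin d)) | ∃ j ∈ J, M = lst j} (by
        rintro M' ⟨j, hj, rfl⟩
        apply noConf_lst
        have := hJ j hj
        simpa using this)
    rw [← e1, ← e2, length_lst] at e3
    have e4 : ((∏ i ∈ Finset.range (c.1.val + 1),
        (Fintype.card (Fin n × Fin d) - 1 - 2 * i) : ℕ) : ℝ) =
        ∏ i ∈ Finset.range (c.1.val + 1), ((d * n : ℝ) - 1 - 2 * i) := by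
      rw [Nat.cast_prod]
      refine Finset.prod_congr rfl fun i hi => ?_
      rw [Finset.mem_range] at hi
      rw [Fintype.card_prod, Fintype.card_fin, Fintype.card_fin, mul_comm n d]
      have : 1 + 2 * i ≤ d * n := by omega
      rw [Nat.sub_sub, Nat.cast_sub this]
      push_cast
      ring
    have hP : 0 < ∏ i ∈ Finset.range (c.1.val + 1), ((d * n : ℝ) - 1 - 2 * i) := by
      have := hb.1
      rw [pr] at this
      exact inv_pos.1 this
    rw [pr, inv_mul_eq_div, le_div_iff₀ hP, ← e4]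
    norm_cast
    convert e3
  · exact b3

end MPbcd198.T
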