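import Pool.Agent.Lib.MP_bcd198_co.T.Cfg

/-!
# JOB T/DiscA: number of disconnected labelled `d`-regular graphs

Let `n ≥ 1`, `d ≥ 1`, `G` be `d`-regular and not connected. There is a set `K` of vertices, closed under adjacency (`v ∈ K`, `G.Adj v w → w ∈ K`), with
`1 ≤ |K|`, `2|K| ≤ n`: take vertices `x, y` that are not reachable from each other (`n ≥ 1`, so `Nonempty`; `¬ Preconnected`), `K₁` = the vertices reachable from `x`,
`K₂` = complement; both are non empty and closed; the smaller one has at most `n/2` elements.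
`G` is determined by `K`, the graph induced on `K` and the graph induced on the complement (no edges between them), and both induced graphs are
`d`-regular (all neighbours of a vertex are on the same side). So (for `k = |K|`)
`#{G} ≤ ∑_K #{d-regular graphs on K} #{d-regular graphs on Kᶜ} ≤ ∑_K (MNum (dk/2)/(d!)^k) (MNum (d(n-k)/2)/(d!)^(n-k))` by `deg_count` for the constant function `δ = d`
(`∑ v, d = d |V|`), and a `K` with `dk` odd does not occur (`deg_even`). There are `binom(n,k)` sets `K` with `k` elements. Finally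
`(d!)^k (d!)^(n-k) = (d!)^n`. Note `1 ≤ k ≤ n/2`.
-/

set_option autoImplicit false

namespace MPbcd198.T

/-- the induced graph -/
private def cmp {V : Type} (p : V → Prop) (G : SimpleGraph V) : SimpleGraph {v // p v} :=
  G.comap Subtype.val

private theorem cmp_card {V : Type} (p : V → Prop) (G : SimpleGraph V)
    (hc : ∀ v, p v → ∀ w, G.Adj v w → p w) (v : {v // p v}) :
    Nat.card ((cmp p G).neighborSet v) = Nat.card (G.neighborSet v.1) := by
  refine Nat.card_congr
    { toFun := fun w => ⟨w.1.1, w.2⟩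
      invFun := fun w => ⟨⟨w.1, hc v.1 v.2 w.1 w.2⟩, w.2⟩
      left_inv := fun w => rfl
      right_inv := fun w => rfl }

private theorem reg_card_le {V : Type} [Fintype V] (d : ℕ) :
    (Nat.card {G : SimpleGraph V // ∀ v, Nat.card (G.neighborSet v) = d} : ℝ) *
      (d.factorial : ℝ) ^ Fintype.card V ≤ MNum (d * Fintype.card V / 2) := by
  have h := deg_count (V := V) (fun _ => d)
  rw [Finset.prod_const, Finset.sum_const, Finset.card_univ, smul_eq_mul, mul_comm _ d] at h
  exact h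

/-- graphs with a closed set of vertices -/
private def CK {n : ℕ} (d : ℕ) (K : Finset (Fin n)) (G : SimpleGraph (Fin n)) : Prop :=
  Reg d G ∧ ∀ v ∈ K, ∀ w, G.Adj v w → w ∈ K

private theorem CK_compl {n d : ℕ} {K : Finset (Fin n)} {G : SimpleGraph (Fin n)}
    (h : CK d K G) : ∀ v, v ∉ K → ∀ w, G.Adj v w → w ∉ K :=
  fun v hv w hw hwK => hv (h.2 w hwK v hw.symm)

private theorem card_CK {n d : ℕ} (K : Finset (Fin n)) :
    (Nat.card {G : SimpleGraph (Fin n) // CK d K G} : ℝ) * (d.factorial : ℝ) ^ n ≤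
      MNum (d * K.card / 2) * MNum (d * (n - K.card) / 2) := by
  classical
  let R1 := {G : SimpleGraph {v // v ∈ K} // ∀ v, Nat.card (G.neighborSet v) = d}
  let R2 := {G : SimpleGraph {v // ¬ v ∈ K} // ∀ v, Nat.card (G.neighborSet v) = d}
  let Φ : {G : SimpleGraph (Fin n) // CK d K G} → R1 × R2 := fun G =>
    (⟨cmp (fun v => v ∈ K) G.1, fun v => by
        rw [cmp_card _ _ G.2.2]
        exact G.2.1 v.1⟩,
      ⟨cmp (fun v => ¬ v ∈ K) G.1, fun v => by
        rw [cmp_card _ _ (CK_compl G.2)]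
        exact G.2.1 v.1⟩)
  have hΦ : Function.Injective Φ := by
    intro G G' hGG
    have h1 : cmp (fun v => v ∈ K) G.1 = cmp (fun v => v ∈ K) G'.1 :=
      congrArg (fun x => x.1.1) hGG
    have h2 : cmp (fun v => ¬ v ∈ K) G.1 = cmp (fun v => ¬ v ∈ K) G'.1 :=
      congrArg (fun x => x.2.1) hGG
    have key : ∀ (H H' : {G : SimpleGraph (Fin n) // CK d K G}),
        cmp (fun v => v ∈ K) H.1 = cmp (fun v => v ∈ K) H'.1 →
        cmp (fun v => ¬ v ∈ K) H.1 = cmp (fun v => ¬ v ∈ K) H'.1 →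
        ∀ v w, H.1.Adj v w → H'.1.Adj v w := by
      intro H H' e1 e2 v w hvw
      by_cases hv : v ∈ K
      · have hw : w ∈ K := H.2.2 v hv w hvw
        have h3 : (cmp (fun v => v ∈ K) H.1).Adj ⟨v, hv⟩ ⟨w, hw⟩ := hvw
        rw [e1] at h3
        exact h3
      · have hw : ¬ w ∈ K := CK_compl H.2 v hv w hvw
        have h3 : (cmp (fun v => ¬ v ∈ K) H.1).Adj ⟨v, hv⟩ ⟨w, hw⟩ := hvw
        rw [e2] at h3
        exact h3
    apply Subtype.ext
    ext v w
    exact ⟨key G G' h1 h2 v w, key G' G h1.symm h2.symm v w⟩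
  have hle : Nat.card {G : SimpleGraph (Fin n) // CK d K G} ≤ Nat.card R1 * Nat.card R2 := by
    rw [← Nat.card_prod]
    exact Nat.card_le_card_of_injective Φ hΦ
  have hc1 : Fintype.card {v // v ∈ K} = K.card := Fintype.card_coe K
  have hc2 : Fintype.card {v // ¬ v ∈ K} = n - K.card := by
    rw [Fintype.card_subtype_compl, Fintype.card_coe, Fintype.card_fin]
  have hK : K.card ≤ n := by
    have := K.card_le_univ
    rwa [Fintype.card_fin] at this
  have b1 : (Nat.card R1 : ℝ) * (d.factorial : ℝ) ^ K.card ≤ MNum (d * K.card / 2) := by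
    have := reg_card_le (V := {v // v ∈ K}) d
    rwa [hc1] at this
  have b2 : (Nat.card R2 : ℝ) * (d.factorial : ℝ) ^ (n - K.card) ≤
      MNum (d * (n - K.card) / 2) := by
    have := reg_card_le (V := {v // ¬ v ∈ K}) d
    rwa [hc2] at this
  have e : (d.factorial : ℝ) ^ n = (d.factorial : ℝ) ^ K.card * (d.factorial : ℝ) ^ (n - K.card) := by
    rw [← pow_add, Nat.add_sub_cancel' hK]
  have hle' : (Nat.card {G : SimpleGraph (Fin n) // CK d K G} : ℝ) ≤
      (Nat.card R1 : ℝ) * (Nat.card R2 : ℝ) := by exact_mod_cast hle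
  calc (Nat.card {G : SimpleGraph (Fin n) // CK d K G} : ℝ) * (d.factorial : ℝ) ^ n
      ≤ ((Nat.card R1 : ℝ) * (Nat.card R2 : ℝ)) * (d.factorial : ℝ) ^ n :=
        mul_le_mul_of_nonneg_right hle' (by positivity)
    _ = ((Nat.card R1 : ℝ) * (d.factorial : ℝ) ^ K.card) *
        ((Nat.card R2 : ℝ) * (d.factorial : ℝ) ^ (n - K.card)) := by rw [e]; ring
    _ ≤ MNum (d * K.card / 2) * MNum (d * (n - K.card) / 2) :=
        mul_le_mul b1 b2 (by positivity) (by unfold MNum; positivity)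

private theorem even_of_CK {n d : ℕ} {K : Finset (Fin n)} {G : SimpleGraph (Fin n)}
    (h : CK d K G) : Even (d * K.card) := by
  classical
  have h1 := deg_even (V := {v // v ∈ K}) (fun _ => d) (cmp (fun v => v ∈ K) G) (fun v => by
    rw [cmp_card _ _ h.2]
    exact h.1 v.1)
  rw [Finset.sum_const, Finset.card_univ, smul_eq_mul, Fintype.card_coe, mul_comm] at h1
  exact h1

private theorem exists_K {n d : ℕ} (hn : 1 ≤ n) {G : SimpleGraph (Fin n)} (hr : Reg d G)
    (hG : ¬ G.Connected) : ∃ K : Finset (Fin n), 1 ≤ K.card ∧ K.card ≤ n / 2 ∧ CK d K G := by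
  classical
  have hne : Nonempty (Fin n) := ⟨⟨0, hn⟩⟩
  have hpre : ¬ G.Preconnected := fun h => hG ⟨h⟩
  unfold SimpleGraph.Preconnected at hpre
  push Not at hpre
  obtain ⟨x, y, hxy⟩ := hpre
  let K1 : Finset (Fin n) := Finset.univ.filter fun v => G.Reachable x v
  have hm : ∀ v, v ∈ K1 ↔ G.Reachable x v := fun v => by
    simp only [K1, Finset.mem_filter, Finset.mem_univ, true_and]
  have hC1 : CK d K1 G := ⟨hr, fun v hv w hvw => (hm w).2 (((hm v).1 hv).trans hvw.reachable)⟩
  have hC2 : CK d K1ᶜ G := ⟨hr, fun v hv w hvw => by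
    rw [Finset.mem_compl] at hv ⊢
    exact CK_compl hC1 v hv w hvw⟩
  have hx : x ∈ K1 := (hm x).2 (SimpleGraph.Reachable.refl x)
  have hy : y ∈ K1ᶜ := by
    rw [Finset.mem_compl, hm]
    exact hxy
  have c1 : 1 ≤ K1.card := Finset.card_pos.2 ⟨x, hx⟩
  have c2 : 1 ≤ K1ᶜ.card := Finset.card_pos.2 ⟨y, hy⟩
  have c3 : K1.card + K1ᶜ.card = n := by
    rw [Finset.card_add_card_compl, Fintype.card_fin]
  by_cases h : K1.card ≤ n / 2
  · exact ⟨K1, c1, h, hC1⟩
  · exact ⟨K1ᶜ, c2, by omega, hC2⟩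

theorem disc_count {n d : ℕ} (hn : 1 ≤ n) (hd : 1 ≤ d) :
    (Nat.card {G : SimpleGraph (Fin n) // Reg d G ∧ ¬ G.Connected} : ℝ) ≤
      ∑ k ∈ (Finset.Icc 1 (n / 2)).filter (fun k => Even (d * k)),
        (n.choose k : ℝ) * MNum (d * k / 2) * MNum (d * (n - k) / 2) / (d.factorial : ℝ) ^ n := by
  classical
  let 𝒦 : Finset (Finset (Fin n)) :=
    Finset.univ.filter fun K => K.card ∈ (Finset.Icc 1 (n / 2)).filter (fun k => Even (d * k))
  let f : ℕ → ℝ := fun k => MNum (d * k / 2) * MNum (d * (n - k) / 2) / (d.factorial : ℝ) ^ n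
  have hfac : (0 : ℝ) < (d.factorial : ℝ) ^ n := by positivity
  have h1 : Nat.card {G : SimpleGraph (Fin n) // Reg d G ∧ ¬ G.Connected} ≤
      ∑ K ∈ 𝒦, Nat.card {G : SimpleGraph (Fin n) // CK d K G} := by
    let F : (SimpleGraph (Fin n) → Prop) → Finset (SimpleGraph (Fin n)) :=
      fun P => Finset.univ.filter P
    have hF : ∀ P G, G ∈ F P ↔ P G := fun P G => by
      simp only [F, Finset.mem_filter, Finset.mem_univ, true_and]
    have e1 : ∀ P : SimpleGraph (Fin n) → Prop, Nat.card {G : SimpleGraph (Fin n) // P G} =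
        (F P).card := fun P => by
      rw [Nat.card_eq_fintype_card, Fintype.card_subtype]
    rw [e1]
    simp only [e1]
    refine le_trans (Finset.card_le_card ?_) (Finset.card_biUnion_le (s := 𝒦)
      (t := fun K => F (CK d K)))
    intro G hG
    rw [hF] at hG
    obtain ⟨K, k1, k2, k3⟩ := exists_K hn hG.1 hG.2
    rw [Finset.mem_biUnion]
    refine ⟨K, ?_, ?_⟩
    · rw [Finset.mem_filter, Finset.mem_filter, Finset.mem_Icc]
      exact ⟨Finset.mem_univ _, ⟨k1, k2⟩, even_of_CK k3⟩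
    · rw [hF]
      exact k3
  have h2 : (∑ K ∈ 𝒦, (Nat.card {G : SimpleGraph (Fin n) // CK d K G} : ℝ)) ≤
      ∑ K ∈ 𝒦, f K.card := by
    refine Finset.sum_le_sum fun K _ => ?_
    rw [le_div_iff₀ hfac]
    exact card_CK K
  have h3 : ∑ K ∈ 𝒦, f K.card = ∑ k ∈ (Finset.Icc 1 (n / 2)).filter (fun k => Even (d * k)),
      (n.choose k : ℝ) * f k := by
    rw [← Finset.sum_fiberwise_of_maps_to (s := 𝒦)
      (t := (Finset.Icc 1 (n / 2)).filter (fun k => Even (d * k))) (g := Finset.card)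
      (fun K hK => (Finset.mem_filter.1 hK).2)]
    refine Finset.sum_congr rfl fun k hk => ?_
    have e2 : (𝒦.filter fun K => K.card = k) = Finset.powersetCard k Finset.univ := by
      ext K
      rw [Finset.mem_filter, Finset.mem_powersetCard]
      constructor
      · rintro ⟨_, h⟩
        exact ⟨Finset.subset_univ _, h⟩
      · rintro ⟨_, h⟩
        refine ⟨?_, h⟩
        rw [Finset.mem_filter]
        exact ⟨Finset.mem_univ _, h ▸ hk⟩
    have e3 : ∑ K ∈ 𝒦.filter (fun K => K.card = k), f K.card =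
        ∑ K ∈ 𝒦.filter (fun K => K.card = k), f k :=
      Finset.sum_congr rfl fun K hK => by rw [(Finset.mem_filter.1 hK).2]
    rw [e3, Finset.sum_const, e2, Finset.card_powersetCard, Finset.card_univ, Fintype.card_fin,
      nsmul_eq_mul]
  calc (Nat.card {G : SimpleGraph (Fin n) // Reg d G ∧ ¬ G.Connected} : ℝ)
      ≤ ((∑ K ∈ 𝒦, Nat.card {G : SimpleGraph (Fin n) // CK d K G} : ℕ) : ℝ) := by exact_mod_cast h1
    _ = ∑ K ∈ 𝒦, (Nat.card {G : SimpleGraph (Fin n) // CK d K G} : ℝ) := by push_cast; rfl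
    _ ≤ ∑ K ∈ 𝒦, f K.card := h2
    _ = ∑ k ∈ (Finset.Icc 1 (n / 2)).filter (fun k => Even (d * k)), (n.choose k : ℝ) * f k := h3
    _ = _ := Finset.sum_congr rfl fun k _ => by
        simp only [f]
        ring

end MPbcd198.T
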