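import Pool.Agent.Lib.MP_bcd198_co.T.DiscA

/-!
# JOB T/DiscB: almost all `d`-regular labelled graphs are connected (`d ≥ 3`)

Let `3 ≤ d`, `dn` even. For `k ∈ [1, n/2]` with `dk` even put `a = dk/2`, `b = d(n-k)/2` (`2a = dk`, `2b = d(n-k)`: `d(n-k) = dn - dk` is even), `a + b = dn/2`.
`MNum_split` (PMr.lean): `binom(n,k) MNum a MNum b ≤ MNum (dn/2) / binom(N, j)` with `N = (d-2)n/2`, `j = (d-2)k/2` (exact halves). Here `1 ≤ j` (`(d-2)k` is even and
`≥ 1`), `j ≤ N/2` (`2k ≤ n`) and `N ≥ n/2` (as reals).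
* `binom(N,j) ≥ N` for `1 ≤ j ≤ N/2` (so `j ≤ N-1`), and `binom(N,j) ≥ binom(N,2) = N(N-1)/2` if `2 ≤ j ≤ N/2` (`Nat.choose_le_choose`/monotone up to the middle: `Nat.choose_le_succ_of_lt_half_left`
  or use `j ≤ N - 2` and unimodality; for `2 ≤ j ≤ N/2`, `N ≥ 4`).
* `j = 1` holds for at most one `k` (`(d-2)k = 2`; `k = 2/(d-2)`).
So the sum over `k` of `1/binom(N,j)` is at most `1/N + (n/2) · 2/(N(N-1)) ≤ 1/N + 2/(N-1)` (using `n/2 ≤ N`), which tends to `0`. With `disc_count` we get the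
statement: choose `n₀` such that `1/N + 2/(N-1) ≤ ε` for all `N ≥ n₀/2`.
-/

set_option autoImplicit false

namespace MPbcd198.T

private theorem DiscB_mono {N i : ℕ} : ∀ {j : ℕ}, i ≤ j → j ≤ N / 2 → N.choose i ≤ N.choose j := by
  intro j hij
  induction j, hij using Nat.le_induction with
  | base => intro _; exact le_rfl
  | succ j _ ih =>
    intro h
    exact (ih (by omega)).trans (Nat.choose_le_succ_of_lt_half_left (by omega))

theorem disc_small (d : ℕ) (hd : 3 ≤ d) (ε : ℝ) (hε : 0 < ε) : ∃ n₀ : ℕ, ∀ n : ℕ, n₀ ≤ n →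
    Even (d * n) → (Nat.card {G : SimpleGraph (Fin n) // Reg d G ∧ ¬ G.Connected} : ℝ) ≤
      ε * (MNum (d * n / 2) / (d.factorial : ℝ) ^ n) := by
  refine ⟨2 * ⌈4 / ε⌉₊ + 8, fun n hn hev => ?_⟩
  have hn1 : 1 ≤ n := by omega
  refine (disc_count hn1 (by omega)).trans ?_
  set N : ℕ := (d - 2) * n / 2 with hN
  obtain ⟨e, rfl⟩ : ∃ e, d = e + 2 := ⟨d - 2, by omega⟩
  have he1 : 1 ≤ e := by omega
  simp only [Nat.add_sub_cancel] at hN
  obtain ⟨M, hM⟩ := hev
  have hN2 : 2 * N = e * n := by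
    have h1 : (e + 2) * n = e * n + 2 * n := by ring
    omega
  have hNn : n / 2 ≤ N := by
    have h1 : n ≤ e * n := Nat.le_mul_of_pos_left n he1
    omega
  set c : ℝ := MNum ((e + 2) * n / 2) / ((e + 2).factorial : ℝ) ^ n with hc
  have hfac : (0 : ℝ) < ((e + 2).factorial : ℝ) ^ n := by positivity
  have hc0 : 0 < c := div_pos (MNum_pos _) hfac
  have hNbig : (4 / ε : ℝ) + 2 ≤ N := by
    have h1 : ⌈4 / ε⌉₊ + 2 ≤ N := by omega
    have h2 := Nat.le_ceil (4 / ε)
    have h3 : ((⌈4 / ε⌉₊ : ℕ) : ℝ) + 2 ≤ N := by exact_mod_cast h1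
    linarith
  have hN2' : (2 : ℝ) ≤ N := by
    have : (0 : ℝ) < 4 / ε := by positivity
    linarith
  have hNpos : (0 : ℝ) < N := by linarith
  have hN1pos : (0 : ℝ) < (N : ℝ) - 1 := by linarith
  -- bound for one term
  have hterm : ∀ k ∈ (Finset.Icc 1 (n / 2)).filter (fun k => Even ((e + 2) * k)),
      (n.choose k : ℝ) * MNum ((e + 2) * k / 2) * MNum ((e + 2) * (n - k) / 2) /
        ((e + 2).factorial : ℝ) ^ n ≤
      c * ((if k ≤ 2 then 1 / (N : ℝ) else 0) + 2 / ((N : ℝ) * (N - 1))) := by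
    intro k hk
    rw [Finset.mem_filter, Finset.mem_Icc] at hk
    obtain ⟨⟨hk1, hk2⟩, ⟨K, hK⟩⟩ := hk
    have hkn : k ≤ n := by omega
    set a := (e + 2) * k / 2 with ha
    set b := (e + 2) * (n - k) / 2 with hb
    set j := e * k / 2 with hj
    have ha2 : 2 * a = (e + 2) * k := by omega
    have hnk : (e + 2) * (n - k) + (e + 2) * k = (e + 2) * n := by
      rw [← Nat.mul_add, Nat.sub_add_cancel hkn]
    have hb2 : 2 * b = (e + 2) * (n - k) := by omega
    have hab : a + b = (e + 2) * n / 2 := by omega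
    have hek : (e + 2) * k = e * k + 2 * k := by ring
    have hj2 : 2 * j = e * k := by omega
    have hekn : 2 * (e * k) ≤ e * n := by
      have h1 : 2 * k ≤ n := by omega
      calc 2 * (e * k) = e * (2 * k) := by ring
        _ ≤ e * n := Nat.mul_le_mul_left e h1
    have hjN : j ≤ N / 2 := by omega
    have hkek : k ≤ e * k := Nat.le_mul_of_pos_left k he1
    have hj1 : 1 ≤ j := by omega
    have hsplit := MNum_split (n := n) (k := k) (d := e + 2) (a := a) (b := b) (by omega) hkn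
      ha2 hb2
    simp only [Nat.add_sub_cancel] at hsplit
    rw [← hN, ← hj, hab] at hsplit
    have hbin : (1 : ℝ) / (N.choose j : ℝ) ≤
        (if k ≤ 2 then 1 / (N : ℝ) else 0) + 2 / ((N : ℝ) * (N - 1)) := by
      have hp2 : (0 : ℝ) ≤ 2 / ((N : ℝ) * (N - 1)) := by positivity
      by_cases h3 : k ≤ 2
      · rw [if_pos h3]
        have h4 : N ≤ N.choose j := by
          have h5 := DiscB_mono (N := N) hj1 hjN
          rwa [Nat.choose_one_right] at h5
        have h4' : (N : ℝ) ≤ (N.choose j : ℝ) := by exact_mod_cast h4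
        have h5 : (1 : ℝ) / (N.choose j : ℝ) ≤ 1 / (N : ℝ) :=
          one_div_le_one_div_of_le hNpos h4'
        linarith
      · rw [if_neg h3, zero_add]
        have h3' : 2 ≤ j := by omega
        have h4 := DiscB_mono (N := N) h3' hjN
        have h4' : ((N.choose 2 : ℕ) : ℝ) ≤ (N.choose j : ℝ) := by exact_mod_cast h4
        rw [Nat.cast_choose_two] at h4'
        have h6 : (0 : ℝ) < (N : ℝ) * (N - 1) / 2 := by positivity
        have h5 := one_div_le_one_div_of_le h6 h4'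
        refine h5.trans (le_of_eq ?_)
        field_simp
    have hch : (0 : ℝ) < (N.choose j : ℝ) := by
      have : 0 < N.choose j := Nat.choose_pos (by omega)
      exact_mod_cast this
    have h7 : (n.choose k : ℝ) * MNum a * MNum b / ((e + 2).factorial : ℝ) ^ n ≤
        c * (1 / (N.choose j : ℝ)) := by
      rw [hc, div_mul_div_comm, mul_one, div_le_div_iff₀ hfac (mul_pos hfac hch)]
      calc (n.choose k : ℝ) * MNum a * MNum b *
            (((e + 2).factorial : ℝ) ^ n * (N.choose j : ℝ)) =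
            ((n.choose k : ℝ) * MNum a * MNum b * (N.choose j : ℝ)) *
              ((e + 2).factorial : ℝ) ^ n := by ring
        _ ≤ MNum ((e + 2) * n / 2) * ((e + 2).factorial : ℝ) ^ n :=
          mul_le_mul_of_nonneg_right hsplit hfac.le
    exact h7.trans (mul_le_mul_of_nonneg_left hbin hc0.le)
  refine (Finset.sum_le_sum hterm).trans ?_
  have hsum : ∑ k ∈ (Finset.Icc 1 (n / 2)).filter (fun k => Even ((e + 2) * k)),
      c * ((if k ≤ 2 then 1 / (N : ℝ) else 0) + 2 / ((N : ℝ) * (N - 1))) ≤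
      ∑ k ∈ Finset.Icc 1 (n / 2),
      c * ((if k ≤ 2 then 1 / (N : ℝ) else 0) + 2 / ((N : ℝ) * (N - 1))) := by
    refine Finset.sum_le_sum_of_subset_of_nonneg (Finset.filter_subset _ _) fun k _ _ => ?_
    have hp2 : (0 : ℝ) ≤ 2 / ((N : ℝ) * (N - 1)) := by positivity
    have hp1 : (0 : ℝ) ≤ (if k ≤ 2 then 1 / (N : ℝ) else 0) := by
      split_ifs
      · positivity
      · exact le_rfl
    exact mul_nonneg hc0.le (add_nonneg hp1 hp2)
  refine hsum.trans ?_
  rw [← Finset.mul_sum, Finset.sum_add_distrib, Finset.sum_const, Nat.card_Icc,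
    Nat.add_sub_cancel, nsmul_eq_mul, ← Finset.sum_filter, Finset.sum_const, nsmul_eq_mul]
  have hcard : ((Finset.Icc 1 (n / 2)).filter (fun k => k ≤ 2)).card ≤ 2 := by
    have h1 : (Finset.Icc 1 (n / 2)).filter (fun k => k ≤ 2) ⊆ Finset.Icc 1 2 := by
      intro k hk
      rw [Finset.mem_filter, Finset.mem_Icc] at hk
      rw [Finset.mem_Icc]
      exact ⟨hk.1.1, hk.2⟩
    have h2 := Finset.card_le_card h1
    simpa using h2
  have hcard' : (((Finset.Icc 1 (n / 2)).filter (fun k => k ≤ 2)).card : ℝ) ≤ 2 := by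
    exact_mod_cast hcard
  have hn2 : ((n / 2 : ℕ) : ℝ) ≤ N := by exact_mod_cast hNn
  have hA : (((Finset.Icc 1 (n / 2)).filter (fun k => k ≤ 2)).card : ℝ) * (1 / (N : ℝ)) ≤
      2 * (1 / (N : ℝ)) := mul_le_mul_of_nonneg_right hcard' (by positivity)
  have hB : ((n / 2 : ℕ) : ℝ) * (2 / ((N : ℝ) * (N - 1))) ≤ 2 / ((N : ℝ) - 1) := by
    calc ((n / 2 : ℕ) : ℝ) * (2 / ((N : ℝ) * (N - 1))) ≤ (N : ℝ) * (2 / ((N : ℝ) * (N - 1))) :=
          mul_le_mul_of_nonneg_right hn2 (by positivity)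
      _ = 2 / ((N : ℝ) - 1) := by field_simp
  have hC : 2 * (1 / (N : ℝ)) ≤ 2 / ((N : ℝ) - 1) := by
    rw [mul_one_div]
    exact div_le_div_of_nonneg_left (by norm_num) hN1pos (by linarith)
  have hD : 4 / ((N : ℝ) - 1) ≤ ε := by
    rw [div_le_iff₀ hN1pos]
    have h1 : 4 / ε * ε = 4 := by field_simp
    have h2 : (4 / ε) ≤ (N : ℝ) - 1 := by linarith
    have h3 := mul_le_mul_of_nonneg_right h2 hε.le
    linarith
  have hE : 2 / ((N : ℝ) - 1) + 2 / ((N : ℝ) - 1) = 4 / ((N : ℝ) - 1) := by ring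
  rw [mul_comm ε c]
  refine mul_le_mul_of_nonneg_left ?_ hc0.le
  linarith

end MPbcd198.T
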