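import Pool.Agent.Lib.MP_bcd198_co.T.RepA

/-!
# JOB T/InA: number of invariant graphs on the moved points
-/

set_option autoImplicit false

namespace MPbcd198.T

open Equiv

section

variable {n : ℕ} (σ : Perm (Fin n))

/-- equivalence of pairs -/
private def Eqv (p p' : Fin n × Fin n) : Prop :=
  ∃ k : ℤ, ((σ ^ k) p.1 = p'.1 ∧ (σ ^ k) p.2 = p'.2) ∨ ((σ ^ k) p.1 = p'.2 ∧ (σ ^ k) p.2 = p'.1)

private theorem zpow_neg_apply (k : ℤ) {x y : Fin n} (h : (σ ^ k) x = y) : (σ ^ (-k)) y = x := by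
  rw [← h, ← Perm.mul_apply, ← zpow_add]
  simp

private def stoid : Setoid (Fin n × Fin n) where
  r := Eqv σ
  iseqv := by
    refine ⟨fun p => ⟨0, Or.inl (by simp)⟩, ?_, ?_⟩
    · rintro p p' ⟨k, h | h⟩
      · exact ⟨-k, Or.inl ⟨zpow_neg_apply σ k h.1, zpow_neg_apply σ k h.2⟩⟩
      · exact ⟨-k, Or.inr ⟨zpow_neg_apply σ k h.2, zpow_neg_apply σ k h.1⟩⟩
    · rintro p p' p'' ⟨k, h⟩ ⟨l, h'⟩
      refine ⟨l + k, ?_⟩
      rw [zpow_add, Perm.mul_apply, Perm.mul_apply]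
      rcases h with ⟨h1, h2⟩ | ⟨h1, h2⟩ <;> rcases h' with ⟨h3, h4⟩ | ⟨h3, h4⟩ <;>
        rw [h1, h2] <;> tauto

private def Cl (p : Fin n × Fin n) : Quotient (stoid σ) := Quotient.mk (stoid σ) p

private def Dia (p : Fin n × Fin n) : Prop :=
  p.1 ≠ p.2 ∧ ∃ k : ℤ, (σ ^ k) p.1 = p.2 ∧ (σ ^ k) p.2 = p.1

private theorem aut_zpow {H : SimpleGraph (Fin n)} (hH : IsAut H σ) (k : ℤ) (x y : Fin n) :
    H.Adj ((σ ^ k) x) ((σ ^ k) y) ↔ H.Adj x y := by
  have hn : ∀ (k : ℕ) (x y : Fin n), H.Adj ((σ ^ k) x) ((σ ^ k) y) ↔ H.Adj x y := by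
    intro k
    induction k with
    | zero => intro x y; simp
    | succ k ih =>
      intro x y
      rw [pow_succ', Perm.mul_apply, Perm.mul_apply, hH, ih]
  obtain ⟨m, rfl | rfl⟩ := k.eq_nat_or_neg
  · exact_mod_cast hn m x y
  · rw [← hn m]
    simp only [← Perm.mul_apply, zpow_neg, zpow_natCast, mul_inv_cancel, Perm.one_apply]

private theorem adj_of_eqv {H : SimpleGraph (Fin n)} (hH : IsAut H σ) {p p' : Fin n × Fin n}
    (h : Cl σ p = Cl σ p') (ha : H.Adj p.1 p.2) : H.Adj p'.1 p'.2 := by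
  obtain ⟨k, h | h⟩ : Eqv σ p p' := Quotient.exact h
  · rw [← h.1, ← h.2, aut_zpow σ hH]
    exact ha
  · rw [← h.1, ← h.2, aut_zpow σ hH]
    exact ha.symm

private theorem zpow_fix_iff (v : Fin n) (k : ℤ) :
    (σ ^ k) v = v ↔ ((Function.minimalPeriod σ v : ℕ) : ℤ) ∣ k := by
  have h1 : ∀ m : ℕ, (σ ^ m) v = v ↔ Function.minimalPeriod σ v ∣ m := by
    intro m
    rw [← Function.isPeriodicPt_iff_minimalPeriod_dvd, Function.IsPeriodicPt,
      Function.IsFixedPt, Equiv.Perm.iterate_eq_pow]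
  obtain ⟨m, rfl | rfl⟩ := k.eq_nat_or_neg
  · rw [zpow_natCast, h1, Int.natCast_dvd_natCast]
  · rw [Int.dvd_neg, Int.natCast_dvd_natCast, ← h1]
    constructor
    · intro h
      have := zpow_neg_apply σ (-(m : ℤ)) h
      simpa using this
    · intro h
      exact zpow_neg_apply σ (m : ℤ) (by simpa using h)

private theorem dia_unique {v w w' : Fin n} (h : Dia σ (v, w)) (h' : Dia σ (v, w')) :
    w = w' := by
  obtain ⟨hne, k, h1, h2⟩ := h
  obtain ⟨hne', k', h1', h2'⟩ := h'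
  simp only at hne h1 h2 hne' h1' h2'
  set L : ℤ := ((Function.minimalPeriod σ v : ℕ) : ℤ) with hL
  have a1 : ¬ L ∣ k := by
    rw [hL, ← zpow_fix_iff, h1]
    exact fun h => hne h.symm
  have a1' : ¬ L ∣ k' := by
    rw [hL, ← zpow_fix_iff, h1']
    exact fun h => hne' h.symm
  have a2 : L ∣ k + k := by
    rw [hL, ← zpow_fix_iff, zpow_add, Perm.mul_apply, h1, h2]
  have a2' : L ∣ k' + k' := by
    rw [hL, ← zpow_fix_iff, zpow_add, Perm.mul_apply, h1', h2']
  have a3 : L ∣ k - k' := by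
    obtain ⟨c, hc⟩ := a2
    obtain ⟨c', hc'⟩ := a2'
    have o1 : ¬ Even c := by
      rintro ⟨e, he⟩
      apply a1
      refine ⟨e, ?_⟩
      have : k + k = L * e + L * e := by rw [hc, he]; ring
      linarith
    have o2 : ¬ Even c' := by
      rintro ⟨e, he⟩
      apply a1'
      refine ⟨e, ?_⟩
      have : k' + k' = L * e + L * e := by rw [hc', he]; ring
      linarith
    obtain ⟨e, he⟩ : Even (c - c') := by
      rw [Int.even_sub]
      exact ⟨fun h => absurd h o1, fun h => absurd h o2⟩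
    refine ⟨e, ?_⟩
    have : (k - k') + (k - k') = L * e + L * e := by
      have : L * (c - c') = L * (e + e) := by rw [he]
      linarith
    linarith
  rw [hL, ← zpow_fix_iff, zpow_sub, Perm.mul_apply] at a3
  -- σ^k (σ^(-k') v) = v
  have a4 : (σ ^ k) v = (σ ^ k') v := by
    have h5 : (σ ^ k') ((σ ^ k) ((σ ^ k')⁻¹ v)) = (σ ^ k') v := by rw [a3]
    have h6 : (σ ^ k') ((σ ^ k) ((σ ^ k')⁻¹ v)) = (σ ^ k) v := by
      rw [← Perm.mul_apply, ← Perm.mul_apply, ← zpow_add, add_comm, zpow_add, mul_assoc,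
        mul_inv_cancel, mul_one]
    rw [← h6, h5]
  rw [← h1, ← h1', a4]

open Classical in
/-- the edges starting at representatives -/
private noncomputable def IH (H : SimpleGraph (Fin n)) : Finset (Fin n × Fin n) :=
  (Rep σ ×ˢ Finset.univ).filter fun p => H.Adj p.1 p.2

open Classical in
private noncomputable def DH (H : SimpleGraph (Fin n)) : Finset (Fin n) :=
  (Rep σ).filter fun v => ∃ w, (v, w) ∈ IH σ H ∧ Dia σ (v, w)

open Classical in
private noncomputable def KH (H : SimpleGraph (Fin n)) : Finset (Quotient (stoid σ)) :=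
  ((IH σ H).image (Cl σ)).filter fun c => ∀ p ∈ IH σ H, Cl σ p = c → ¬ Dia σ p

private theorem mem_IH {H : SimpleGraph (Fin n)} {p : Fin n × Fin n} :
    p ∈ IH σ H ↔ p.1 ∈ Rep σ ∧ H.Adj p.1 p.2 := by
  classical
  simp [IH]

open Classical in
private theorem card_IH {H : SimpleGraph (Fin n)}
    (hH : ∀ x y, H.Adj x y → σ x ≠ x ∧ σ y ≠ y) :
    (IH σ H).card = ∑ v ∈ Rep σ, (inN σ H v).card := by
  have : IH σ H = ((Rep σ).sigma (fun v => inN σ H v)).map
      ⟨fun x : (_ : Fin n) × Fin n => ((x.1, x.2) : Fin n × Fin n), fun x y h => by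
        rcases x with ⟨a, b⟩
        rcases y with ⟨c, d⟩
        simp only [Prod.mk.injEq] at h
        obtain ⟨rfl, rfl⟩ := h
        rfl⟩ := by
    ext ⟨v, w⟩
    simp only [mem_IH, Finset.mem_map, Finset.mem_sigma, Function.Embedding.coeFn_mk,
      Prod.mk.injEq, Sigma.exists, inN, Finset.mem_filter, Finset.mem_univ, true_and]
    constructor
    · rintro ⟨h1, h2⟩
      exact ⟨v, w, ⟨h1, h2, (hH v w h2).2⟩, rfl, rfl⟩
    · rintro ⟨a, b, ⟨h1, h2, _⟩, rfl, rfl⟩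
      exact ⟨h1, h2⟩
  rw [this, Finset.card_map, Finset.card_sigma]

open Classical in
private theorem two_le_fibre {H : SimpleGraph (Fin n)} (hA : IsAut H σ)
    (hH : ∀ x y, H.Adj x y → σ x ≠ x ∧ σ y ≠ y) {c : Quotient (stoid σ)} (hc : c ∈ KH σ H) :
    2 ≤ ((IH σ H).filter fun p => Cl σ p = c).card := by
  simp only [KH, Finset.mem_filter, Finset.mem_image] at hc
  obtain ⟨⟨p, hp, rfl⟩, hc⟩ := hc
  have hnd := hc p hp rfl
  rw [mem_IH] at hp
  obtain ⟨v', hv', k, hk⟩ := rep_cover σ p.2 (hH _ _ hp.2).2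
  -- the other pair
  have hk' : (σ ^ (k : ℤ)) v' = p.2 := by simpa using hk
  have hk2 : (σ ^ (-(k : ℤ))) p.2 = v' := zpow_neg_apply σ _ hk'
  set p' : Fin n × Fin n := (v', (σ ^ (-(k : ℤ))) p.1) with hp'
  have h1 : p' ∈ IH σ H := by
    rw [mem_IH]
    refine ⟨hv', ?_⟩
    change H.Adj v' ((σ ^ (-(k : ℤ))) p.1)
    rw [← hk2, aut_zpow σ hA]
    exact hp.2.symm
  have h2 : Cl σ p' = Cl σ p := by
    apply Quotient.sound
    refine ⟨(k : ℤ), Or.inr ⟨hk', ?_⟩⟩
    change (σ ^ (k : ℤ)) ((σ ^ (-(k : ℤ))) p.1) = p.1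
    rw [← Perm.mul_apply, ← zpow_add]
    simp
  have h3 : p' ≠ p := by
    intro h
    apply hnd
    have e1 : v' = p.1 := congrArg Prod.fst h
    have e2 : (σ ^ (-(k : ℤ))) p.1 = p.2 := congrArg Prod.snd h
    refine ⟨fun h => H.loopless.irrefl _ (h ▸ hp.2), -(k : ℤ), e2, ?_⟩
    rw [hk2, e1]
  have h4 : ({p', p} : Finset (Fin n × Fin n)) ⊆ (IH σ H).filter fun q => Cl σ q = Cl σ p := by
    intro q hq
    rw [Finset.mem_insert, Finset.mem_singleton] at hq
    rw [Finset.mem_filter]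
    rcases hq with rfl | rfl
    · exact ⟨h1, h2⟩
    · exact ⟨(mem_IH σ).2 hp, rfl⟩
  calc 2 = ({p', p} : Finset (Fin n × Fin n)).card := by rw [Finset.card_pair h3]
    _ ≤ _ := Finset.card_le_card h4

open Classical in
private theorem card_KH {H : SimpleGraph (Fin n)} (hA : IsAut H σ)
    (hH : ∀ x y, H.Adj x y → σ x ≠ x ∧ σ y ≠ y) : 2 * (KH σ H).card ≤ (IH σ H).card := by
  have h1 : ∑ c ∈ KH σ H, ((IH σ H).filter fun p => Cl σ p = c).card ≤ (IH σ H).card := by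
    rw [← Finset.card_biUnion]
    · exact Finset.card_le_card (Finset.biUnion_subset.2 fun c _ => Finset.filter_subset _ _)
    · intro c _ c' _ hne
      rw [Function.onFun, Finset.disjoint_left]
      intro p hp hp'
      rw [Finset.mem_filter] at hp hp'
      exact hne (hp.2.symm.trans hp'.2)
  have h2 : ∑ c ∈ KH σ H, 2 ≤ ∑ c ∈ KH σ H, ((IH σ H).filter fun p => Cl σ p = c).card :=
    Finset.sum_le_sum fun c hc => two_le_fibre σ hA hH hc
  rw [Finset.sum_const, smul_eq_mul] at h2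
  omega

private theorem half_inj {H H' : SimpleGraph (Fin n)} (hA : IsAut H σ) (hA' : IsAut H' σ)
    (hH : ∀ x y, H.Adj x y → σ x ≠ x ∧ σ y ≠ y) (hD : DH σ H = DH σ H') (hK : KH σ H = KH σ H')
    {x y : Fin n} (h : H.Adj x y) : H'.Adj x y := by
  classical
  obtain ⟨u, hu, k, hk⟩ := rep_cover σ x (hH _ _ h).1
  have hk1 : (σ ^ (k : ℤ)) u = x := by simpa using hk
  have hk2 : (σ ^ (-(k : ℤ))) x = u := zpow_neg_apply σ _ hk1
  set p : Fin n × Fin n := (u, (σ ^ (-(k : ℤ))) y) with hp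
  have hpI : p ∈ IH σ H := by
    rw [mem_IH]
    refine ⟨hu, ?_⟩
    change H.Adj u ((σ ^ (-(k : ℤ))) y)
    rw [← hk2, aut_zpow σ hA]
    exact h
  have key : H'.Adj p.1 p.2 := by
    by_cases hc : ∃ p' ∈ IH σ H, Cl σ p' = Cl σ p ∧ Dia σ p'
    · obtain ⟨⟨v, w⟩, h1, h2, h3⟩ := hc
      have h4 : v ∈ DH σ H := by
        rw [DH, Finset.mem_filter]
        exact ⟨((mem_IH σ).1 h1).1, w, h1, h3⟩
      rw [hD, DH, Finset.mem_filter] at h4
      obtain ⟨_, w', h5, h6⟩ := h4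
      have h7 : w = w' := dia_unique σ h3 h6
      subst h7
      exact adj_of_eqv σ hA' h2 ((mem_IH σ).1 h5).2
    · push Not at hc
      have h1 : Cl σ p ∈ KH σ H := by
        rw [KH, Finset.mem_filter, Finset.mem_image]
        exact ⟨⟨p, hpI, rfl⟩, hc⟩
      rw [hK, KH, Finset.mem_filter, Finset.mem_image] at h1
      obtain ⟨⟨p'', h2, h3⟩, _⟩ := h1
      exact adj_of_eqv σ hA' h3 ((mem_IH σ).1 h2).2
  have h8 := (aut_zpow σ hA' (k : ℤ) p.1 p.2).2 key
  change H'.Adj ((σ ^ (k : ℤ)) u) ((σ ^ (k : ℤ)) ((σ ^ (-(k : ℤ))) y)) at h8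
  rw [hk1, ← Perm.mul_apply, ← zpow_add] at h8
  simpa using h8

end

theorem inner_count {n : ℕ} (σ : Perm (Fin n)) (m : ℕ) :
    Nat.card {H : SimpleGraph (Fin n) // IsAut H σ ∧ (∀ x y, H.Adj x y → σ x ≠ x ∧ σ y ≠ y) ∧
      ∑ v ∈ Rep σ, (inN σ H v).card ≤ 2 * m + 1} ≤
    2 ^ (Rep σ).card * ∑ j ∈ Finset.range (m + 1), ((Rep σ).card * (mv σ).card).choose j := by
  classical
  set U : Finset (Quotient (stoid σ)) := (Rep σ ×ˢ mv σ).image (Cl σ) with hU
  have hUc : U.card ≤ (Rep σ).card * (mv σ).card := by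
    rw [← Finset.card_product]
    exact Finset.card_image_le
  set T : Finset (Finset (Fin n) × Finset (Quotient (stoid σ))) :=
    (Rep σ).powerset ×ˢ ((Finset.range (m + 1)).biUnion fun j => U.powersetCard j) with hT
  have hTc : T.card ≤ 2 ^ (Rep σ).card *
      ∑ j ∈ Finset.range (m + 1), ((Rep σ).card * (mv σ).card).choose j := by
    rw [hT, Finset.card_product, Finset.card_powerset]
    refine Nat.mul_le_mul_left _ (Finset.card_biUnion_le.trans (Finset.sum_le_sum fun j _ => ?_))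
    rw [Finset.card_powersetCard]
    exact Nat.choose_le_choose _ hUc
  refine le_trans ?_ hTc
  let f : {H : SimpleGraph (Fin n) // IsAut H σ ∧ (∀ x y, H.Adj x y → σ x ≠ x ∧ σ y ≠ y) ∧
      ∑ v ∈ Rep σ, (inN σ H v).card ≤ 2 * m + 1} → T := fun H => ⟨(DH σ H.1, KH σ H.1), by
    obtain ⟨H, h1, h2, h3⟩ := H
    rw [hT, Finset.mem_product]
    refine ⟨Finset.mem_powerset.2 (Finset.filter_subset _ _), ?_⟩
    rw [Finset.mem_biUnion]
    refine ⟨(KH σ H).card, ?_, ?_⟩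
    · have h4 := card_KH σ h1 h2
      rw [card_IH σ h2] at h4
      rw [Finset.mem_range]
      omega
    · rw [Finset.mem_powersetCard]
      refine ⟨?_, rfl⟩
      intro c hc
      rw [KH, Finset.mem_filter, Finset.mem_image] at hc
      obtain ⟨⟨p, hp, rfl⟩, _⟩ := hc
      rw [hU, Finset.mem_image]
      rw [mem_IH] at hp
      refine ⟨p, ?_, rfl⟩
      rw [Finset.mem_product]
      refine ⟨hp.1, ?_⟩
      simp only [mv, Finset.mem_filter, Finset.mem_univ, true_and]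
      exact (h2 _ _ hp.2).2⟩
  have hf : Function.Injective f := by
    rintro ⟨H, h1, h2, h3⟩ ⟨H', h1', h2', h3'⟩ h
    have hh := congrArg Subtype.val h
    simp only [f, Prod.mk.injEq] at hh
    apply Subtype.ext
    ext x y
    exact ⟨fun h => half_inj σ h1 h1' h2 hh.1 hh.2 h,
      fun h => half_inj σ h1' h1 h2' hh.1.symm hh.2.symm h⟩
  calc _ ≤ Nat.card T := Nat.card_le_card_of_injective f hf
    _ = T.card := by rw [Nat.card_eq_fintype_card, Fintype.card_coe]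

theorem inner_real {n : ℕ} (σ : Perm (Fin n)) (m : ℕ) (hs : 1 ≤ (mv σ).card) :
    (Nat.card {H : SimpleGraph (Fin n) // IsAut H σ ∧ (∀ x y, H.Adj x y → σ x ≠ x ∧ σ y ≠ y) ∧
      ∑ v ∈ Rep σ, (inN σ H v).card ≤ 2 * m + 1} : ℝ) ≤
    6 ^ (Rep σ).card * ((mv σ).card : ℝ) ^ m := by
  set o := (Rep σ).card with ho
  set s := (mv σ).card with hs'
  have h1 := inner_count σ m
  have h2 : ((∑ j ∈ Finset.range (m + 1), (o * s).choose j : ℕ) : ℝ) ≤
      3 ^ o * (s : ℝ) ^ m := by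
    have hs1 : (1 : ℝ) ≤ s := by exact_mod_cast hs
    rw [Nat.cast_sum]
    calc ∑ j ∈ Finset.range (m + 1), ((o * s).choose j : ℝ)
        ≤ ∑ j ∈ Finset.range (m + 1), (s : ℝ) ^ m * ((o : ℝ) ^ j / (j.factorial : ℝ)) := by
          refine Finset.sum_le_sum fun j hj => ?_
          have h3 : ((o * s).choose j : ℝ) ≤ ((o * s : ℕ) : ℝ) ^ j / (j.factorial : ℝ) :=
            Nat.choose_le_pow_div j (o * s)
          have h4 : (s : ℝ) ^ j ≤ (s : ℝ) ^ m :=
            pow_le_pow_right₀ hs1 (by rw [Finset.mem_range] at hj; omega)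
          calc ((o * s).choose j : ℝ) ≤ ((o * s : ℕ) : ℝ) ^ j / (j.factorial : ℝ) := h3
            _ = (s : ℝ) ^ j * ((o : ℝ) ^ j / (j.factorial : ℝ)) := by
                rw [Nat.cast_mul, mul_pow]; ring
            _ ≤ _ := by gcongr
      _ = (s : ℝ) ^ m * ∑ j ∈ Finset.range (m + 1), (o : ℝ) ^ j / (j.factorial : ℝ) := by
          rw [Finset.mul_sum]
      _ ≤ (s : ℝ) ^ m * Real.exp o := by
          gcongr
          exact Real.sum_le_exp_of_nonneg (by positivity) _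
      _ ≤ (s : ℝ) ^ m * 3 ^ o := by
          gcongr
          rw [show Real.exp (o : ℝ) = (Real.exp 1) ^ o by rw [← Real.exp_nat_mul, mul_one]]
          gcongr
          linarith [Real.exp_one_lt_d9]
      _ = _ := by ring
  calc (Nat.card {H : SimpleGraph (Fin n) // IsAut H σ ∧
        (∀ x y, H.Adj x y → σ x ≠ x ∧ σ y ≠ y) ∧
        ∑ v ∈ Rep σ, (inN σ H v).card ≤ 2 * m + 1} : ℝ)
      ≤ ((2 ^ o * ∑ j ∈ Finset.range (m + 1), (o * s).choose j : ℕ) : ℝ) := by
        exact_mod_cast h1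
    _ = 2 ^ o * ((∑ j ∈ Finset.range (m + 1), (o * s).choose j : ℕ) : ℝ) := by push_cast; ring
    _ ≤ 2 ^ o * (3 ^ o * (s : ℝ) ^ m) := by gcongr
    _ = _ := by
        rw [show (6 : ℝ) = 2 * 3 by norm_num, mul_pow]
        ring

end MPbcd198.T
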