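import Pool.Agent.Lib.MP_bcd198_co.T.FixS
import Pool.Agent.Lib.MP_bcd198_co.T.InA
import Pool.Agent.Lib.MP_bcd198_co.T.Cfg

/-!
# JOB T/FixA: number of regular graphs with a given automorphism and given outer neighbourhoods

Notation of FixS.lean: `A = mv σ`, `s = |A| ≥ 1`, `R = Rep σ`, `o = |R|` (`o ≤ s/2`, `rep_card`). Fix `f` and let `𝓖 = {G : Reg d G, IsAut G σ, outN σ G v = f v for all v ∈ R}`; assume it is not
empty (otherwise the left side is `0`) and choose `G₀ ∈ 𝓖`. `X₀ = ∑_{v ∈ R} |f v|`, `X = ∑_{v ∈ A} |outN σ G₀ v|`.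
1. For `G ∈ 𝓖`, `v` moved, `b` fixed: `G.Adj v b ↔ G₀.Adj v b` (`v = (σ^k) u`, `rep_cover`, `out_pow`: `outN G v = outN G u = f u`). So all `G ∈ 𝓖` have the same numbers
   `δ(b) := |outN σ G b| = d - |inN σ G b|` for fixed `b` (`out_in`).
2. `G ↦ (H, G_B)`: `H` = the edges of `G` with both ends moved (a graph on `Fin n`, `σ`-invariant, `inN σ H v = inN σ G v` for `v ∈ R`), `G_B` = the graph induced on
   `{b // σ b = b}` (degree of `b` is `δ(b)`). By 1. the pair determines `G`: injective. By `sum_in_rep` `∑_{v ∈ R} |inN v| = d o - X₀ ≤ 2m + 1` with `m := (d o - X₀)/2`. So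
   `|𝓖| ≤ (6^o s^m) · (MNum(D/2)/∏_b δ(b)!)`, `D = ∑_b δ(b) = d(n-s) - X` (`inner_real`, `deg_count` on the type `{b // σ b = b}`, `sum_fixed`).
3. `D` is even (`deg_even`) and `dn` is even, so `dn - D = d s + X = 2h` (`s ≤ n`), `D/2 = dn/2 - h`, `h ≤ dn/2`, and `MNum_ratio`: `MNum(D/2) ≤ MNum(dn/2) (3/(dn/2))^h ≤ MNum(dn/2) (6/n)^h` (`d ≥ 1`).
   With `y = 1/√n`: `(1/n)^h = y^(2h) = y^(ds) y^X ≤ y^(ds) y^(2X₀) = y^(ds) (1/n)^(X₀)` (`two_X`, `y ≤ 1`); `6^h ≤ 6^(ds)` (`2h = ds + X ≤ 2ds`, `X_le`).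
4. `∏_b δ(b)! ≥ (d!)^(n-s)/(d!)^(#{b : δ(b) ≠ d})`, `#{...} ≤ X₀ ≤ d o ≤ d s` (`few_low`, `X_le`), so `1/∏ δ(b)! ≤ (d!)^(ds) (d!)^s/(d!)^n`.
5. `s^m ≤ √s^(2m) ≤ √s^(do)` (`s ≥ 1`, `2m ≤ do`), `6^o ≤ 6^s`.
Together: `|𝓖| ≤ K^s √s^(do) y^(ds) (1/n)^(X₀) MNum(dn/2)/(d!)^n` with `K = 6 · 6^d · (d!)^(d+1)`.
-/

set_option autoImplicit false

namespace MPbcd198.T

open Equiv

private theorem FixA_mem_out {n : ℕ} {σ : Perm (Fin n)} {G : SimpleGraph (Fin n)} {v w : Fin n} :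
    w ∈ outN σ G v ↔ G.Adj v w ∧ σ w = w := by
  unfold outN
  simp

private theorem FixA_mem_in {n : ℕ} {σ : Perm (Fin n)} {G : SimpleGraph (Fin n)} {v w : Fin n} :
    w ∈ inN σ G v ↔ G.Adj v w ∧ σ w ≠ w := by
  unfold inN
  simp

private theorem FixA_mem_mv {n : ℕ} {σ : Perm (Fin n)} {v : Fin n} : v ∈ mv σ ↔ σ v ≠ v := by
  unfold mv
  simp

section
variable {n d : ℕ} {σ : Perm (Fin n)} {f : Fin n → Finset (Fin n)} {G G₀ : SimpleGraph (Fin n)}

private theorem FixA_out (h : IsAut G σ) (h0 : IsAut G₀ σ) (hf : ∀ v ∈ Rep σ, outN σ G v = f v)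
    (hf0 : ∀ v ∈ Rep σ, outN σ G₀ v = f v) {v : Fin n} (hv : σ v ≠ v) :
    outN σ G v = outN σ G₀ v := by
  obtain ⟨u, hu, k, rfl⟩ := rep_cover σ v hv
  rw [out_pow h, out_pow h0, hf u hu, hf0 u hu]

private theorem FixA_adj (h : IsAut G σ) (h0 : IsAut G₀ σ) (hf : ∀ v ∈ Rep σ, outN σ G v = f v)
    (hf0 : ∀ v ∈ Rep σ, outN σ G₀ v = f v) {v b : Fin n} (hv : σ v ≠ v) (hb : σ b = b) :
    G.Adj v b ↔ G₀.Adj v b := by
  have h1 := FixA_out h h0 hf hf0 hv
  constructor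
  · intro h2
    have h3 : b ∈ outN σ G v := FixA_mem_out.2 ⟨h2, hb⟩
    rw [h1] at h3
    exact (FixA_mem_out.1 h3).1
  · intro h2
    have h3 : b ∈ outN σ G₀ v := FixA_mem_out.2 ⟨h2, hb⟩
    rw [← h1] at h3
    exact (FixA_mem_out.1 h3).1

private theorem FixA_out_fixed (hG : Reg d G) (hG0 : Reg d G₀) (h : IsAut G σ) (h0 : IsAut G₀ σ)
    (hf : ∀ v ∈ Rep σ, outN σ G v = f v) (hf0 : ∀ v ∈ Rep σ, outN σ G₀ v = f v) {b : Fin n}
    (hb : σ b = b) : (outN σ G b).card = (outN σ G₀ b).card := by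
  have h1 := out_in (σ := σ) hG b
  have h2 := out_in (σ := σ) hG0 b
  have h3 : inN σ G b = inN σ G₀ b := by
    ext w
    rw [FixA_mem_in, FixA_mem_in]
    constructor
    · rintro ⟨h4, h5⟩
      exact ⟨((FixA_adj h h0 hf hf0 h5 hb).1 h4.symm).symm, h5⟩
    · rintro ⟨h4, h5⟩
      exact ⟨((FixA_adj h h0 hf hf0 h5 hb).2 h4.symm).symm, h5⟩
  rw [h3] at h1
  omega

/-- the edges with both ends moved -/
private def FixA_H (σ : Perm (Fin n)) (G : SimpleGraph (Fin n)) : SimpleGraph (Fin n) where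
  Adj x y := G.Adj x y ∧ σ x ≠ x ∧ σ y ≠ y
  symm := ⟨fun _ _ ⟨h1, h2, h3⟩ => ⟨h1.symm, h3, h2⟩⟩
  loopless := ⟨fun _ h => h.1.ne rfl⟩

private theorem FixA_H_aut (h : IsAut G σ) : IsAut (FixA_H σ G) σ := by
  intro x y
  change (G.Adj (σ x) (σ y) ∧ σ (σ x) ≠ σ x ∧ σ (σ y) ≠ σ y) ↔ (G.Adj x y ∧ σ x ≠ x ∧ σ y ≠ y)
  rw [h x y, σ.injective.ne_iff, σ.injective.ne_iff]

private theorem FixA_H_in {v : Fin n} (hv : σ v ≠ v) : inN σ (FixA_H σ G) v = inN σ G v := by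
  ext w
  rw [FixA_mem_in, FixA_mem_in]
  constructor
  · rintro ⟨h1, h2⟩
    exact ⟨h1.1, h2⟩
  · rintro ⟨h1, h2⟩
    exact ⟨⟨h1, hv, h2⟩, h2⟩

private theorem FixA_B_card (σ : Perm (Fin n)) (G : SimpleGraph (Fin n)) (b : {b // σ b = b}) :
    Nat.card ((G.comap (Subtype.val : {b // σ b = b} → Fin n)).neighborSet b) =
      (outN σ G b.1).card := by
  rw [← Fintype.card_coe, ← Nat.card_eq_fintype_card]
  exact Nat.card_congr
    { toFun := fun c => ⟨c.1.1, FixA_mem_out.2 ⟨c.2, c.1.2⟩⟩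
      invFun := fun x => ⟨⟨x.1, (FixA_mem_out.1 x.2).2⟩, (FixA_mem_out.1 x.2).1⟩
      left_inv := fun c => rfl
      right_inv := fun x => rfl }

end

/-- the injection `G ↦ (H, G_B)` -/
private theorem FixA_inj {n d : ℕ} (σ : Perm (Fin n)) (f : Fin n → Finset (Fin n))
    {G₀ : SimpleGraph (Fin n)} (hG₀ : Reg d G₀) (h0 : IsAut G₀ σ)
    (hf0 : ∀ v ∈ Rep σ, outN σ G₀ v = f v) {m : ℕ}
    (hm : d * (Rep σ).card ≤ 2 * m + 1 + ∑ v ∈ Rep σ, (f v).card) :
    Nat.card {G : SimpleGraph (Fin n) // Reg d G ∧ IsAut G σ ∧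
      ∀ v ∈ Rep σ, outN σ G v = f v} ≤
    Nat.card {H : SimpleGraph (Fin n) // IsAut H σ ∧ (∀ x y, H.Adj x y → σ x ≠ x ∧ σ y ≠ y) ∧
      ∑ v ∈ Rep σ, (inN σ H v).card ≤ 2 * m + 1} *
    Nat.card {G : SimpleGraph {b // σ b = b} //
      ∀ v, Nat.card (G.neighborSet v) = (outN σ G₀ v.1).card} := by
  rw [← Nat.card_prod]
  refine Nat.card_le_card_of_injective (fun G => (⟨FixA_H σ G.1, FixA_H_aut G.2.2.1,
    fun x y h => h.2, ?_⟩, ⟨G.1.comap (Subtype.val : {b // σ b = b} → Fin n), ?_⟩)) ?_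
  · have h1 := sum_in_rep (σ := σ) G.2.1
    have h2 : ∑ v ∈ Rep σ, (outN σ G.1 v).card = ∑ v ∈ Rep σ, (f v).card :=
      Finset.sum_congr rfl fun v hv => by rw [G.2.2.2 v hv]
    have h3 : ∑ v ∈ Rep σ, (inN σ (FixA_H σ G.1) v).card = ∑ v ∈ Rep σ, (inN σ G.1 v).card :=
      Finset.sum_congr rfl fun v hv => by rw [FixA_H_in (FixA_mem_mv.1 (rep_sub σ hv))]
    rw [h3]
    omega
  · intro v
    rw [FixA_B_card]
    exact FixA_out_fixed G.2.1 hG₀ G.2.2.1 h0 G.2.2.2 hf0 v.2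
  · rintro ⟨G, hG1, hG2, hG3⟩ ⟨G', hG1', hG2', hG3'⟩ h
    have h1 : FixA_H σ G = FixA_H σ G' := congrArg (fun x => x.1.1) h
    have h2 : G.comap (Subtype.val : {b // σ b = b} → Fin n) =
      G'.comap (Subtype.val : {b // σ b = b} → Fin n) := congrArg (fun x => x.2.1) h
    apply Subtype.ext
    ext v w
    change G.Adj v w ↔ G'.Adj v w
    by_cases hv : σ v = v
    · by_cases hw : σ w = w
      · have h3 : (G.comap (Subtype.val : {b // σ b = b} → Fin n)).Adj ⟨v, hv⟩ ⟨w, hw⟩ ↔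
          (G'.comap (Subtype.val : {b // σ b = b} → Fin n)).Adj ⟨v, hv⟩ ⟨w, hw⟩ := by rw [h2]
        exact h3
      · rw [SimpleGraph.adj_comm, FixA_adj hG2 h0 hG3 hf0 hw hv, ← FixA_adj hG2' h0 hG3' hf0 hw hv,
          SimpleGraph.adj_comm]
    · by_cases hw : σ w = w
      · rw [FixA_adj hG2 h0 hG3 hf0 hv hw, ← FixA_adj hG2' h0 hG3' hf0 hv hw]
      · have h3 : (FixA_H σ G).Adj v w ↔ (FixA_H σ G').Adj v w := by rw [h1]
        constructor
        · intro h4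
          exact (h3.1 ⟨h4, hv, hw⟩).1
        · intro h4
          exact (h3.2 ⟨h4, hv, hw⟩).1

/-- lower bound for the product of the factorials -/
private theorem FixA_prod {n d : ℕ} {σ : Perm (Fin n)} {G₀ : SimpleGraph (Fin n)}
    (hG₀ : Reg d G₀) (h0 : IsAut G₀ σ) :
    (d.factorial : ℝ) ^ n ≤ (∏ v : {b // σ b = b}, ((outN σ G₀ v.1).card.factorial : ℝ)) *
      (d.factorial : ℝ) ^ ((mv σ).card + d * (mv σ).card) := by
  classical
  set s := (mv σ).card with hs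
  have hd1 : 1 ≤ d.factorial := Nat.one_le_iff_ne_zero.2 (Nat.factorial_ne_zero d)
  set good := Finset.univ.filter fun b : {b // σ b = b} => (outN σ G₀ b.1).card = d with hgood
  have hprod : d.factorial ^ good.card ≤ ∏ v : {b // σ b = b}, (outN σ G₀ v.1).card.factorial := by
    have h1 : ∏ v : {b // σ b = b}, (if (outN σ G₀ v.1).card = d then d.factorial else 1) =
        d.factorial ^ good.card := by
      rw [Finset.prod_ite, Finset.prod_const, Finset.prod_const_one, mul_one]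
    rw [← h1]
    apply Finset.prod_le_prod'
    intro v _
    split_ifs with h2
    · rw [h2]
    · exact Nat.one_le_iff_ne_zero.2 (Nat.factorial_ne_zero _)
  have hcount : n ≤ good.card + (s + d * s) := by
    have h1 : (Finset.univ.filter fun b : {b // σ b = b} => (outN σ G₀ b.1).card ≠ d).card ≤
        ∑ v ∈ Rep σ, (outN σ G₀ v).card := by
      refine le_trans ?_ (few_low hG₀ h0)
      rw [← Finset.card_map (Function.Embedding.subtype fun b => σ b = b)]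
      refine Finset.card_le_card fun x hx => ?_
      rw [Finset.mem_map] at hx
      obtain ⟨y, hy, rfl⟩ := hx
      rw [Finset.mem_filter] at hy ⊢
      exact ⟨Finset.mem_univ _, y.2, hy.2⟩
    have h2 := (X_le (σ := σ) hG₀).2
    have h3 := rep_card σ
    have h4 : good.card + (Finset.univ.filter fun b : {b // σ b = b} =>
        (outN σ G₀ b.1).card ≠ d).card = Fintype.card {b // σ b = b} :=
      Finset.card_filter_add_card_filter_not _
    have h5 : Fintype.card {b // σ b = b} + s = n := by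
      have h6 : (Finset.univ.filter fun b : Fin n => σ b = b).card +
          (Finset.univ.filter fun b : Fin n => ¬ σ b = b).card = Fintype.card (Fin n) :=
        Finset.card_filter_add_card_filter_not _
      have h7 : (Finset.univ.filter fun b : Fin n => ¬ σ b = b) = mv σ := by
        ext b
        rw [FixA_mem_mv]
        simp
      rw [h7, Fintype.card_fin, ← Fintype.card_subtype] at h6
      exact h6
    have h8 : d * (Rep σ).card ≤ d * s := Nat.mul_le_mul_left d (by omega)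
    omega
  have hnat : d.factorial ^ n ≤ (∏ v : {b // σ b = b}, (outN σ G₀ v.1).card.factorial) *
      d.factorial ^ (s + d * s) := by
    calc d.factorial ^ n ≤ d.factorial ^ (good.card + (s + d * s)) :=
          Nat.pow_le_pow_right hd1 hcount
      _ = d.factorial ^ good.card * d.factorial ^ (s + d * s) := pow_add _ _ _
      _ ≤ _ := Nat.mul_le_mul_right _ hprod
  exact_mod_cast hnat

private theorem FixA_final {n d s o m X₀ : ℕ} {N NH NB P F y Md Mm : ℝ} (hs1 : 1 ≤ s)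
    (hm : 2 * m ≤ d * o) (hos : o ≤ s) (hinj : N ≤ NH * NB)
    (hinner : NH ≤ 6 ^ o * (s : ℝ) ^ m) (hcount : NB * P ≤ Md)
    (hstep3 : Md ≤ Mm * (6 ^ (d * s) * (y ^ (d * s) * (1 / (n : ℝ)) ^ X₀)))
    (hprod : F ^ n ≤ P * F ^ (s + d * s)) (hF : 0 < F) (hNH0 : 0 ≤ NH) (hNB0 : 0 ≤ NB)
    (hP0 : 0 ≤ P) (hMm : 0 < Mm) (hy0 : 0 < y) :
    N * F ^ n ≤ (6 * 6 ^ d * F ^ (d + 1)) ^ s * √(s : ℝ) ^ (d * o) * y ^ (d * s) *
        (1 / (n : ℝ)) ^ X₀ * Mm := by
  have hsr : (1 : ℝ) ≤ (s : ℝ) := by exact_mod_cast hs1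
  have hs0 : (0 : ℝ) ≤ (s : ℝ) := by positivity
  have hstep5 : (s : ℝ) ^ m ≤ √(s : ℝ) ^ (d * o) := by
    calc (s : ℝ) ^ m = (√(s : ℝ) ^ 2) ^ m := by rw [Real.sq_sqrt hs0]
      _ = √(s : ℝ) ^ (2 * m) := by rw [pow_mul]
      _ ≤ √(s : ℝ) ^ (d * o) := pow_le_pow_right₀ (Real.one_le_sqrt.2 hsr) hm
  have hstep5' : (6 : ℝ) ^ o ≤ 6 ^ s := pow_le_pow_right₀ (by norm_num) hos
  calc N * F ^ n ≤ (NH * NB) * (P * F ^ (s + d * s)) := by
        gcongr
    _ = NH * (NB * P) * F ^ (s + d * s) := by ring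
    _ ≤ (6 ^ s * √(s : ℝ) ^ (d * o)) *
        (Mm * (6 ^ (d * s) * (y ^ (d * s) * (1 / (n : ℝ)) ^ X₀))) * F ^ (s + d * s) := by
        have h1 : NH ≤ 6 ^ s * √(s : ℝ) ^ (d * o) := by
          refine le_trans hinner ?_
          gcongr
        have h2 : NB * P ≤ Mm * (6 ^ (d * s) * (y ^ (d * s) * (1 / (n : ℝ)) ^ X₀)) :=
          le_trans hcount hstep3
        have h3 : 0 ≤ NB * P := mul_nonneg hNB0 hP0
        gcongr
    _ = (6 * 6 ^ d * F ^ (d + 1)) ^ s * √(s : ℝ) ^ (d * o) * y ^ (d * s) *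
        (1 / (n : ℝ)) ^ X₀ * Mm := by
        rw [mul_pow, mul_pow, ← pow_mul, ← pow_mul,
          show (d + 1) * s = s + d * s by ring]
        ring

theorem fix_count {n d : ℕ} (hd : 1 ≤ d) (hn : Even (d * n)) (σ : Perm (Fin n)) (hσ : σ ≠ 1)
    (f : Fin n → Finset (Fin n)) :
    (Nat.card {G : SimpleGraph (Fin n) // Reg d G ∧ IsAut G σ ∧
      ∀ v ∈ Rep σ, outN σ G v = f v} : ℝ) ≤
    (6 * 6 ^ d * (d.factorial : ℝ) ^ (d + 1)) ^ (mv σ).card *
      √((mv σ).card : ℝ) ^ (d * (Rep σ).card) * (1 / √(n : ℝ)) ^ (d * (mv σ).card) *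
      (1 / (n : ℝ)) ^ (∑ v ∈ Rep σ, (f v).card) * (MNum (d * n / 2) / (d.factorial : ℝ) ^ n) := by
  classical
  set s := (mv σ).card with hs
  set o := (Rep σ).card with ho
  have hs1 : 1 ≤ s := by
    rw [hs, Nat.one_le_iff_ne_zero, Ne, Finset.card_eq_zero]
    intro h
    apply hσ
    ext v
    by_contra hv
    have h1 : v ∈ mv σ := FixA_mem_mv.2 fun h2 => hv (by rw [h2]; rfl)
    rw [h] at h1
    exact absurd h1 (Finset.notMem_empty v)
  have hsn : s ≤ n := by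
    have := Finset.card_le_univ (mv σ)
    rwa [Fintype.card_fin] at this
  have ho2 : 2 * o ≤ s := rep_card σ
  by_cases hne : Nonempty {G : SimpleGraph (Fin n) // Reg d G ∧ IsAut G σ ∧
      ∀ v ∈ Rep σ, outN σ G v = f v}
  swap
  · rw [not_nonempty_iff] at hne
    rw [Nat.card_of_isEmpty, Nat.cast_zero]
    have := MNum_pos (d * n / 2)
    positivity
  obtain ⟨G₀, hG₀, h0, hf0⟩ := hne
  set X₀ := ∑ v ∈ Rep σ, (f v).card with hX₀
  have hX₀' : ∑ v ∈ Rep σ, (outN σ G₀ v).card = X₀ :=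
    Finset.sum_congr rfl fun v hv => by rw [hf0 v hv]
  set X := ∑ v ∈ mv σ, (outN σ G₀ v).card with hX
  have h2X : 2 * X₀ ≤ X := by
    rw [← hX₀']
    exact two_X h0
  have hXle : X ≤ d * s := (X_le hG₀).1
  have hXle0 : X₀ ≤ d * o := by
    rw [← hX₀']
    exact (X_le hG₀).2
  set m := (d * o - X₀) / 2 with hm
  have hinj := FixA_inj σ f hG₀ h0 hf0 (m := m) (by rw [← ho, ← hX₀]; omega)
  -- the number `D`
  set D := ∑ v : {b // σ b = b}, (outN σ G₀ v.1).card with hD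
  have hDX : D + X = d * (n - s) := by
    rw [← sum_fixed (σ := σ) hG₀, hD, hX]
    congr 1
    exact (Finset.sum_subtype _ (by simp) fun b => (outN σ G₀ b).card).symm
  have hDe : Even D := deg_even _ (G₀.comap (Subtype.val : {b // σ b = b} → Fin n))
    (FixA_B_card σ G₀)
  have hdn : d * (n - s) + d * s = d * n := by
    rw [← mul_add, Nat.sub_add_cancel hsn]
  obtain ⟨M, hM⟩ := hn
  obtain ⟨D', hD'⟩ := hDe
  have hMn : d * n / 2 = M := by omega
  have hDn : D / 2 = D' := by omega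
  set h := M - D' with hh
  have hDM : D' ≤ M := by omega
  have h2h : 2 * h = X + d * s := by omega
  have hhM : h ≤ M := by omega
  have hMh : M - h = D' := by omega
  have hcount := deg_count fun v : {b // σ b = b} => (outN σ G₀ v.1).card
  rw [← hD, hDn] at hcount
  have hratio := MNum_ratio hhM
  rw [hMh] at hratio
  have hn0 : (0 : ℝ) < n := by
    have : 0 < n := by omega
    exact_mod_cast this
  have hMreal : (M : ℝ) = d * n / 2 := by
    have h1 : ((d * n : ℕ) : ℝ) = ((M + M : ℕ) : ℝ) := by rw [hM]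
    push_cast at h1
    linarith
  have hd' : (1 : ℝ) ≤ d := by exact_mod_cast hd
  have hMge : (n : ℝ) / 6 ≤ (M : ℝ) / 3 := by
    rw [hMreal]
    nlinarith
  -- step 3
  set y : ℝ := 1 / √(n : ℝ) with hy
  have hsq : 0 < √(n : ℝ) := Real.sqrt_pos.2 hn0
  have hy0 : 0 < y := by positivity
  have hy2 : y ^ 2 = 1 / n := by
    rw [hy, div_pow, one_pow, Real.sq_sqrt hn0.le]
  have hy1 : y ≤ 1 := by
    have h1 : (1 : ℝ) ≤ n := by
      have : 1 ≤ n := by omega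
      exact_mod_cast this
    rw [hy, div_le_one hsq]
    exact Real.one_le_sqrt.2 h1
  have hstep3 : MNum D' ≤ MNum M * (6 ^ (d * s) * (y ^ (d * s) * (1 / (n : ℝ)) ^ X₀)) := by
    have h1 : MNum D' * ((n : ℝ) / 6) ^ h ≤ MNum M := by
      refine le_trans ?_ hratio
      have := MNum_pos D'
      gcongr
    have h2 : ((n : ℝ) / 6) ^ h * (6 ^ h * (1 / (n : ℝ)) ^ h) = 1 := by
      rw [← mul_pow, ← mul_pow]
      have : (n : ℝ) / 6 * (6 * (1 / n)) = 1 := by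
        field_simp
      rw [this, one_pow]
    have h3 : MNum D' ≤ MNum M * (6 ^ h * (1 / (n : ℝ)) ^ h) := by
      calc MNum D' = MNum D' * (((n : ℝ) / 6) ^ h * (6 ^ h * (1 / (n : ℝ)) ^ h)) := by
            rw [h2, mul_one]
        _ = (MNum D' * ((n : ℝ) / 6) ^ h) * (6 ^ h * (1 / (n : ℝ)) ^ h) := by ring
        _ ≤ MNum M * (6 ^ h * (1 / (n : ℝ)) ^ h) := by gcongr
    refine le_trans h3 ?_
    have h4 : (1 / (n : ℝ)) ^ h ≤ y ^ (d * s) * (1 / (n : ℝ)) ^ X₀ := by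
      rw [← hy2, ← pow_mul, ← pow_mul, ← pow_add]
      apply pow_le_pow_of_le_one hy0.le hy1
      omega
    have h5 : (6 : ℝ) ^ h ≤ 6 ^ (d * s) := by
      apply pow_le_pow_right₀ (by norm_num)
      omega
    have := MNum_pos M
    gcongr
  have hinner := inner_real σ m hs1
  have hprod := FixA_prod (d := d) hG₀ h0
  rw [← hs] at hprod hinner
  rw [← ho] at hinner
  set P : ℝ := ∏ v : {b // σ b = b}, ((outN σ G₀ v.1).card.factorial : ℝ) with hP
  set NH : ℝ := (Nat.card {H : SimpleGraph (Fin n) // IsAut H σ ∧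
    (∀ x y, H.Adj x y → σ x ≠ x ∧ σ y ≠ y) ∧
      ∑ v ∈ Rep σ, (inN σ H v).card ≤ 2 * m + 1} : ℝ) with hNH
  set NB : ℝ := (Nat.card {G : SimpleGraph {b // σ b = b} //
      ∀ v, Nat.card (G.neighborSet v) = (outN σ G₀ v.1).card} : ℝ) with hNB
  set N : ℝ := (Nat.card {G : SimpleGraph (Fin n) // Reg d G ∧ IsAut G σ ∧
      ∀ v ∈ Rep σ, outN σ G v = f v} : ℝ) with hN
  have hinj' : N ≤ NH * NB := by
    rw [hN, hNH, hNB]
    exact_mod_cast hinj
  have hF : (0 : ℝ) < d.factorial := by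
    have := Nat.factorial_pos d
    exact_mod_cast this
  have hNH0 : 0 ≤ NH := Nat.cast_nonneg _
  have hNB0 : 0 ≤ NB := Nat.cast_nonneg _
  have hP0 : 0 ≤ P := Finset.prod_nonneg fun v _ => Nat.cast_nonneg _
  rw [hMn, ← mul_div_assoc, le_div_iff₀ (by positivity)]
  have hMM := MNum_pos M
  exact FixA_final hs1 (by omega) (by omega) hinj' hinner hcount hstep3 hprod hF hNH0 hNB0 hP0
    hMM hy0

end MPbcd198.T
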