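import Pool.Agent.Lib.MP_bcd198_co.T.FixA

/-!
# JOB T/FixB: number of regular graphs with a given automorphism

Sum `fix_count` over the families `f = (f v)_{v ∈ Rep σ}` of subsets of `Fin n` with `|f v| ≤ d` (for a `d`-regular graph `|outN σ G v| ≤ d`, `out_in`): e.g. `f` runs over the functions
`Fin n → Finset (Fin n)` with `f v = ∅` for `v ∉ Rep σ` and `|f v| ≤ d` (`Fintype.piFinset`), every `G` belongs to exactly one of them. With
`∑_f (1/n)^(∑_{v ∈ R} |f v|) = ∏_{v ∈ R} ∑_{S, |S| ≤ d} (1/n)^|S|` (`Finset.prod_univ_sum` / `Finset.prod_sum`) and `∑_{S, |S| ≤ d} (1/n)^|S| = ∑_{j ≤ d} binom(n,j)/n^j ≤ d + 1`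
(`Nat.choose_le_pow`), the total is at most `(d+1)^o ≤ (d+1)^s` times the rest. (`o ≤ s` by `rep_card`.) Here `n ≥ 1` because `σ ≠ 1`.
-/

set_option autoImplicit false

namespace MPbcd198.T

open Equiv

open Classical in
private theorem small_sum {n d : ℕ} (hn : 1 ≤ n) :
    ∑ S ∈ (Finset.univ : Finset (Finset (Fin n))).filter (fun S => S.card ≤ d),
      (1 / (n : ℝ)) ^ S.card ≤ (d : ℝ) + 1 := by
  have hmap : ∀ S ∈ (Finset.univ : Finset (Finset (Fin n))).filter (fun S => S.card ≤ d),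
      S.card ∈ Finset.range (d + 1) := by
    intro S hS
    have := (Finset.mem_filter.1 hS).2
    exact Finset.mem_range.2 (by omega)
  rw [← Finset.sum_fiberwise_of_maps_to hmap]
  have hn0 : (0 : ℝ) < n := by exact_mod_cast hn
  have h1 : ∀ j ∈ Finset.range (d + 1),
      ∑ S ∈ ((Finset.univ : Finset (Finset (Fin n))).filter (fun S => S.card ≤ d)).filter
        (fun S => S.card = j), (1 / (n : ℝ)) ^ S.card ≤ 1 := by
    intro j _
    have h2 : ∑ S ∈ ((Finset.univ : Finset (Finset (Fin n))).filter (fun S => S.card ≤ d)).filter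
        (fun S => S.card = j), (1 / (n : ℝ)) ^ S.card ≤
        ∑ S ∈ Finset.powersetCard j (Finset.univ : Finset (Fin n)), (1 / (n : ℝ)) ^ j := by
      rw [Finset.sum_congr rfl (g := fun _ => (1 / (n : ℝ)) ^ j)
        (fun S hS => by rw [(Finset.mem_filter.1 hS).2])]
      refine Finset.sum_le_sum_of_subset_of_nonneg ?_ ?_
      · intro S hS
        rw [Finset.mem_powersetCard]
        exact ⟨Finset.subset_univ _, (Finset.mem_filter.1 hS).2⟩
      · intro S _ _
        positivity
    refine h2.trans ?_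
    rw [Finset.sum_const, Finset.card_powersetCard, Finset.card_univ, Fintype.card_fin,
      nsmul_eq_mul, one_div, inv_pow]
    have h3 : ((n.choose j : ℕ) : ℝ) ≤ (n : ℝ) ^ j := by
      exact_mod_cast Nat.choose_le_pow n j
    have h4 : (0 : ℝ) < (n : ℝ) ^ j := by positivity
    rw [← div_eq_mul_inv, div_le_one h4]
    exact h3
  refine (Finset.sum_le_sum h1).trans ?_
  simp

theorem fix_bound {n d : ℕ} (hd : 1 ≤ d) (hn : Even (d * n)) (σ : Perm (Fin n)) (hσ : σ ≠ 1) :
    (Nat.card {G : SimpleGraph (Fin n) // Reg d G ∧ IsAut G σ} : ℝ) ≤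
    ((d + 1) * (6 * 6 ^ d * (d.factorial : ℝ) ^ (d + 1))) ^ (mv σ).card *
      √((mv σ).card : ℝ) ^ (d * (Rep σ).card) * (1 / √(n : ℝ)) ^ (d * (mv σ).card) *
      (MNum (d * n / 2) / (d.factorial : ℝ) ^ n) := by
  classical
  -- `n ≥ 1`
  have hn1 : 1 ≤ n := by
    by_contra h
    have h0 : n = 0 := by omega
    subst h0
    exact hσ (Subsingleton.elim _ _)
  set K : ℝ := 6 * 6 ^ d * (d.factorial : ℝ) ^ (d + 1) with hK
  set C : ℝ := √((mv σ).card : ℝ) ^ (d * (Rep σ).card) * (1 / √(n : ℝ)) ^ (d * (mv σ).card)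
    with hC
  set M : ℝ := MNum (d * n / 2) / (d.factorial : ℝ) ^ n with hM
  have hK0 : 0 ≤ K := by positivity
  have hC0 : 0 ≤ C := by positivity
  have hM0 : 0 ≤ M := by
    rw [hM]; unfold MNum; positivity
  -- the families
  let 𝒮 : Finset (Finset (Fin n)) := Finset.univ.filter (fun S => S.card ≤ d)
  let t : Fin n → Finset (Finset (Fin n)) := fun v => if v ∈ Rep σ then 𝒮 else {∅}
  let P : (Fin n → Finset (Fin n)) → SimpleGraph (Fin n) → Prop := fun f G =>
    Reg d G ∧ IsAut G σ ∧ ∀ v ∈ Rep σ, outN σ G v = f v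
  have hsub : (Finset.univ.filter fun G : SimpleGraph (Fin n) => Reg d G ∧ IsAut G σ) ⊆
      (Fintype.piFinset t).biUnion fun f => Finset.univ.filter fun G => P f G := by
    intro G hG
    rw [Finset.mem_filter] at hG
    obtain ⟨-, hreg, haut⟩ := hG
    rw [Finset.mem_biUnion]
    refine ⟨fun v => if v ∈ Rep σ then outN σ G v else ∅, ?_, ?_⟩
    · rw [Fintype.mem_piFinset]
      intro v
      by_cases hv : v ∈ Rep σ
      · simp only [t, if_pos hv, 𝒮, Finset.mem_filter, Finset.mem_univ, true_and]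
        have := out_in (σ := σ) hreg v
        omega
      · simp only [t, if_neg hv, Finset.mem_singleton]
    · rw [Finset.mem_filter]
      refine ⟨Finset.mem_univ _, hreg, haut, ?_⟩
      intro v hv
      simp only [if_pos hv]
  have hcard : (Nat.card {G : SimpleGraph (Fin n) // Reg d G ∧ IsAut G σ} : ℝ) ≤
      ∑ f ∈ Fintype.piFinset t, (Nat.card {G : SimpleGraph (Fin n) // P f G} : ℝ) := by
    have h1 : Nat.card {G : SimpleGraph (Fin n) // Reg d G ∧ IsAut G σ} =
        (Finset.univ.filter fun G : SimpleGraph (Fin n) => Reg d G ∧ IsAut G σ).card := by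
      rw [Nat.card_eq_fintype_card, Fintype.card_subtype]
    have h2 : ∀ f, Nat.card {G : SimpleGraph (Fin n) // P f G} =
        (Finset.univ.filter fun G : SimpleGraph (Fin n) => P f G).card := by
      intro f
      rw [Nat.card_eq_fintype_card, Fintype.card_subtype]
    have h3 := (Finset.card_le_card hsub).trans Finset.card_biUnion_le
    rw [h1]
    simp only [h2]
    exact_mod_cast h3
  have hterm : ∀ f ∈ Fintype.piFinset t,
      (Nat.card {G : SimpleGraph (Fin n) // P f G} : ℝ) ≤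
      K ^ (mv σ).card * C * M * ∏ v, (if v ∈ Rep σ then (1 / (n : ℝ)) ^ (f v).card else 1) := by
    intro f _
    have h := fix_count hd hn σ hσ f
    rw [← hK, ← hM] at h
    have hprod : (∏ v, (if v ∈ Rep σ then (1 / (n : ℝ)) ^ (f v).card else 1)) =
        (1 / (n : ℝ)) ^ (∑ v ∈ Rep σ, (f v).card) := by
      rw [← Finset.prod_pow_eq_pow_sum, Finset.prod_ite_mem, Finset.univ_inter]
    rw [hprod]
    refine h.trans (le_of_eq ?_)
    rw [hC]
    clear_value K M
    ring
  have hsum : ∑ f ∈ Fintype.piFinset t,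
      ∏ v, (if v ∈ Rep σ then (1 / (n : ℝ)) ^ (f v).card else 1) ≤
      ((d : ℝ) + 1) ^ (mv σ).card := by
    have h1 := Finset.prod_univ_sum t
      (fun (v : Fin n) (S : Finset (Fin n)) => if v ∈ Rep σ then (1 / (n : ℝ)) ^ S.card else 1)
    rw [← h1]
    have h2 : ∀ v : Fin n, ∑ S ∈ t v, (if v ∈ Rep σ then (1 / (n : ℝ)) ^ S.card else 1) ≤
        if v ∈ Rep σ then ((d : ℝ) + 1) else 1 := by
      intro v
      by_cases hv : v ∈ Rep σ
      · simp only [t, if_pos hv]
        exact small_sum hn1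
      · simp only [t, if_neg hv, Finset.sum_singleton, le_refl]
    have h3 : ∏ v, ∑ S ∈ t v, (if v ∈ Rep σ then (1 / (n : ℝ)) ^ S.card else 1) ≤
        ∏ v : Fin n, (if v ∈ Rep σ then ((d : ℝ) + 1) else 1) := by
      refine Finset.prod_le_prod ?_ (fun v _ => h2 v)
      intro v _
      refine Finset.sum_nonneg ?_
      intro S _
      split_ifs <;> positivity
    refine h3.trans ?_
    rw [Finset.prod_ite_mem, Finset.univ_inter, Finset.prod_const]
    refine pow_le_pow_right₀ ?_ ?_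
    · have : (0 : ℝ) ≤ d := Nat.cast_nonneg d
      linarith
    · have := rep_card σ
      omega
  have hfin : K ^ (mv σ).card * C * M * ((d : ℝ) + 1) ^ (mv σ).card =
      ((d + 1) * K) ^ (mv σ).card * √((mv σ).card : ℝ) ^ (d * (Rep σ).card) *
          (1 / √(n : ℝ)) ^ (d * (mv σ).card) * M := by
    rw [mul_pow ((d : ℝ) + 1) K, hC]
    clear_value K M
    ring
  calc (Nat.card {G : SimpleGraph (Fin n) // Reg d G ∧ IsAut G σ} : ℝ)
      ≤ ∑ f ∈ Fintype.piFinset t, (Nat.card {G : SimpleGraph (Fin n) // P f G} : ℝ) := hcard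
    _ ≤ ∑ f ∈ Fintype.piFinset t, K ^ (mv σ).card * C * M *
          ∏ v, (if v ∈ Rep σ then (1 / (n : ℝ)) ^ (f v).card else 1) := Finset.sum_le_sum hterm
    _ = K ^ (mv σ).card * C * M * ∑ f ∈ Fintype.piFinset t,
          ∏ v, (if v ∈ Rep σ then (1 / (n : ℝ)) ^ (f v).card else 1) := by
        rw [Finset.mul_sum]
    _ ≤ K ^ (mv σ).card * C * M * ((d : ℝ) + 1) ^ (mv σ).card := by
        refine mul_le_mul_of_nonneg_left hsum ?_
        positivity
    _ = ((d + 1) * K) ^ (mv σ).card * √((mv σ).card : ℝ) ^ (d * (Rep σ).card) *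
          (1 / √(n : ℝ)) ^ (d * (mv σ).card) * M := hfin

end MPbcd198.T
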