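import Pool.Agent.Lib.MP_bcd198_co.T.RepA

/-!
# JOB T/FixS: degrees in a graph with an automorphism

`G` is `d`-regular on `Fin n`, `σ` an automorphism, `A = mv σ`, `s = |A|`, `R = Rep σ`, `o = |R|`; `outN σ G v` (`inN σ G v`) = the fixed (moved) neighbours of `v`
(Base.lean). Put `x_v = |outN σ G v|`, `X = ∑_{v ∈ A} x_v`, `X₀ = ∑_{v ∈ R} x_v`.
* `out_in`: `x_v + |inN v| = d` (`Reg`, partition of the neighbours).
* `out_pow`: `outN σ G ((σ^k) v) = outN σ G v`: for `w` fixed, `G.Adj (σ v) w ↔ G.Adj (σ v) (σ w) ↔ G.Adj v w`.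
* `two_X`: `2 X₀ ≤ X`: `R` and `σ R` are disjoint subsets of `A` (`rep_next`, `rep_sub`), and `x_{σ v} = x_v`.
* `X_le`: `X ≤ d s`, `X₀ ≤ d o`.
* `sum_in_rep`: `∑_{v ∈ R} |inN v| + X₀ = d o`.
* `sum_fixed`: `∑_{b fixed} |{c fixed : G.Adj b c}| + X = d (n - s)`: sum over the fixed `b` of `|outN b| + |inN b| = d`, and `∑_{b fixed} |inN b| = ∑_{v ∈ A} |outN v|`
  (both count the pairs `(v,b)`, `v` moved, `b` fixed, adjacent).
* `few_low`: the number of fixed `b` with `|outN b| ≠ d` is at most `X₀`: such a `b` has a neighbour `v ∈ A`, `v = (σ^k) u` with `u ∈ R` (`rep_cover`), so `b ∈ outN u`;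
  the number is at most `|⋃_{u ∈ R} outN u| ≤ X₀`.
-/

set_option autoImplicit false

namespace MPbcd198.T

open Equiv

private theorem FixS_nb {n : ℕ} (G : SimpleGraph (Fin n)) (v : Fin n) [DecidablePred (G.Adj v)] :
    Nat.card (G.neighborSet v) = (Finset.univ.filter fun w => G.Adj v w).card := by
  have h : Nat.card (G.neighborSet v) = Nat.card {w // G.Adj v w} := rfl
  rw [h, Nat.card_eq_fintype_card]
  exact Fintype.card_subtype _

theorem out_in {n d : ℕ} {σ : Perm (Fin n)} {G : SimpleGraph (Fin n)} (hG : Reg d G) (v : Fin n) :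
    (outN σ G v).card + (inN σ G v).card = d := by
  classical
  rw [← hG v, FixS_nb, ← Finset.card_filter_add_card_filter_not
    (s := Finset.univ.filter fun w => G.Adj v w) (fun w => σ w = w),
    Finset.filter_filter, Finset.filter_filter]
  congr 2

private theorem FixS_next {n : ℕ} {σ : Perm (Fin n)} {G : SimpleGraph (Fin n)} (hσ : IsAut G σ)
    (v : Fin n) : outN σ G (σ v) = outN σ G v := by
  classical
  ext w
  simp only [outN, Finset.mem_filter, Finset.mem_univ, true_and]
  constructor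
  · rintro ⟨h1, h2⟩
    refine ⟨?_, h2⟩
    rw [← hσ v w, h2]
    exact h1
  · rintro ⟨h1, h2⟩
    refine ⟨?_, h2⟩
    rw [← hσ v w, h2] at h1
    exact h1

theorem out_pow {n : ℕ} {σ : Perm (Fin n)} {G : SimpleGraph (Fin n)} (hσ : IsAut G σ)
    (v : Fin n) (k : ℕ) : outN σ G ((σ ^ k) v) = outN σ G v := by
  induction k with
  | zero => rw [pow_zero, Perm.one_apply]
  | succ k ih => rw [pow_succ', Perm.mul_apply, FixS_next hσ, ih]

theorem two_X {n : ℕ} {σ : Perm (Fin n)} {G : SimpleGraph (Fin n)} (hσ : IsAut G σ) :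
    2 * ∑ v ∈ Rep σ, (outN σ G v).card ≤ ∑ v ∈ mv σ, (outN σ G v).card := by
  classical
  have h1 : Disjoint (Rep σ) ((Rep σ).image σ) := by
    rw [Finset.disjoint_left]
    intro u hu hu'
    obtain ⟨v, hv, rfl⟩ := Finset.mem_image.1 hu'
    exact (rep_next σ v hv).1 hu
  have h2 : Rep σ ∪ (Rep σ).image σ ⊆ mv σ := by
    refine Finset.union_subset (rep_sub σ) fun u hu => ?_
    obtain ⟨v, hv, rfl⟩ := Finset.mem_image.1 hu
    exact (rep_next σ v hv).2
  have h3 : ∑ v ∈ (Rep σ).image σ, (outN σ G v).card = ∑ v ∈ Rep σ, (outN σ G v).card := by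
    rw [Finset.sum_image fun x _ y _ h => σ.injective h]
    exact Finset.sum_congr rfl fun v _ => by rw [FixS_next hσ]
  calc 2 * ∑ v ∈ Rep σ, (outN σ G v).card
      = ∑ v ∈ Rep σ ∪ (Rep σ).image σ, (outN σ G v).card := by
        rw [Finset.sum_union h1, h3, two_mul]
    _ ≤ ∑ v ∈ mv σ, (outN σ G v).card :=
        Finset.sum_le_sum_of_subset h2

private theorem FixS_le {n d : ℕ} {σ : Perm (Fin n)} {G : SimpleGraph (Fin n)} (hG : Reg d G)
    (A : Finset (Fin n)) : ∑ v ∈ A, (outN σ G v).card ≤ d * A.card := by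
  calc ∑ v ∈ A, (outN σ G v).card ≤ ∑ v ∈ A, d :=
        Finset.sum_le_sum fun v _ => by
          have := out_in (σ := σ) hG v
          omega
    _ = d * A.card := by rw [Finset.sum_const, smul_eq_mul, mul_comm]

theorem X_le {n d : ℕ} {σ : Perm (Fin n)} {G : SimpleGraph (Fin n)} (hG : Reg d G) :
    ∑ v ∈ mv σ, (outN σ G v).card ≤ d * (mv σ).card ∧
      ∑ v ∈ Rep σ, (outN σ G v).card ≤ d * (Rep σ).card :=
  ⟨FixS_le hG _, FixS_le hG _⟩

theorem sum_in_rep {n d : ℕ} {σ : Perm (Fin n)} {G : SimpleGraph (Fin n)} (hG : Reg d G) :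
    ∑ v ∈ Rep σ, (inN σ G v).card + ∑ v ∈ Rep σ, (outN σ G v).card = d * (Rep σ).card := by
  rw [← Finset.sum_add_distrib]
  calc ∑ v ∈ Rep σ, ((inN σ G v).card + (outN σ G v).card) = ∑ v ∈ Rep σ, d :=
        Finset.sum_congr rfl fun v _ => by rw [add_comm, out_in hG]
    _ = d * (Rep σ).card := by rw [Finset.sum_const, smul_eq_mul, mul_comm]

open Classical in
theorem sum_fixed {n d : ℕ} {σ : Perm (Fin n)} {G : SimpleGraph (Fin n)} (hG : Reg d G) :
    ∑ b ∈ Finset.univ.filter (fun b => σ b = b), (outN σ G b).card +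
      ∑ v ∈ mv σ, (outN σ G v).card = d * (n - (mv σ).card) := by
  have h1 : ∑ b ∈ Finset.univ.filter (fun b => σ b = b), (inN σ G b).card =
      ∑ v ∈ mv σ, (outN σ G v).card := by
    have h2 := Finset.sum_card_bipartiteAbove_eq_sum_card_bipartiteBelow
      (s := Finset.univ.filter (fun b => σ b = b)) (t := mv σ) (fun b v => G.Adj b v)
    have h3 : ∀ b, Finset.bipartiteAbove (fun b v => G.Adj b v) (mv σ) b = inN σ G b := by
      intro b
      ext v
      simp only [Finset.bipartiteAbove, mv, inN, Finset.mem_filter, Finset.mem_univ, true_and]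
      tauto
    have h4 : ∀ v, Finset.bipartiteBelow (fun b v => G.Adj b v)
        (Finset.univ.filter (fun b => σ b = b)) v = outN σ G v := by
      intro v
      ext b
      simp only [Finset.bipartiteBelow, outN, Finset.mem_filter, Finset.mem_univ, true_and]
      rw [G.adj_comm b v]
      tauto
    simp only [h3, h4] at h2
    exact h2
  rw [← h1, ← Finset.sum_add_distrib]
  have h5 : (Finset.univ.filter (fun b => σ b = b)).card = n - (mv σ).card := by
    have h6 := Finset.card_filter_add_card_filter_not (s := (Finset.univ : Finset (Fin n)))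
      (fun b => σ b = b)
    rw [Finset.card_univ, Fintype.card_fin] at h6
    have h7 : mv σ = Finset.univ.filter (fun b => ¬ σ b = b) := rfl
    rw [h7]
    omega
  calc ∑ b ∈ Finset.univ.filter (fun b => σ b = b), ((outN σ G b).card + (inN σ G b).card)
      = ∑ b ∈ Finset.univ.filter (fun b => σ b = b), d :=
        Finset.sum_congr rfl fun b _ => out_in hG b
    _ = d * (n - (mv σ).card) := by rw [Finset.sum_const, smul_eq_mul, mul_comm, h5]

open Classical in
theorem few_low {n d : ℕ} {σ : Perm (Fin n)} {G : SimpleGraph (Fin n)} (hG : Reg d G)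
    (hσ : IsAut G σ) :
    (Finset.univ.filter fun b => σ b = b ∧ (outN σ G b).card ≠ d).card ≤
      ∑ v ∈ Rep σ, (outN σ G v).card := by
  refine le_trans (Finset.card_le_card ?_) Finset.card_biUnion_le
  intro b hb
  obtain ⟨h1, h2⟩ := (Finset.mem_filter.1 hb).2
  have h3 : 0 < (inN σ G b).card := by
    have := out_in (σ := σ) hG b
    omega
  obtain ⟨v, hv⟩ := Finset.card_pos.1 h3
  obtain ⟨h4, h5⟩ : G.Adj b v ∧ σ v ≠ v := (Finset.mem_filter.1 hv).2
  obtain ⟨u, hu, k, hk⟩ := rep_cover σ v h5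
  rw [Finset.mem_biUnion]
  refine ⟨u, hu, ?_⟩
  rw [← out_pow hσ u k, hk]
  exact Finset.mem_filter.2 ⟨Finset.mem_univ _, h4.symm, h1⟩

end MPbcd198.T
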