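import Pool.Agent.Lib.MP_bcd198_co.T.Base

/-!
# JOB T/GrA: the graph of a matching without short cycles

`a` is a perfect matching of the darts `Fin n × Fin d` and contains no short cycle (`HasCyc`) of length `≤ g`, `g ≥ 2`. `gr a`: `v ~ w` iff `v ≠ w` and a dart of `v` is
matched with a dart of `w` (the relation is symmetric as `a` is an involution).
* no loops: `(a (v, i)).1 ≠ v`: if `a (v,i) = (v,j)`, then `j ≠ i` (`a` has no fixed point) and the index `k = 0`, `v_0 = v`, `out_0 = i`, `in_0 = j` is a cycle contained in `a`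
  (in `Fin 1` we have `j + 1 = j = 0`).
* no double edges: if `a (v,i) = (w,j)`, `a (v,i') = (w,j')` with `i ≠ i'`: then `j ≠ j'` and the index `k = 1` (`1 < g`), `v_0 = v, v_1 = w` (`v ≠ w` by the first point), `out_0 = i`,
  `in_1 = j`, `out_1 = j'`, `in_0 = i'` is contained in `a` (`a (w,j') = (v,i')`).
* `gr_reg`: the map `i ↦ (a (v,i)).1` is a bijection from `Fin d` to the neighbours of `v`: well defined (no loops), injective (no double
  edges), surjective (definition of `gr` and `a` is an involution). So `Nat.card (neighborSet v) = d`.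
* `gr_noCyc`: let `w` be a cycle of length `m = k + 1`, `3 ≤ m` (`IsCycle.three_le_length`), and suppose `m ≤ g`. Put `v_j = w.getVert j` (`j < m`), distinct,
  and `v_{j+1}` adjacent to `v_j` (`w.getVert m = w.getVert 0`; indices in `Fin (k+1)`, `Fin`-addition is modulo `m`). For every `j` choose darts with
  `a (v_j, out_j) = (v_{j+1}, in_{j+1})`: choose `out_j := s` and `in_{j+1} := t` (i.e. define `in_j` from the choice for `j - 1`). Then
  `out_j ≠ in_j`: `a (v_j, in_j) = (v_{j-1}, out_{j-1})` (involution) and `a (v_j, out_j) = (v_{j+1}, in_{j+1})`, and `v_{j-1} ≠ v_{j+1}` because `m ≥ 3`. So the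
  index `⟨k, (v, out, in)⟩` is contained in `a`, contradiction. (Distinctness of the `getVert`s of a cycle: `IsCycle.getVert_injOn'` or
  `SimpleGraph.Walk.IsCycle.getVert_injOn`, or `support.tail.Nodup`.)
-/

set_option autoImplicit false

namespace MPbcd198.T

open Equiv

private theorem no_loop {n d g : ℕ} (hg : 2 ≤ g) {a : Perm (Fin n × Fin d)} (ha : IsPM a)
    (h : ∀ c : CIdx n d g, ¬ HasCyc c a) (v : Fin n) (i : Fin d) : (a (v, i)).1 ≠ v := by
  intro hv
  have hne : i ≠ (a (v, i)).2 := by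
    intro hi
    apply (ha (v, i)).1
    exact Prod.ext hv hi.symm
  have hinj : Function.Injective (fun _ : Fin (0 + 1) => v) := by
    intro x y _
    exact Subsingleton.elim (α := Fin 1) x y
  refine h ⟨⟨0, by omega⟩, ⟨((fun _ => v), (fun _ => i), (fun _ => (a (v, i)).2)), hinj,
    fun _ => hne⟩⟩ ?_
  intro j
  show a (v, i) = (v, (a (v, i)).2)
  exact Prod.ext hv rfl

private theorem no_double {n d g : ℕ} (hg : 2 ≤ g) {a : Perm (Fin n × Fin d)} (ha : IsPM a)
    (h : ∀ c : CIdx n d g, ¬ HasCyc c a) (v : Fin n) (i i' : Fin d)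
    (he : (a (v, i)).1 = (a (v, i')).1) : i = i' := by
  by_contra hne
  set w := (a (v, i)).1 with hw
  have hvw : v ≠ w := (no_loop hg ha h v i).symm
  have hj : (a (v, i)).2 ≠ (a (v, i')).2 := by
    intro hh
    apply hne
    have : a (v, i) = a (v, i') := Prod.ext he hh
    have := a.injective this
    exact (Prod.mk.inj this).2
  have h1 : a (v, i) = (w, (a (v, i)).2) := Prod.ext rfl rfl
  have h2 : a (w, (a (v, i')).2) = (v, i') := by
    have h3 : (w, (a (v, i')).2) = a (v, i') := Prod.ext he rfl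
    rw [h3]
    exact (ha (v, i')).2
  have hinj : Function.Injective (![v, w] : Fin (1 + 1) → Fin n) := by
    intro x y hxy
    fin_cases x <;> fin_cases y
    · rfl
    · exact absurd hxy hvw
    · exact absurd hxy hvw.symm
    · rfl
  refine h ⟨⟨1, by omega⟩, ⟨(![v, w], ![i, (a (v, i')).2], ![i', (a (v, i)).2]), hinj, ?_⟩⟩ ?_
  · intro k
    fin_cases k
    · exact hne
    · exact hj.symm
  · intro k
    change Fin (1 + 1) at k
    show a ((![v, w] : Fin (1 + 1) → Fin n) k, (![i, (a (v, i')).2] : Fin (1 + 1) → Fin d) k) =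
      ((![v, w] : Fin (1 + 1) → Fin n) (k + 1), (![i', (a (v, i)).2] : Fin (1 + 1) → Fin d) (k + 1))
    fin_cases k
    · exact h1
    · exact h2

theorem dart_inj {n d g : ℕ} (hg : 2 ≤ g) {a : Perm (Fin n × Fin d)} (ha : IsPM a)
    (h : ∀ c : CIdx n d g, ¬ HasCyc c a) (v : Fin n) :
    (∀ i, (a (v, i)).1 ≠ v) ∧ Function.Injective fun i : Fin d => (a (v, i)).1 :=
  ⟨fun i => no_loop hg ha h v i, fun i i' he => no_double hg ha h v i i' he⟩

private theorem gr_adj {n d : ℕ} {a : Perm (Fin n × Fin d)} (ha : IsPM a) (v w : Fin n) :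
    (gr a).Adj v w ↔ v ≠ w ∧ ∃ i j, a (v, i) = (w, j) := by
  unfold gr
  rw [SimpleGraph.fromRel_adj]
  constructor
  · rintro ⟨hne, h | ⟨i, j, h⟩⟩
    · exact ⟨hne, h⟩
    · refine ⟨hne, j, i, ?_⟩
      rw [← h]
      exact (ha (w, i)).2
  · rintro ⟨hne, h⟩
    exact ⟨hne, Or.inl h⟩

theorem gr_reg {n d g : ℕ} (hg : 2 ≤ g) {a : Perm (Fin n × Fin d)} (ha : IsPM a)
    (h : ∀ c : CIdx n d g, ¬ HasCyc c a) : Reg d (gr a) := by
  intro v
  obtain ⟨h1, h2⟩ := dart_inj hg ha h v
  have hadj : ∀ i : Fin d, (a (v, i)).1 ∈ (gr a).neighborSet v := by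
    intro i
    rw [SimpleGraph.mem_neighborSet, gr_adj ha]
    exact ⟨(h1 i).symm, i, (a (v, i)).2, rfl⟩
  have hb : Function.Bijective (fun i : Fin d => (⟨(a (v, i)).1, hadj i⟩ : (gr a).neighborSet v)) := by
    constructor
    · intro i i' he
      exact h2 (congrArg Subtype.val he)
    · rintro ⟨w, hw⟩
      rw [SimpleGraph.mem_neighborSet, gr_adj ha] at hw
      obtain ⟨_, i, j, hij⟩ := hw
      refine ⟨i, Subtype.ext ?_⟩
      show (a (v, i)).1 = w
      rw [hij]
  rw [← Nat.card_congr (Equiv.ofBijective _ hb), Nat.card_eq_fintype_card, Fintype.card_fin]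

theorem gr_noCyc {n d g : ℕ} (hg : 2 ≤ g) {a : Perm (Fin n × Fin d)} (ha : IsPM a)
    (h : ∀ c : CIdx n d g, ¬ HasCyc c a) : NoCyc g (gr a) := by
  intro u w hw
  by_contra hlen
  push Not at hlen
  have h3 := hw.three_le_length
  obtain ⟨k, hk⟩ : ∃ k, w.length = k + 1 := ⟨w.length - 1, by omega⟩
  have hkg : k < g := by omega
  -- successor in Fin (k+1)
  have hsucc : ∀ j : Fin (k + 1), w.getVert (j + 1 : Fin (k + 1)).val = w.getVert (j.val + 1) := by
    intro j
    rw [Fin.val_add_one]
    split_ifs with hj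
    · have : j.val = k := by rw [hj]; rfl
      rw [this, ← hk, SimpleGraph.Walk.getVert_length, SimpleGraph.Walk.getVert_zero]
    · rfl
  have hadj : ∀ j : Fin (k + 1), (gr a).Adj (w.getVert j.val) (w.getVert (j + 1 : Fin (k + 1)).val) := by
    intro j
    rw [hsucc]
    exact w.adj_getVert_succ (by have := j.isLt; omega)
  have hd : ∀ j : Fin (k + 1), ∃ s t, a (w.getVert j.val, s) = (w.getVert (j + 1 : Fin (k + 1)).val, t) := by
    intro j
    exact ((gr_adj ha _ _).1 (hadj j)).2
  choose s t hst using hd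
  have hinj : Function.Injective (fun j : Fin (k + 1) => w.getVert j.val) := by
    intro x y hxy
    have := hw.getVert_injOn' (by rw [Set.mem_ofPred_eq]; have := x.isLt; omega)
      (by rw [Set.mem_ofPred_eq]; have := y.isLt; omega) hxy
    exact Fin.ext this
  refine h ⟨⟨k, hkg⟩, ⟨((fun j => w.getVert j.val), s, fun j => t (j - 1)), hinj, ?_⟩⟩ ?_
  · intro j
    change Fin (k + 1) at j
    show s j ≠ t (j - 1)
    intro he
    have e1 := hst j
    have e2 := hst (j - 1)
    rw [sub_add_cancel] at e2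
    have e3 : a (w.getVert j.val, t (j - 1)) = (w.getVert (j - 1 : Fin (k + 1)).val, s (j - 1)) := by
      rw [← e2]
      exact (ha _).2
    rw [he, e3] at e1
    have e4 : w.getVert (j - 1 : Fin (k + 1)).val = w.getVert (j + 1 : Fin (k + 1)).val :=
      (Prod.mk.inj e1).1
    have e5 : j - 1 = j + 1 := hinj e4
    have e6 : (1 : Fin (k + 1)) + 1 = 0 := by
      have : j - 1 + 1 = j + 1 + 1 := by rw [e5]
      rw [sub_add_cancel, add_assoc] at this
      exact (left_eq_add.1 this)
    have e7 := congrArg Fin.val e6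
    have e8 : ((1 : Fin (k + 1)) : ℕ) = 1 := Nat.mod_eq_of_lt (show 1 < k + 1 by omega)
    rw [Fin.val_add, e8, Fin.val_zero, Nat.mod_eq_of_lt (by omega : 1 + 1 < k + 1)] at e7
    omega
  · intro j
    change Fin (k + 1) at j
    show a (w.getVert j.val, s j) = (w.getVert (j + 1 : Fin (k + 1)).val, t (j + 1 - 1))
    rw [add_sub_cancel_right]
    exact hst j

end MPbcd198.T
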