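import Pool.Agent.Lib.MP_bcd198_co.T.GrA
import Pool.Agent.Lib.MP_bcd198_co.T.CycL

/-!
# JOB T/GrB: lower bound for the number of regular graphs without short cycles

* `fibre_le`: the map `a ↦ gr a` from the good matchings (`IsPM a`, no `HasCyc`) to `{G // Reg d G ∧ NoCyc g G}` (`gr_reg`, `gr_noCyc`) has fibres of size `≤ (d!)^n`. For a
  given graph `G` and good `a` with `gr a = G` let `e_v : Fin d → Fin n`, `e_v i = (a (v,i)).1`; it is a bijection from `Fin d` onto the neighbours of `v` in `G`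
  (`dart_inj`, `gr_reg` or a direct argument). The family `(e_v)` determines `a`: `a (v,i) = (w, j)` with `w = e_v i`, and `j` is the unique index with
  `e_w j = v` (`a (w,j) = (v,i)`, injectivity of `e_w`). So the fibre injects into `∀ v, (Fin d ≃ G.neighborSet v)` (or into `∀ v, (Fin d ↪ G.neighborSet v)`), which has
  `∏_v (d!) = (d!)^n` elements because `Nat.card (G.neighborSet v) = d` (`Fintype.card_equiv`). Hence `#good ≤ #{G} · (d!)^n`
  (`Finset.card_le_mul_card_image`-like lemma, or an injection `good → {G} × Perm (Fin d)^n` after choosing for every `G`, `v` a bijection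
  `Fin d ≃ G.neighborSet v`: `a ↦ (gr a, v ↦ (choice)⁻¹ ∘ e_v)`).
* `lower_count`: combine with `few_short`.
-/

set_option autoImplicit false

namespace MPbcd198.T

open Equiv

private theorem GrB_adj {n d g : ℕ} (hg : 2 ≤ g) {a : Perm (Fin n × Fin d)} (ha : IsPM a)
    (h : ∀ c : CIdx n d g, ¬ HasCyc c a) (v : Fin n) (i : Fin d) :
    (a (v, i)).1 ∈ (gr a).neighborSet v := by
  rw [SimpleGraph.mem_neighborSet]
  unfold gr
  rw [SimpleGraph.fromRel_adj]
  exact ⟨((dart_inj hg ha h v).1 i).symm, Or.inl ⟨i, (a (v, i)).2, rfl⟩⟩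

theorem fibre_le {n d g : ℕ} (hg : 2 ≤ g) :
    Nat.card {a : Perm (Fin n × Fin d) // IsPM a ∧ ∀ c : CIdx n d g, ¬ HasCyc c a} ≤
      Nat.card {G : SimpleGraph (Fin n) // Reg d G ∧ NoCyc g G} * d.factorial ^ n := by
  classical
  have hex : ∀ (G : {G : SimpleGraph (Fin n) // Reg d G ∧ NoCyc g G}) (v : Fin n),
      ∃ f : G.1.neighborSet v → Fin d, Function.Injective f := by
    intro G v
    have e := Finite.equivFinOfCardEq (G.2.1 v)
    exact ⟨e, e.injective⟩
  choose f hf using hex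
  let F : {a : Perm (Fin n × Fin d) // IsPM a ∧ ∀ c : CIdx n d g, ¬ HasCyc c a} →
      {G : SimpleGraph (Fin n) // Reg d G ∧ NoCyc g G} × (Fin n → (Fin d ↪ Fin d)) := fun a =>
    (⟨gr a.1, gr_reg hg a.2.1 a.2.2, gr_noCyc hg a.2.1 a.2.2⟩, fun v =>
      ⟨fun i => f ⟨gr a.1, gr_reg hg a.2.1 a.2.2, gr_noCyc hg a.2.1 a.2.2⟩ v
        ⟨(a.1 (v, i)).1, GrB_adj hg a.2.1 a.2.2 v i⟩, by
          intro i j hij
          have h1 := hf _ _ hij
          have h2 : (a.1 (v, i)).1 = (a.1 (v, j)).1 := congrArg Subtype.val h1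
          exact (dart_inj hg a.2.1 a.2.2 v).2 h2⟩)
  have hgen : ∀ (G G' : {G : SimpleGraph (Fin n) // Reg d G ∧ NoCyc g G}) (v : Fin n)
      (x : G.1.neighborSet v) (y : G'.1.neighborSet v), G = G' → f G v x = f G' v y → x.1 = y.1 := by
    intro G G' v x y hG
    subst hG
    intro h
    exact congrArg Subtype.val (hf G v h)
  have hF : Function.Injective F := by
    rintro ⟨a, ha, ha'⟩ ⟨b, hb, hb'⟩ hab
    have h1 := congrArg Prod.fst hab
    have h2 := congrArg Prod.snd hab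
    have h3 : ∀ v i, (a (v, i)).1 = (b (v, i)).1 := by
      intro v i
      have h4 := congrFun h2 v
      have h5 := congrArg (fun e : Fin d ↪ Fin d => e i) h4
      exact hgen _ _ v _ _ h1 h5
    have h6 : a = b := by
      ext1 x
      obtain ⟨v, i⟩ := x
      have e1 : (a (v, i)).1 = (b (v, i)).1 := h3 v i
      refine Prod.ext e1 ?_
      have e2 : a (a (v, i)) = (v, i) := (ha (v, i)).2
      have e3 : b (b (v, i)) = (v, i) := (hb (v, i)).2
      have e4 : (b ((b (v, i)).1, (a (v, i)).2)).1 = v := by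
        rw [← h3, ← e1]
        have : ((a (v, i)).1, (a (v, i)).2) = a (v, i) := rfl
        rw [this, e2]
      have e5 : (b ((b (v, i)).1, (b (v, i)).2)).1 = v := by
        have : ((b (v, i)).1, (b (v, i)).2) = b (v, i) := rfl
        rw [this, e3]
      exact (dart_inj hg hb hb' (b (v, i)).1).2 (e4.trans e5.symm)
    subst h6
    rfl
  have hcard : Nat.card (Fin n → (Fin d ↪ Fin d)) = d.factorial ^ n := by
    rw [Nat.card_eq_fintype_card, Fintype.card_fun, Fintype.card_fin, Fintype.card_embedding_eq,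
      Fintype.card_fin, Nat.descFactorial_self]
  calc Nat.card {a : Perm (Fin n × Fin d) // IsPM a ∧ ∀ c : CIdx n d g, ¬ HasCyc c a}
      ≤ Nat.card ({G : SimpleGraph (Fin n) // Reg d G ∧ NoCyc g G} × (Fin n → (Fin d ↪ Fin d))) :=
        Nat.card_le_card_of_injective F hF
    _ = _ := by rw [Nat.card_prod, hcard]

theorem lower_count (d g : ℕ) (hd : 1 ≤ d) (hg : 2 ≤ g) : ∃ δ : ℝ, 0 < δ ∧ ∃ n₀ : ℕ,
    ∀ n : ℕ, n₀ ≤ n → Even (d * n) → δ * (MNum (d * n / 2) / (d.factorial : ℝ) ^ n) ≤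
      (Nat.card {G : SimpleGraph (Fin n) // Reg d G ∧ NoCyc g G} : ℝ) := by
  obtain ⟨δ, hδ, n₀, h⟩ := few_short d g hd
  refine ⟨δ, hδ, n₀, fun n hn he => ?_⟩
  have h1 := h n hn he
  have h2 : (Nat.card {a : Perm (Fin n × Fin d) // IsPM a ∧ ∀ c : CIdx n d g, ¬ HasCyc c a} : ℝ) ≤
      (Nat.card {G : SimpleGraph (Fin n) // Reg d G ∧ NoCyc g G} : ℝ) * (d.factorial : ℝ) ^ n := by
    exact_mod_cast fibre_le hg
  have h3 : (0 : ℝ) < (d.factorial : ℝ) ^ n := by
    have : (0 : ℝ) < d.factorial := by exact_mod_cast Nat.factorial_pos d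
    positivity
  rw [← mul_div_assoc, div_le_iff₀ h3]
  exact h1.trans h2

end MPbcd198.T
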