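import Pool.Agent.Lib.MP_bcd198_co.T.PathU

/-!
# JOB T/LocA: balls in a graph without short cycles

All distances are `SimpleGraph.edist : ℕ∞`.
* `child_dist`: triangle inequality `edist_triangle` and `edist y x = 1` for adjacent vertices (`SimpleGraph.edist_eq_one_iff_adj`).
* `exists_parent`: `edist v x = r + 1` is finite, so there is a shortest walk (`SimpleGraph.exists_walk_of_edist_ne_top`, or
  `Reachable.exists_walk_length_eq_edist`) of length `r+1 ≥ 1`; let `y` be its last but one vertex: the walk without its last edge has length `r`,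
  so `edist v y ≤ r` (e.g. take the reversed walk `Walk.cons h p` from `x`, `y` = second vertex, `p : Walk y v` of length `r`).
* `parent_unique`: let `p`, `q` be shortest walks from `v` to `y`, `z` (lengths `≤ r`; shortest walks are paths, or use
  `Walk.toPath`/`bypass` of any walk of length `≤ r`: the bypass is a path and not longer). `x` is not on `p`: every vertex `w` of `p` has `edist v w ≤ p.length ≤ r`
  (`Walk.takeUntil`), but `edist v x > r`; the same for `q`. So `p.concat hyx` and `q.concat hzx` are paths from `v` to `x` (`Walk.IsPath.concat` or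
  reverse and `cons_isPath_iff`) of lengths `≤ r + 1`, total `≤ 2(r+1) ≤ g`; by `path_unique` they are equal, so their last but one vertices are
  equal: `y = z` (compare `penultimate`, or reverse both and use injectivity of `Walk.cons`).
* `no_sibling`: suppose `G.Adj x x'`. As above `P := p.concat hyx` is a path from `v` to `x` of length `≤ r+1`, `Q := q.concat hzx'` a path from `v` to `x'`
  of length `≤ r+1`; `x ∉ Q.support`: the vertices of `q` have distance `≤ r`, and `x ≠ x'`. So `Q.concat (x' x)` is a path from `v` to `x` of length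
  `≤ r+2`. Total length `≤ 2(r+1)+1 ≤ g`, so it equals `P`; compare the last but one vertices: `x' = y`, but `edist v x' > r ≥ edist v y`, contradiction.
-/

set_option autoImplicit false

namespace MPbcd198.T

theorem child_dist {V : Type} {G : SimpleGraph V} {v x y : V} {r : ℕ}
    (hy : G.edist v y ≤ (r : ℕ∞)) (hyx : G.Adj y x) : G.edist v x ≤ ((r + 1 : ℕ) : ℕ∞) := by
  have h1 : G.edist y x = 1 := SimpleGraph.edist_eq_one_iff_adj.2 hyx
  calc G.edist v x ≤ G.edist v y + G.edist y x := SimpleGraph.edist_triangle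
    _ ≤ (r : ℕ∞) + 1 := by rw [h1]; exact add_le_add_left hy 1
    _ = ((r + 1 : ℕ) : ℕ∞) := by push_cast; rfl

theorem exists_parent {V : Type} {G : SimpleGraph V} {v x : V} {r : ℕ}
    (hx : ¬ G.edist v x ≤ (r : ℕ∞)) (hx' : G.edist v x ≤ ((r + 1 : ℕ) : ℕ∞)) :
    ∃ y, G.edist v y ≤ (r : ℕ∞) ∧ G.Adj y x := by
  have hne : G.edist v x ≠ ⊤ := fun h => by
    rw [h] at hx'
    exact absurd hx' (not_le.2 (ENat.coe_lt_top _))
  obtain ⟨p, hp⟩ := SimpleGraph.exists_walk_of_edist_ne_top hne
  have hlen : p.length ≤ r + 1 := by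
    rw [← hp] at hx'
    exact_mod_cast hx'
  have hnil : ¬ p.Nil := by
    intro h
    have h0 : p.length = 0 := SimpleGraph.Walk.length_eq_zero_iff.2 h
    rw [← hp, h0] at hx
    exact hx (by simp)
  refine ⟨p.penultimate, ?_, p.adj_penultimate hnil⟩
  have h1 : p.dropLast.length ≤ r := by
    have : p.dropLast.length + 1 = p.length := SimpleGraph.Walk.length_dropLast_add_one hnil
    omega
  calc G.edist v p.penultimate ≤ (p.dropLast.length : ℕ∞) := SimpleGraph.edist_le _
    _ ≤ (r : ℕ∞) := by exact_mod_cast h1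

/-- A path of length at most `r` to a vertex at distance at most `r`, with all its vertices at
distance at most `r`. -/
private theorem LocA_path {V : Type} {G : SimpleGraph V} {v y : V} {r : ℕ}
    (hy : G.edist v y ≤ (r : ℕ∞)) : ∃ p : G.Walk v y, p.IsPath ∧ p.length ≤ r ∧
      ∀ w ∈ p.support, G.edist v w ≤ (r : ℕ∞) := by
  classical
  have hne : G.edist v y ≠ ⊤ := fun h => by
    rw [h] at hy
    exact absurd hy (not_le.2 (ENat.coe_lt_top _))
  obtain ⟨p, hp⟩ := SimpleGraph.exists_walk_of_edist_ne_top hne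
  have hlen : p.length ≤ r := by
    rw [← hp] at hy
    exact_mod_cast hy
  have hb : p.bypass.length ≤ r := (SimpleGraph.Walk.length_bypass_le p).trans hlen
  refine ⟨p.bypass, p.bypass_isPath, hb, fun w hw => ?_⟩
  calc G.edist v w ≤ ((p.bypass.takeUntil w hw).length : ℕ∞) := SimpleGraph.edist_le _
    _ ≤ (r : ℕ∞) := by
      exact_mod_cast (SimpleGraph.Walk.length_takeUntil_le p.bypass hw).trans hb

theorem parent_unique {V : Type} {G : SimpleGraph V} {g : ℕ} (hG : NoCyc g G) {v x y z : V}
    {r : ℕ} (hr : 2 * (r + 1) ≤ g) (hx : ¬ G.edist v x ≤ (r : ℕ∞)) (hy : G.edist v y ≤ (r : ℕ∞))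
    (hz : G.edist v z ≤ (r : ℕ∞)) (hyx : G.Adj y x) (hzx : G.Adj z x) : y = z := by
  obtain ⟨p, hp, hpl, hps⟩ := LocA_path hy
  obtain ⟨q, hq, hql, hqs⟩ := LocA_path hz
  have h1 : (p.concat hyx).IsPath :=
    (SimpleGraph.Walk.concat_isPath_iff hyx).2 ⟨hp, fun h => hx (hps x h)⟩
  have h2 : (q.concat hzx).IsPath :=
    (SimpleGraph.Walk.concat_isPath_iff hzx).2 ⟨hq, fun h => hx (hqs x h)⟩
  have h3 := path_unique hG _ _ h1 h2 (by
    rw [SimpleGraph.Walk.length_concat, SimpleGraph.Walk.length_concat]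
    omega)
  have h4 := congrArg SimpleGraph.Walk.penultimate h3
  simpa using h4

theorem no_sibling {V : Type} {G : SimpleGraph V} {g : ℕ} (hG : NoCyc g G) {v x x' y z : V}
    {r : ℕ} (hr : 2 * (r + 1) + 1 ≤ g) (hx : ¬ G.edist v x ≤ (r : ℕ∞))
    (hx' : ¬ G.edist v x' ≤ (r : ℕ∞)) (hy : G.edist v y ≤ (r : ℕ∞))
    (hz : G.edist v z ≤ (r : ℕ∞)) (hyx : G.Adj y x) (hzx' : G.Adj z x') : ¬ G.Adj x x' := by
  intro hxx
  obtain ⟨p, hp, hpl, hps⟩ := LocA_path hy
  obtain ⟨q, hq, hql, hqs⟩ := LocA_path hz
  have h1 : (p.concat hyx).IsPath :=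
    (SimpleGraph.Walk.concat_isPath_iff hyx).2 ⟨hp, fun h => hx (hps x h)⟩
  have h2 : (q.concat hzx').IsPath :=
    (SimpleGraph.Walk.concat_isPath_iff hzx').2 ⟨hq, fun h => hx' (hqs x' h)⟩
  have hnm : x ∉ (q.concat hzx').support := by
    rw [SimpleGraph.Walk.support_concat]
    simp only [List.concat_eq_append, List.mem_append, List.mem_singleton]
    rintro (h | h)
    · exact hx (hqs x h)
    · exact hxx.ne h
  have h2' : ((q.concat hzx').concat hxx.symm).IsPath :=
    (SimpleGraph.Walk.concat_isPath_iff hxx.symm).2 ⟨h2, hnm⟩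
  have h3 := path_unique hG _ _ h1 h2' (by
    rw [SimpleGraph.Walk.length_concat, SimpleGraph.Walk.length_concat, SimpleGraph.Walk.length_concat]
    omega)
  have h4 := congrArg SimpleGraph.Walk.penultimate h3
  have h5 : y = x' := by simpa using h4
  exact hx' (h5 ▸ hy)

end MPbcd198.T
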