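import Pool.Agent.Lib.MP_bcd198_co.T.LocA

/-!
# JOB T/LocB: extending an isomorphism of balls by one level

Uses only LocA.lean. For a graph `G` and `y` in the ball `B_r = {w : edist v w ≤ r}` let `Ch_G(y) := {x | x ∉ B_r ∧ G.Adj y x}` (the children).
* Count: `Ch_G(y)` is finite and `|Ch_G(y)| = d - |{z ∈ B_r : G.Adj y z}|` because `y` has exactly `d` neighbours (`Reg`; `d ≥ 1`, so the neighbour set is
  finite, `Nat.finite_of_card_ne_zero`). The isomorphism `φ` of the induced graphs on the balls gives a bijection from the neighbours of `y` inside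
  `B_r(F)` to the neighbours of `φ y` inside `B_r(G)`. Hence `|Ch_F(y)| = |Ch_G(φ y)|` and there is a bijection `c_y : Ch_F(y) ≃ Ch_G(φ y)`
  (`Finite.equivOfCardEq`/`Nat.card_eq` etc.).
* The ball `B_{r+1}` is the disjoint union of `B_r` and of the sets `Ch(y)`, `y ∈ B_r`: a vertex `x ∈ B_{r+1} \ B_r` has exactly one neighbour in `B_r`
  (`exists_parent`, `parent_unique`; this needs `2(r+1) ≤ g`), its parent; conversely `Ch(y) ⊆ B_{r+1}` (`child_dist`).
* Define `ψ x := φ x` for `x ∈ B_r` and `ψ x := c_y x` for `x ∈ Ch_F(y)`; the inverse is defined in the same way from `φ⁻¹` and `c_y⁻¹` (or: show that `ψ` is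
  injective and surjective, `Equiv.ofBijective`).
* Adjacency: both in `B_r`: by `φ`. `x ∈ B_r`, `x' ∈ Ch_F(y)`: `F.Adj x x' ↔ x = y` (`parent_unique`) and `G.Adj (φ x) (ψ x') ↔ φ x = φ y`. Both
  outside of `B_r`: not adjacent on both sides (`no_sibling`, needs `2(r+1)+1 ≤ g`).
* `ψ` maps the centre to the centre (the centre is in `B_r`).
It may be convenient to state everything first with functions on `V`, `W` (e.g. to prove: there is `ψ : W → V` injective on `B_{r+1}(F)` with image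
`B_{r+1}(G)` and preserving adjacency both ways on `B_{r+1}(F)`), and to build the isomorphism at the end.
-/

set_option autoImplicit false

namespace MPbcd198.T

/-- the children of `y` -/
private abbrev Chd {V : Type} (r : ℕ) (G : SimpleGraph V) (v y : V) : Type :=
  {x : V // ¬ G.edist v x ≤ (r : ℕ∞) ∧ G.Adj y x}

private abbrev Bl {V : Type} (r : ℕ) (G : SimpleGraph V) (v : V) : Type :=
  {w : V // G.edist v w ≤ (r : ℕ∞)}

private theorem card_nbr {V : Type} {G : SimpleGraph V} {d r : ℕ} (hd0 : 1 ≤ d) (hG : Reg d G)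
    (v : V) (y : Bl r G v) :
    Finite (Chd r G v y.1) ∧ Finite ((link r G v).neighborSet y) ∧
    Nat.card ((link r G v).neighborSet y) + Nat.card (Chd r G v y.1) = d := by
  have hfin : Finite (G.neighborSet y.1) := by
    apply Nat.finite_of_card_ne_zero
    rw [hG]; omega
  let e1 : {a : G.neighborSet y.1 // G.edist v a.1 ≤ (r : ℕ∞)} ≃ (link r G v).neighborSet y :=
    { toFun := fun a => ⟨⟨a.1.1, a.2⟩, a.1.2⟩
      invFun := fun z => ⟨⟨z.1.1, z.2⟩, z.1.2⟩
      left_inv := fun a => rfl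
      right_inv := fun z => rfl }
  let e2 : {a : G.neighborSet y.1 // ¬ G.edist v a.1 ≤ (r : ℕ∞)} ≃ Chd r G v y.1 :=
    { toFun := fun a => ⟨a.1.1, a.2, a.1.2⟩
      invFun := fun z => ⟨⟨z.1, z.2.2⟩, z.2.1⟩
      left_inv := fun a => rfl
      right_inv := fun z => rfl }
  have f1 : Finite ((link r G v).neighborSet y) := Finite.of_equiv _ e1
  have f2 : Finite (Chd r G v y.1) := Finite.of_equiv _ e2
  refine ⟨f2, f1, ?_⟩
  rw [← Nat.card_congr e1, ← Nat.card_congr e2, ← Nat.card_sum]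
  classical
  rw [Nat.card_congr (Equiv.sumCompl (fun a : G.neighborSet y.1 => G.edist v a.1 ≤ (r : ℕ∞)))]
  exact hG y.1

private def emap {V : Type} (r : ℕ) (G : SimpleGraph V) (v : V) :
    (Bl r G v ⊕ (Σ y : Bl r G v, Chd r G v y.1)) → Bl (r + 1) G v
  | Sum.inl y => ⟨y.1, le_trans y.2 (by exact_mod_cast Nat.le_succ r)⟩
  | Sum.inr t => ⟨t.2.1, child_dist t.1.2 t.2.2.2⟩

private theorem emap_bij {V : Type} {G : SimpleGraph V} {g r : ℕ} (cG : NoCyc g G)
    (hr : 2 * (r + 1) + 1 ≤ g) (v : V) : Function.Bijective (emap r G v) := by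
  constructor
  · rintro (y | ⟨y, x⟩) (y' | ⟨y', x'⟩) h
    · have h' : y.1 = y'.1 := congrArg (fun z : Bl (r + 1) G v => z.1) h
      rw [Subtype.ext h']
    · exfalso
      have h' : y.1 = x'.1 := congrArg Subtype.val h
      exact x'.2.1 (h' ▸ y.2)
    · exfalso
      have h' : x.1 = y'.1 := congrArg Subtype.val h
      exact x.2.1 (h' ▸ y'.2)
    · have h' : x.1 = x'.1 := congrArg Subtype.val h
      obtain ⟨x, hx1, hx2⟩ := x
      obtain ⟨x', hx1', hx2'⟩ := x'
      simp only at h'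
      subst h'
      have hy : y.1 = y'.1 := parent_unique cG (by omega) hx1 y.2 y'.2 hx2 hx2'
      have hy' : y = y' := Subtype.ext hy
      subst hy'
      rfl
  · rintro ⟨x, hx⟩
    by_cases hx' : G.edist v x ≤ (r : ℕ∞)
    · exact ⟨Sum.inl ⟨x, hx'⟩, rfl⟩
    · obtain ⟨y, hy, hyx⟩ := exists_parent hx' hx
      exact ⟨Sum.inr ⟨⟨y, hy⟩, ⟨x, hx', hyx⟩⟩, rfl⟩

private def sadj {V : Type} (r : ℕ) (G : SimpleGraph V) (v : V) :
    (Bl r G v ⊕ (Σ y : Bl r G v, Chd r G v y.1)) →
    (Bl r G v ⊕ (Σ y : Bl r G v, Chd r G v y.1)) → Prop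
  | Sum.inl y, Sum.inl y' => (link r G v).Adj y y'
  | Sum.inl y, Sum.inr t => y = t.1
  | Sum.inr t, Sum.inl y => y = t.1
  | Sum.inr _, Sum.inr _ => False

private theorem sadj_iff {V : Type} {G : SimpleGraph V} {g r : ℕ} (cG : NoCyc g G)
    (hr : 2 * (r + 1) + 1 ≤ g) (v : V) (a b : Bl r G v ⊕ (Σ y : Bl r G v, Chd r G v y.1)) :
    (link (r + 1) G v).Adj (emap r G v a) (emap r G v b) ↔ sadj r G v a b := by
  rcases a with y | ⟨y, x⟩ <;> rcases b with y' | ⟨y', x'⟩
  · exact Iff.rfl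
  · constructor
    · intro h
      have h' : G.Adj y.1 x'.1 := h
      exact Subtype.ext (parent_unique cG (by omega) x'.2.1 y.2 y'.2 h' x'.2.2)
    · intro h
      have h' : y = y' := h
      subst h'
      exact x'.2.2
  · constructor
    · intro h
      have h' : G.Adj x.1 y'.1 := h
      exact Subtype.ext (parent_unique cG (by omega) x.2.1 y'.2 y.2 h'.symm x.2.2)
    · intro h
      have h' : y' = y := h
      subst h'
      exact x.2.2.symm
  · constructor
    · intro h
      have h' : G.Adj x.1 x'.1 := h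
      exact no_sibling cG hr x.2.1 x'.2.1 y.2 y'.2 x.2.2 x'.2.2 h'
    · intro h
      exact h.elim

theorem extend_iso {V W : Type} {G : SimpleGraph V} {F : SimpleGraph W} {d g r : ℕ}
    (hd0 : 1 ≤ d) (hG : Reg d G) (hF : Reg d F) (cG : NoCyc g G) (cF : NoCyc g F)
    (hr : 2 * (r + 1) + 1 ≤ g) {v : V} {u : W} (φ : link r F u ≃g link r G v)
    (h0 : φ (linkCentre r F u) = linkCentre r G v) :
    ∃ ψ : link (r + 1) F u ≃g link (r + 1) G v,
      ψ (linkCentre (r + 1) F u) = linkCentre (r + 1) G v := by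
  have hc : ∀ y : Bl r F u, Nonempty (Chd r F u y.1 ≃ Chd r G v (φ y).1) := by
    intro y
    obtain ⟨f1, f2, h1⟩ := card_nbr hd0 hF u y
    obtain ⟨f3, f4, h2⟩ := card_nbr hd0 hG v (φ y)
    have h3 : Nat.card ((link r F u).neighborSet y) = Nat.card ((link r G v).neighborSet (φ y)) := by
      apply Nat.card_congr
      exact φ.mapNeighborSet y
    exact (Finite.card_eq (α := Chd r F u y.1) (β := Chd r G v (φ y).1)).1 (by omega)
  let c : ∀ y : Bl r F u, Chd r F u y.1 ≃ Chd r G v (φ y).1 := fun y => Classical.choice (hc y)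
  let s : (Bl r F u ⊕ (Σ y : Bl r F u, Chd r F u y.1)) ≃
      (Bl r G v ⊕ (Σ y : Bl r G v, Chd r G v y.1)) :=
    Equiv.sumCongr φ.toEquiv (Equiv.sigmaCongr φ.toEquiv c)
  have hs : ∀ a b, sadj r G v (s a) (s b) ↔ sadj r F u a b := by
    rintro (y | ⟨y, x⟩) (y' | ⟨y', x'⟩)
    · exact φ.map_rel_iff
    · exact φ.toEquiv.injective.eq_iff
    · exact φ.toEquiv.injective.eq_iff
    · exact Iff.rfl
  let eF := Equiv.ofBijective _ (emap_bij cF hr u)
  let eG := Equiv.ofBijective _ (emap_bij cG hr v)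
  refine ⟨⟨(eF.symm.trans s).trans eG, ?_⟩, ?_⟩
  · intro a b
    obtain ⟨a, rfl⟩ := eF.surjective a
    obtain ⟨b, rfl⟩ := eF.surjective b
    simp only [Equiv.trans_apply, Equiv.symm_apply_apply]
    exact (sadj_iff cG hr v (s a) (s b)).trans ((hs a b).trans (sadj_iff cF hr u a b).symm)
  · change eG (s (eF.symm (linkCentre (r + 1) F u))) = _
    have h1 : linkCentre (r + 1) F u = eF (Sum.inl (linkCentre r F u)) := rfl
    rw [h1, Equiv.symm_apply_apply]
    have h2 : s (Sum.inl (linkCentre r F u)) = Sum.inl (linkCentre r G v) := by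
      change Sum.inl (φ (linkCentre r F u)) = _
      rw [h0]
    rw [h2]
    rfl

end MPbcd198.T
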