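import Pool.Agent.Lib.MP_bcd198_co.T.LocB

/-!
# JOB T/LocC: regular graphs without short cycles are locally isomorphic; locally `F` graphs are regular

* `isLocally_of`: fix `v`. By induction on `s ≤ r` there is an isomorphism `link s F u ≃g link s G v` mapping centre to centre: for `s = 0` both
  balls are single vertices (`edist = 0` iff equal; the graphs have no loops); the step is `extend_iso` (for `s + 1 ≤ r`:
  `2(s+1)+1 ≤ 2r+1 = g`).
* `reg_of_isLocally`: let `φ` be the isomorphism of the links at `v`. Since `1 ≤ r`, all neighbours of `v` are in `link r G v` (`edist = 1 ≤ r`),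
  so `neighborSet v` of `G` is in bijection with the neighbour set of the centre in `link r G v`, which by `φ` is in bijection with the neighbour set of
  the centre of `link r F u`, in bijection with `F.neighborSet u`, which has `d` elements.
-/

set_option autoImplicit false

namespace MPbcd198.T

private theorem locC_zero {V : Type} {G : SimpleGraph V} {v : V}
    (x : {w : V // G.edist v w ≤ ((0 : ℕ) : ℕ∞)}) : x = linkCentre 0 G v := by
  obtain ⟨w, h⟩ := x
  apply Subtype.ext
  have h2 : G.edist v w = 0 := nonpos_iff_eq_zero.mp h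
  exact (SimpleGraph.edist_eq_zero_iff.mp h2).symm

private theorem locC_base {V W : Type} (G : SimpleGraph V) (F : SimpleGraph W) (v : V) (u : W) :
    ∃ φ : link 0 F u ≃g link 0 G v, φ (linkCentre 0 F u) = linkCentre 0 G v := by
  refine ⟨⟨⟨fun _ => linkCentre 0 G v, fun _ => linkCentre 0 F u, fun x => (locC_zero x).symm,
    fun x => (locC_zero x).symm⟩, ?_⟩, rfl⟩
  intro a b
  have ha := locC_zero a
  have hb := locC_zero b
  constructor
  · intro h
    exact absurd h (SimpleGraph.irrefl _)
  · intro h
    rw [ha, hb] at h
    exact absurd h (SimpleGraph.irrefl _)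

/-- the neighbours of a vertex are the neighbours of the centre of its link -/
private def locC_nb {V : Type} (G : SimpleGraph V) (v : V) {r : ℕ} (h1 : 1 ≤ r) :
    G.neighborSet v ≃ (link r G v).neighborSet (linkCentre r G v) where
  toFun w := ⟨⟨w.1, by
    have h : G.Adj v w.1 := w.2
    rw [SimpleGraph.edist_eq_one_iff_adj.mpr h]
    exact_mod_cast h1⟩, w.2⟩
  invFun x := ⟨x.1.1, x.2⟩
  left_inv _ := rfl
  right_inv _ := rfl

theorem isLocally_of {V W : Type} {G : SimpleGraph V} {F : SimpleGraph W} {d r : ℕ}
    (hd0 : 1 ≤ d) (hG : Reg d G) (hF : Reg d F) (cG : NoCyc (2 * r + 1) G)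
    (cF : NoCyc (2 * r + 1) F) (u : W) : IsLocally r F u G := by
  intro v
  have key : ∀ s : ℕ, s ≤ r →
      ∃ φ : link s F u ≃g link s G v, φ (linkCentre s F u) = linkCentre s G v := by
    intro s
    induction s with
    | zero => exact fun _ => locC_base G F v u
    | succ s ih =>
      intro hs
      obtain ⟨φ, h0⟩ := ih (by omega)
      exact extend_iso hd0 hG hF cG cF (by omega) φ h0
  exact key r le_rfl

theorem reg_of_isLocally {V W : Type} {G : SimpleGraph V} {F : SimpleGraph W} {d r : ℕ}
    (h1 : 1 ≤ r) (hF : Reg d F) (u : W) (h : IsLocally r F u G) : Reg d G := by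
  intro v
  obtain ⟨φ, hφ⟩ := h v
  have e1 := φ.mapNeighborSet (linkCentre r F u)
  rw [hφ] at e1
  rw [← hF u]
  exact Nat.card_congr ((locC_nb G v h1).trans (e1.symm.trans (locC_nb F u h1).symm))

end MPbcd198.T
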