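import Pool.Agent.Lib.MP_bcd198_co.T.TilA
import Pool.Agent.Lib.MP_bcd198_co.D.FlagA

/-!
# JOB T/TilB: the tiling graph is `q`-regular and has no cycle of length `< p`

The polygon lemma is used through `D/FlagA.lean` (flags and vertices `D.vt` of the tiling graph).
-/

set_option autoImplicit false

namespace MPbcd198.T

theorem a_not_mem {p q : ℕ} (hyp : Hyp p q) : gen p q 0 ∉ vSub p q := by
  intro h
  exact D.vt_ne hyp 1 (D.vt_mul_left _ _ h).symm

theorem conj_mem {p q : ℕ} (hyp : Hyp p q) (h : Tri p q) (hh : h ∈ vSub p q)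
    (ha : gen p q 0 * h * gen p q 0 ∈ vSub p q) : h = 1 ∨ h = gen p q 2 := by
  have h1 : D.vt (1 : Tri p q) = D.vt h := (D.vt_eq_iff _ _).2 ⟨h, hh, (mul_one h).symm⟩
  have h2 : D.vt (gen p q 0 * 1) = D.vt (gen p q 0 * h) := by
    refine (D.vt_eq_iff _ _).2 ⟨_, ha, ?_⟩
    rw [mul_one, mul_assoc, D.gen_sq, mul_one]
  rcases D.edge_flags hyp 1 h h1 h2 with h3 | h3
  · exact Or.inl h3
  · exact Or.inr (by rw [h3, mul_one])

theorem tiling_reg {p q : ℕ} (hyp : Hyp p q) : Reg q (tilingGraph p q) := by
  classical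
  intro v
  obtain ⟨x, rfl⟩ := D.vt_surj v
  have hq := hyp.hq
  have hcard := card_vSub hyp
  have hfin : Finite (vSub p q) := Nat.finite_of_card_ne_zero (by rw [hcard]; omega)
  have : Fintype (vSub p q) := Fintype.ofFinite _
  have hC : gen p q 2 ∈ vSub p q := Subgroup.subset_closure (by simp)
  have hC1 : gen p q 2 ≠ 1 := by
    intro h
    have h1 := ((self_map hyp).pc 1).1
    apply h1
    change gen p q 2 * 1 = 1
    rw [h, one_mul]
  let f : vSub p q → (tilingGraph p q).neighborSet (D.vt x) := fun h =>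
    ⟨D.vt (gen p q 0 * ((h : Tri p q) * x)), by
      rw [SimpleGraph.mem_neighborSet, D.adj_iff]
      refine ⟨?_, (h : Tri p q) * x, (D.vt_mul_left _ _ h.2).symm, rfl⟩
      rw [← D.vt_mul_left (h : Tri p q) x h.2]
      exact D.vt_ne hyp _⟩
  have hsurj : Function.Surjective f := by
    rintro ⟨w, hw⟩
    rw [SimpleGraph.mem_neighborSet, D.adj_iff] at hw
    obtain ⟨-, y, hy, rfl⟩ := hw
    obtain ⟨g, hg, rfl⟩ := (D.vt_eq_iff _ _).1 hy
    exact ⟨⟨g, hg⟩, rfl⟩
  have : Finite ((tilingGraph p q).neighborSet (D.vt x)) := Finite.of_surjective f hsurj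
  have : Fintype ((tilingGraph p q).neighborSet (D.vt x)) := Fintype.ofFinite _
  have hfib : ∀ w : (tilingGraph p q).neighborSet (D.vt x),
      (Finset.univ.filter fun h => f h = w).card = 2 := by
    intro w
    obtain ⟨h, rfl⟩ := hsurj w
    have : (Finset.univ.filter fun k => f k = f h) = {h, ⟨gen p q 2, hC⟩ * h} := by
      ext k
      simp only [Finset.mem_filter, Finset.mem_univ, true_and, Finset.mem_insert,
        Finset.mem_singleton]
      constructor
      · intro hk
        have hk' : D.vt (gen p q 0 * ((k : Tri p q) * x)) = D.vt (gen p q 0 * ((h : Tri p q) * x)) :=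
          congrArg Subtype.val hk
        have hk2 : D.vt ((h : Tri p q) * x) = D.vt ((k : Tri p q) * x) := by
          rw [D.vt_mul_left _ _ h.2, D.vt_mul_left _ _ k.2]
        rcases D.edge_flags hyp _ _ hk2 hk'.symm with h3 | h3
        · exact Or.inl (Subtype.ext (mul_right_cancel h3))
        · rw [← mul_assoc] at h3
          exact Or.inr (Subtype.ext (mul_right_cancel h3))
      · rintro (rfl | rfl)
        · rfl
        · apply Subtype.ext
          change D.vt (gen p q 0 * ((gen p q 2 * (h : Tri p q)) * x)) =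
            D.vt (gen p q 0 * ((h : Tri p q) * x))
          rw [mul_assoc, ← mul_assoc, D.ac_comm, mul_assoc, D.vt_mul_left _ _ hC]
    rw [this, Finset.card_pair]
    intro h4
    apply hC1
    have h5 : (h : Tri p q) = gen p q 2 * h := congrArg Subtype.val h4
    exact (right_eq_mul.1 h5)
  have hsum := Finset.card_eq_sum_card_fiberwise (s := Finset.univ) (t := Finset.univ)
    (f := f) (fun _ _ => Finset.mem_univ _)
  rw [Finset.sum_congr rfl (fun w _ => hfib w), Finset.sum_const, smul_eq_mul,
    Finset.card_univ, Finset.card_univ, ← Nat.card_eq_fintype_card, ← Nat.card_eq_fintype_card,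
    hcard] at hsum
  omega

theorem tiling_noCyc {p q : ℕ} (hyp : Hyp p q) : NoCyc (p - 1) (tilingGraph p q) := by
  intro v w hw
  have hp := hyp.hp
  have hn3 := hw.three_le_length
  obtain ⟨n, hn⟩ : ∃ n, n = w.length := ⟨_, rfl⟩
  rw [← hn] at hn3 ⊢
  have hadj : ∀ i, ∃ x : Tri p q, i < n → w.getVert i = D.vt x ∧
      w.getVert (i + 1) = D.vt (gen p q 0 * x) := by
    intro i
    by_cases hi : i < n
    · obtain ⟨x, hx⟩ := ((D.adj_iff _ _).1 (w.adj_getVert_succ (by rw [← hn]; exact hi))).2
      exact ⟨x, fun _ => hx⟩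
    · exact ⟨1, fun h => absurd h hi⟩
  choose z hz using hadj
  have hclose : w.getVert n = w.getVert 0 := by rw [hn, w.getVert_length, w.getVert_zero]
  have hpol := (polygon hyp n (by omega) (fun k => z (k % n))
    (fun k => by simp only [Nat.add_mod_right])
    (fun k => by
      have h0 : k % n < n := Nat.mod_lt _ (by omega)
      have h1 : (k + 1) % n < n := Nat.mod_lt _ (by omega)
      have h2 : D.vt (gen p q 0 * z (k % n)) = D.vt (z ((k + 1) % n)) := by
        rw [← (hz _ h0).2, ← (hz _ h1).1]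
        by_cases hk : k % n + 1 < n
        · congr 1
          rw [Nat.add_mod, Nat.mod_eq_of_lt (a := 1) (by omega), Nat.mod_eq_of_lt hk]
        · have h3 : k % n + 1 = n := by omega
          have h4 : (k + 1) % n = 0 := by
            rw [Nat.add_mod, Nat.mod_eq_of_lt (a := 1) (by omega), h3, Nat.mod_self]
          rw [h3, h4, hclose]
      obtain ⟨g, hg, h5⟩ := (D.vt_eq_iff _ _).1 h2
      exact ⟨g, hg, by rw [mul_assoc]; exact h5⟩)
    (fun a ha b hb hab g hg hgab => by
      simp only [Nat.mod_eq_of_lt ha, Nat.mod_eq_of_lt hb] at hgab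
      have h1 : D.vt (z a) = D.vt (z b) := (D.vt_eq_iff _ _).2 ⟨g, hg, hgab⟩
      rw [← (hz a ha).1, ← (hz b hb).1] at h1
      exact hab (hw.getVert_injOn' (by simp only [Set.mem_ofPred_eq]; omega)
        (by simp only [Set.mem_ofPred_eq]; omega) h1))
    (fun h => by omega)).1
  omega

end MPbcd198.T
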