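import Pool.Agent.Lib.MP_bcd198_co.T.LocC
import Pool.Agent.Lib.MP_bcd198_co.T.TilB
import Pool.Agent.Lib.MP_bcd198_co.T.GrB
import Pool.Agent.Lib.MP_bcd198_co.T.DiscB
import Pool.Agent.Lib.MP_bcd198_co.T.AutS
import Pool.Agent.Lib.MP_bcd198_co.T.Burn

/-!
# MP_bcd198_co, STREAM T: the tree case (assembly)
-/

set_option autoImplicit false

namespace MPbcd198.T

open Equiv

theorem noCyc_mono {V : Type} {G : SimpleGraph V} {g g' : ℕ} (h : g' ≤ g) (hG : NoCyc g G) :
    NoCyc g' G := fun v w hw => lt_of_le_of_lt h (hG v w hw)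

theorem connectivityForcing_tree {p q : ℕ} (hyp : Hyp p q) (r : ℕ) (h0 : 1 ≤ r)
    (hr : 2 * r + 1 < p) : ConnectivityForcing r (tilingGraph p q) (baseV p q) := by
  classical
  intro ε hε
  have hq : 3 ≤ q := hyp.hq
  have cF : NoCyc (2 * r + 1) (tilingGraph p q) := noCyc_mono (by omega) (tiling_noCyc hyp)
  have rF : Reg q (tilingGraph p q) := tiling_reg hyp
  obtain ⟨δ, hδ, n₁, h₁⟩ := lower_count q (2 * r + 1) (by omega) (by omega)
  obtain ⟨n₂, h₂⟩ := disc_small q hq (ε * δ / 2) (by positivity)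
  obtain ⟨n₃, h₃⟩ := aut_small q hq (ε * δ / 2) (by positivity)
  refine ⟨n₁ + n₂ + n₃ + 1, fun n hn hne => ?_⟩
  obtain ⟨x⟩ := hne
  obtain ⟨G₀, hG₀⟩ := Quotient.exists_rep x
  have rG₀ : Reg q G₀.1 := reg_of_isLocally h0 rF _ G₀.2
  have hev : Even (q * n) := by
    have := deg_even (fun _ => q) G₀.1 rG₀
    simpa [mul_comm] using this
  have H₁ := h₁ n (by omega) hev
  have H₂ := h₂ n (by omega) hev
  have H₃ := h₃ n (by omega) hev
  set Q : ℝ := MNum (q * n / 2) / (q.factorial : ℝ) ^ n with hQ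
  have hQ0 : 0 < Q := by
    rw [hQ]
    have := MNum_pos (q * n / 2)
    positivity
  have hfin : Finite (UnlabelledS r (tilingGraph p q) (baseV p q) n) := Quotient.finite _
  have hfac : (0 : ℝ) < (n.factorial : ℝ) := by positivity
  set A : ℝ := (Nat.card (UnlabelledS r (tilingGraph p q) (baseV p q) n) : ℝ) with hA
  set Dn : ℝ := (Nat.card {x : UnlabelledS r (tilingGraph p q) (baseV p q) n //
    ¬ ClassConnected x} : ℝ) with hDn
  set Cn : ℝ := (Nat.card {x : UnlabelledS r (tilingGraph p q) (baseV p q) n //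
    ClassConnected x} : ℝ) with hCn
  have hsum : Cn + Dn = A := by
    rw [hA, hDn, hCn, ← Nat.cast_add]
    congr 1
    rw [← Nat.card_sum]
    exact Nat.card_congr (Equiv.sumCompl _)
  have hApos : 0 < A := by
    have : Nonempty (UnlabelledS r (tilingGraph p q) (baseV p q) n) := ⟨x⟩
    rw [hA]
    exact_mod_cast Nat.card_pos
  -- lower bound
  have L1 : Nat.card {G : SimpleGraph (Fin n) // Reg q G ∧ NoCyc (2 * r + 1) G} ≤
      Nat.card (LocGraph r (tilingGraph p q) (baseV p q) n) := by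
    let f : {G : SimpleGraph (Fin n) // Reg q G ∧ NoCyc (2 * r + 1) G} →
        LocGraph r (tilingGraph p q) (baseV p q) n :=
      fun G => ⟨G.1, isLocally_of (by omega) G.2.1 rF G.2.2 cF _⟩
    exact Nat.card_le_card_of_injective f fun G G' h =>
      Subtype.ext (congrArg (fun z => z.1) h : (f G).1 = (f G').1)
  have L2 := burn_lower r (tilingGraph p q) (baseV p q) n
  have L3 : δ * Q ≤ A * (n.factorial : ℝ) := by
    refine H₁.trans ?_
    rw [hA, ← Nat.cast_mul, Nat.cast_le]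
    exact L1.trans L2
  -- upper bound
  have U1 := burn_upper r (tilingGraph p q) (baseV p q) n
  have U2 : Nat.card {t : SimpleGraph (Fin n) × Perm (Fin n) //
        IsLocally r (tilingGraph p q) (baseV p q) t.1 ∧ ¬ t.1.Connected ∧ IsAut t.1 t.2} ≤
      Nat.card {G : SimpleGraph (Fin n) // Reg q G ∧ ¬ G.Connected} +
      Nat.card {t : SimpleGraph (Fin n) × Perm (Fin n) // Reg q t.1 ∧ t.2 ≠ 1 ∧ IsAut t.1 t.2} := by
    rw [← Nat.card_sum]
    let f : {t : SimpleGraph (Fin n) × Perm (Fin n) //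
        IsLocally r (tilingGraph p q) (baseV p q) t.1 ∧ ¬ t.1.Connected ∧ IsAut t.1 t.2} →
        {G : SimpleGraph (Fin n) // Reg q G ∧ ¬ G.Connected} ⊕
        {t : SimpleGraph (Fin n) × Perm (Fin n) // Reg q t.1 ∧ t.2 ≠ 1 ∧ IsAut t.1 t.2} :=
      fun t => if h : t.1.2 = 1 then Sum.inl ⟨t.1.1, reg_of_isLocally h0 rF _ t.2.1, t.2.2.1⟩
        else Sum.inr ⟨t.1, reg_of_isLocally h0 rF _ t.2.1, h, t.2.2.2⟩
    refine Nat.card_le_card_of_injective f ?_
    rintro ⟨⟨G, σ⟩, hG⟩ ⟨⟨G', σ'⟩, hG'⟩ h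
    simp only [f] at h
    by_cases h1 : σ = 1 <;> by_cases h2 : σ' = 1
    · simp only [h1, h2, dite_true, Sum.inl.injEq, Subtype.mk.injEq] at h
      subst h h1 h2
      rfl
    · simp [h1, h2] at h
    · simp [h1, h2] at h
    · simp only [h1, h2, dite_false, Sum.inr.injEq, Subtype.mk.injEq] at h
      exact Subtype.ext h
  have U3 : Dn * (n.factorial : ℝ) ≤ ε * (δ * Q) := by
    have U4 : (Nat.card {x : UnlabelledS r (tilingGraph p q) (baseV p q) n //
        ¬ ClassConnected x} : ℝ) * (n.factorial : ℝ) ≤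
        (Nat.card {G : SimpleGraph (Fin n) // Reg q G ∧ ¬ G.Connected} : ℝ) +
        (Nat.card {t : SimpleGraph (Fin n) × Perm (Fin n) //
          Reg q t.1 ∧ t.2 ≠ 1 ∧ IsAut t.1 t.2} : ℝ) := by
      exact_mod_cast U1.trans U2
    rw [← hDn] at U4
    linarith
  have h5 : Dn ≤ ε * A := by
    have : Dn * (n.factorial : ℝ) ≤ ε * A * (n.factorial : ℝ) := by
      calc Dn * (n.factorial : ℝ) ≤ ε * (δ * Q) := U3
        _ ≤ ε * (A * (n.factorial : ℝ)) := by gcongr
        _ = ε * A * (n.factorial : ℝ) := by ring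
    exact le_of_mul_le_mul_right this hfac
  unfold probConnected
  rw [le_div_iff₀ hApos]
  have : Cn = A - Dn := by linarith
  rw [← hCn, this]
  nlinarith

end MPbcd198.T
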