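import Pool.Agent.Lib.MP_bcd198_co.T.Base

/-!
# JOB T/PMr: inequalities for `MNum m = (2m)!/(2^m m!)`

* `MNum_pos`. `MNum_succ : MNum (m+1) = (2m+1) MNum m`.
* `MNum_ratio`: for `h ≤ m`: `MNum (m-h) (m/3)^h ≤ MNum m`. From `MNum_succ`, `MNum m = MNum (m-h) ∏_{i<h} (2(m-i) - 1)`. For `0 ≤ i < h`: `2(m-i) - 1 ≥ (m/h)(2(h-i) - 1)` because
  `h(2(m-i)-1) - m(2(h-i)-1) = (m-h)(2i+1) ≥ 0`. So the product is `≥ (m/h)^h ∏_{i<h} (2(h-i)-1) ≥ (m/h)^h h!` (`2j-1 ≥ j` for `j ≥ 1`), and `h^h ≤ e^h h! ≤ 3^h h!` (from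
  `h^h/h! ≤ exp h`, `Real.pow_div_factorial_le_exp`, `Real.exp_one_lt_three` or similar), so it is `≥ (m/3)^h`. (`h = 0` is trivial.)
* `MNum_split`: `binom(n,k) MNum a MNum b / MNum(a+b) ≤ 1/binom((d-2)n/2, (d-2)k/2)` for `2a = dk`, `2b = d(n-k)`:
  `MNum a MNum b / MNum (a+b) = [(2a)! (2b)!/(2a+2b)!] [(a+b)!/(a! b!)] = binom(a+b,a)/binom(2a+2b,2a)`, and `binom(2N,2a) ≥ binom(N,a)²` (Vandermonde, `Nat.add_choose_eq`: one
  term of the sum), so it is `≤ 1/binom(a+b,a)`. Moreover `a + b = dn/2 = n + (d-2)n/2`, `a = k + (d-2)k/2` (natural numbers: `2a = dk` so `(d-2)k` is even,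
  and `2(a+b) = dn` so `(d-2)n` is even), so `binom(a+b,a) ≥ binom(n,k) binom((d-2)n/2,(d-2)k/2)`, again one term of Vandermonde's sum.
-/

set_option autoImplicit false

namespace MPbcd198.T

theorem MNum_pos (m : ℕ) : 0 < MNum m := by
  unfold MNum
  positivity

theorem MNum_succ (m : ℕ) : MNum (m + 1) = (2 * m + 1) * MNum m := by
  unfold MNum
  have h1 : ((2 * (m + 1)).factorial : ℝ) = (2 * m + 2) * ((2 * m + 1) * ((2 * m).factorial : ℝ)) := by
    have : 2 * (m + 1) = (2 * m + 1) + 1 := by ring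
    rw [this, Nat.factorial_succ, Nat.factorial_succ]
    push_cast
    ring
  have h2 : ((m + 1).factorial : ℝ) = (m + 1) * (m.factorial : ℝ) := by
    rw [Nat.factorial_succ]
    push_cast
    ring
  have hf : (m.factorial : ℝ) ≠ 0 := by exact_mod_cast Nat.factorial_ne_zero m
  have hm : (m : ℝ) + 1 ≠ 0 := by positivity
  rw [h1, h2, pow_succ]
  field_simp

private theorem PMr_prod {m h : ℕ} (hm : h ≤ m) :
    MNum m = MNum (m - h) * ∏ i ∈ Finset.range h, (2 * ((m : ℝ) - i) - 1) := by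
  induction h with
  | zero => simp
  | succ h ih =>
    rw [ih (by omega), Finset.prod_range_succ]
    have h1 : m - h = (m - (h + 1)) + 1 := by omega
    rw [h1, MNum_succ]
    have h2 : ((m - (h + 1) : ℕ) : ℝ) = (m : ℝ) - (h + 1) := by
      rw [Nat.cast_sub hm]
      push_cast
      ring
    rw [h2]
    ring

private theorem PMr_fact (h : ℕ) : ((h : ℝ) / 3) ^ h ≤ (h.factorial : ℝ) := by
  have h1 := Real.pow_div_factorial_le_exp (h : ℝ) (Nat.cast_nonneg h) h
  have h2 : Real.exp (h : ℝ) ≤ 3 ^ h := by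
    have h3 : Real.exp (h : ℝ) = Real.exp 1 ^ h := by
      rw [← Real.exp_nat_mul, mul_one]
    rw [h3]
    exact pow_le_pow_left₀ (Real.exp_pos 1).le Real.exp_one_lt_three.le h
  have hf : (0 : ℝ) < (h.factorial : ℝ) := by exact_mod_cast Nat.factorial_pos h
  rw [div_le_iff₀ hf] at h1
  rw [div_pow, div_le_iff₀ (by positivity)]
  calc (h : ℝ) ^ h ≤ Real.exp (h : ℝ) * (h.factorial : ℝ) := h1
    _ ≤ 3 ^ h * (h.factorial : ℝ) := mul_le_mul_of_nonneg_right h2 hf.le
    _ = (h.factorial : ℝ) * 3 ^ h := mul_comm _ _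

private theorem PMr_odd (h : ℕ) :
    (h.factorial : ℝ) ≤ ∏ i ∈ Finset.range h, (2 * ((h : ℝ) - i) - 1) := by
  have h1 : (h.factorial : ℝ) = ∏ i ∈ Finset.range h, ((h : ℝ) - i) := by
    rw [← Finset.prod_range_add_one_eq_factorial, ← Finset.prod_range_reflect]
    push_cast
    refine Finset.prod_congr rfl fun i hi => ?_
    rw [Finset.mem_range] at hi
    rw [Nat.sub_sub, Nat.cast_sub (by omega)]
    push_cast
    ring
  rw [h1]
  refine Finset.prod_le_prod (fun i hi => ?_) fun i hi => ?_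
  · rw [Finset.mem_range] at hi
    have : (i : ℝ) ≤ h := by exact_mod_cast hi.le
    linarith
  · rw [Finset.mem_range] at hi
    have : (i : ℝ) + 1 ≤ h := by exact_mod_cast hi
    linarith

theorem MNum_ratio {m h : ℕ} (hm : h ≤ m) : MNum (m - h) * ((m : ℝ) / 3) ^ h ≤ MNum m := by
  rcases Nat.eq_zero_or_pos h with rfl | hpos
  · simp
  rw [PMr_prod hm]
  refine mul_le_mul_of_nonneg_left ?_ (MNum_pos _).le
  have hh : (0 : ℝ) < h := by exact_mod_cast hpos
  have hmh : (h : ℝ) ≤ m := by exact_mod_cast hm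
  have hm0 : (0 : ℝ) < m := lt_of_lt_of_le hh hmh
  have h1 : ∏ i ∈ Finset.range h, ((m : ℝ) / h * (2 * ((h : ℝ) - i) - 1)) ≤
      ∏ i ∈ Finset.range h, (2 * ((m : ℝ) - i) - 1) := by
    refine Finset.prod_le_prod (fun i hi => ?_) fun i hi => ?_
    · rw [Finset.mem_range] at hi
      have : (i : ℝ) + 1 ≤ h := by exact_mod_cast hi
      refine mul_nonneg (by positivity) (by linarith)
    · have hi0 : (0 : ℝ) ≤ i := Nat.cast_nonneg i
      rw [div_mul_eq_mul_div, div_le_iff₀ hh]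
      nlinarith [mul_nonneg (sub_nonneg.2 hmh) (by linarith : (0 : ℝ) ≤ 2 * i + 1)]
  refine le_trans ?_ h1
  rw [Finset.prod_mul_distrib, Finset.prod_const, Finset.card_range]
  have h2 : ((m : ℝ) / 3) ^ h = ((m : ℝ) / h) ^ h * ((h : ℝ) / 3) ^ h := by
    rw [← mul_pow]
    congr 1
    field_simp
  rw [h2]
  exact mul_le_mul_of_nonneg_left ((PMr_fact h).trans (PMr_odd h)) (by positivity)

private theorem PMr_choose (m n i j : ℕ) :
    m.choose i * n.choose j ≤ (m + n).choose (i + j) := by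
  rw [Nat.add_choose_eq]
  have hmem : (i, j) ∈ Finset.HasAntidiagonal.antidiagonal (i + j) := by simp
  exact Finset.single_le_sum (f := fun ij : ℕ × ℕ => m.choose ij.1 * n.choose ij.2)
    (fun _ _ => Nat.zero_le _) hmem

private theorem PMr_mul (a b : ℕ) :
    MNum a * MNum b * ((2 * (a + b)).choose (2 * a) : ℝ) = MNum (a + b) * ((a + b).choose a : ℝ) := by
  unfold MNum
  have h1 : ((2 * (a + b)).choose (2 * a) : ℝ) * ((2 * a).factorial : ℝ) * ((2 * b).factorial : ℝ) =
      ((2 * (a + b)).factorial : ℝ) := by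
    have := Nat.choose_mul_factorial_mul_factorial (show 2 * a ≤ 2 * (a + b) by omega)
    have h2 : 2 * (a + b) - 2 * a = 2 * b := by omega
    rw [h2] at this
    exact_mod_cast this
  have h3 : ((a + b).choose a : ℝ) * (a.factorial : ℝ) * (b.factorial : ℝ) =
      ((a + b).factorial : ℝ) := by
    have := Nat.choose_mul_factorial_mul_factorial (show a ≤ a + b by omega)
    rw [Nat.add_sub_cancel_left] at this
    exact_mod_cast this
  rw [← h1, ← h3, pow_add]
  have ha : (a.factorial : ℝ) ≠ 0 := by exact_mod_cast Nat.factorial_ne_zero a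
  have hb : (b.factorial : ℝ) ≠ 0 := by exact_mod_cast Nat.factorial_ne_zero b
  have hc : ((a + b).choose a : ℝ) ≠ 0 := by
    exact_mod_cast (Nat.choose_pos (show a ≤ a + b by omega)).ne'
  field_simp

theorem MNum_split {n k d a b : ℕ} (hd : 2 ≤ d) (hk : k ≤ n) (ha : 2 * a = d * k)
    (hb : 2 * b = d * (n - k)) :
    (n.choose k : ℝ) * MNum a * MNum b * (((d - 2) * n / 2).choose ((d - 2) * k / 2) : ℝ) ≤
      MNum (a + b) := by
  obtain ⟨e, rfl⟩ : ∃ e, d = e + 2 := ⟨d - 2, by omega⟩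
  obtain ⟨l, rfl⟩ : ∃ l, n = k + l := ⟨n - k, by omega⟩
  rw [Nat.add_sub_cancel_left] at hb
  have h1 : (e + 2 - 2) * (k + l) / 2 = (a + b) - (k + l) := by
    rw [Nat.add_sub_cancel]
    have : e * (k + l) = 2 * ((a + b) - (k + l)) := by
      have h2 : e * (k + l) + 2 * (k + l) = 2 * (a + b) := by
        rw [mul_add 2 a b, ha, hb]
        ring
      omega
    rw [this, Nat.mul_div_cancel_left _ (by norm_num)]
  have h2 : (e + 2 - 2) * k / 2 = a - k := by
    rw [Nat.add_sub_cancel]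
    have : e * k = 2 * (a - k) := by
      have h3 : e * k + 2 * k = 2 * a := by
        rw [ha]
        ring
      omega
    rw [this, Nat.mul_div_cancel_left _ (by norm_num)]
  have hka : k ≤ a := by
    have h3 : 2 * k ≤ (e + 2) * k := Nat.mul_le_mul_right k (by omega)
    omega
  have hlb : l ≤ b := by
    have h3 : 2 * l ≤ (e + 2) * l := Nat.mul_le_mul_right l (by omega)
    omega
  rw [h1, h2]
  have h4 : (k + l).choose k * ((a + b) - (k + l)).choose (a - k) ≤ (a + b).choose a := by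
    have h5 := PMr_choose (k + l) ((a + b) - (k + l)) k (a - k)
    have h6 : k + l + ((a + b) - (k + l)) = a + b := by omega
    have h7 : k + (a - k) = a := by omega
    rwa [h6, h7] at h5
  have h8 : (a + b).choose a * (a + b).choose a ≤ (2 * (a + b)).choose (2 * a) := by
    have h9 := PMr_choose (a + b) (a + b) a a
    rwa [← two_mul, ← two_mul] at h9
  have hc : (0 : ℝ) < ((a + b).choose a : ℝ) := by
    exact_mod_cast Nat.choose_pos (show a ≤ a + b by omega)
  have h10 : MNum a * MNum b * ((a + b).choose a : ℝ) ≤ MNum (a + b) := by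
    have h11 : MNum a * MNum b * (((a + b).choose a : ℝ) * ((a + b).choose a : ℝ)) ≤
        MNum (a + b) * ((a + b).choose a : ℝ) := by
      rw [← PMr_mul]
      refine mul_le_mul_of_nonneg_left ?_ (mul_nonneg (MNum_pos a).le (MNum_pos b).le)
      exact_mod_cast h8
    rw [← mul_assoc] at h11
    exact le_of_mul_le_mul_right h11 hc
  refine le_trans ?_ h10
  have h12 : ((k + l).choose k : ℝ) * (((a + b) - (k + l)).choose (a - k) : ℝ) ≤
      ((a + b).choose a : ℝ) := by exact_mod_cast h4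
  calc ((k + l).choose k : ℝ) * MNum a * MNum b * (((a + b) - (k + l)).choose (a - k) : ℝ)
      = MNum a * MNum b * (((k + l).choose k : ℝ) * (((a + b) - (k + l)).choose (a - k) : ℝ)) := by
        ring
    _ ≤ MNum a * MNum b * ((a + b).choose a : ℝ) :=
        mul_le_mul_of_nonneg_left h12 (mul_nonneg (MNum_pos a).le (MNum_pos b).le)

end MPbcd198.T
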