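import Pool.Agent.Lib.MP_bcd198_co.T.Base

/-!
# JOB T/PathU: uniqueness of short paths in a graph without short cycles

Proof. Suppose `p₁ ≠ p₂`. Let `H := p₁.toSubgraph.spanningCoe ⊔ p₂.toSubgraph.spanningCoe` (or `SimpleGraph.fromEdgeSet (p₁.edges ∪ p₂.edges)`), a
simple graph on `V` with `H ≤ G` whose edges are the edges of `p₁` and of `p₂`. Both walks transfer to `H` (`SimpleGraph.Walk.transfer`,
`SimpleGraph.Walk.IsPath.transfer`), and the transferred paths are still different (apply `Walk.map`/`transfer` back, or compare the supports: a path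
in a simple graph is determined by its support, `Walk.ext_support`). So `H` is not acyclic
(`SimpleGraph.isAcyclic_iff_path_unique` or `SimpleGraph.IsAcyclic.path_unique`): there is a cycle `c` of `H`. All its edges are edges of `p₁` or of
`p₂`, and they are distinct (`IsCycle → IsTrail → edges_nodup`), so `c.length = c.edges.length ≤ p₁.edges.length + p₂.edges.length =
p₁.length + p₂.length ≤ g` (`List.Nodup`, `List.subset`: a nodup list contained in `l₁ ++ l₂` has at most that length:
`List.Nodup.length_le_of_subset` or `List.Subperm`). Transfer `c` to `G` (`Walk.mapLe`, `IsCycle.mapLe` (name may differ), or `transfer`): a cycle of `G`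
of length at most `g`, contradiction to `hG`.
-/

set_option autoImplicit false

namespace MPbcd198.T

theorem path_unique {V : Type} {G : SimpleGraph V} {g : ℕ} (hG : NoCyc g G) {v x : V}
    (p₁ p₂ : G.Walk v x) (h₁ : p₁.IsPath) (h₂ : p₂.IsPath) (hl : p₁.length + p₂.length ≤ g) :
    p₁ = p₂ := by
  classical
  set H : SimpleGraph V := SimpleGraph.fromEdgeSet {e | e ∈ p₁.edges ∨ e ∈ p₂.edges} with hH
  have hmem : ∀ e, (e ∈ p₁.edges ∨ e ∈ p₂.edges) → e ∈ H.edgeSet := by
    intro e he
    rw [hH, SimpleGraph.edgeSet_fromEdgeSet]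
    refine ⟨he, ?_⟩
    have h1 : e ∈ G.edgeSet := by
      rcases he with h | h
      · exact SimpleGraph.Walk.edges_subset_edgeSet _ h
      · exact SimpleGraph.Walk.edges_subset_edgeSet _ h
    exact SimpleGraph.not_isDiag_of_mem_edgeSet G h1
  have hmem' : ∀ e, e ∈ H.edgeSet → (e ∈ p₁.edges ∨ e ∈ p₂.edges) := by
    intro e he
    rw [hH, SimpleGraph.edgeSet_fromEdgeSet] at he
    exact he.1
  have t1 : ∀ e ∈ p₁.edges, e ∈ H.edgeSet := fun e he => hmem e (Or.inl he)
  have t2 : ∀ e ∈ p₂.edges, e ∈ H.edgeSet := fun e he => hmem e (Or.inr he)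
  by_cases hac : H.IsAcyclic
  · have h3 : (⟨p₁.transfer H t1, h₁.transfer t1⟩ : H.Path v x) =
      ⟨p₂.transfer H t2, h₂.transfer t2⟩ := (hac.subsingleton_path v x).elim _ _
    have h4 : p₁.transfer H t1 = p₂.transfer H t2 := congrArg Subtype.val h3
    apply SimpleGraph.Walk.ext_support
    have h5 := congrArg SimpleGraph.Walk.support h4
    rwa [SimpleGraph.Walk.support_transfer, SimpleGraph.Walk.support_transfer] at h5
  · exfalso
    unfold SimpleGraph.IsAcyclic at hac
    push Not at hac
    obtain ⟨u, c, hc⟩ := hac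
    have hnd : c.edges.Nodup := hc.isTrail.edges_nodup
    have hsub : c.edges ⊆ p₁.edges ++ p₂.edges := by
      intro e he
      rw [List.mem_append]
      exact hmem' e (SimpleGraph.Walk.edges_subset_edgeSet _ he)
    have hlen : c.length ≤ p₁.length + p₂.length := by
      have h6 := (hnd.subperm hsub).length_le
      rw [List.length_append, SimpleGraph.Walk.length_edges, SimpleGraph.Walk.length_edges,
        SimpleGraph.Walk.length_edges] at h6
      exact h6
    have hcG : ∀ e ∈ c.edges, e ∈ G.edgeSet := by
      intro e he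
      rcases hmem' e (SimpleGraph.Walk.edges_subset_edgeSet _ he) with h | h
      · exact SimpleGraph.Walk.edges_subset_edgeSet _ h
      · exact SimpleGraph.Walk.edges_subset_edgeSet _ h
    have h7 := hG u (c.transfer G hcG) (hc.transfer hcG)
    rw [SimpleGraph.Walk.length_transfer] at h7
    omega

end MPbcd198.T
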