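import Pool.Agent.Lib.MP_bcd198_co.T.Base

/-!
# JOB T/RepA: representatives of the non trivial cycles of a permutation of `Fin n`

`Rep σ` = the points `v` with `σ v ≠ v` which are minimal in their cycle (`∀ k : ℕ, v ≤ (σ^k) v`), `mv σ` = moved points (Base.lean).
* `rep_cover`: if `σ v ≠ v`, let `u` be the least element of `{(σ^k) v : k : ℕ}` (finite, non empty), `u = (σ^j) v`. Then `σ u ≠ u` (`σ^j` commutes with `σ` and is injective),
  `u ≤ (σ^k) u = (σ^(k+j)) v` for all `k`, so `u ∈ Rep σ`; and `v = (σ^i) u` for some `i : ℕ` (`σ` has finite order `m`: `(σ^(m*j - j)) u = (σ^(m*j)) v = v`, or use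
  `Equiv.Perm.SameCycle`, `exists_pow_eq'`).
* `rep_unique`: `u, u' ∈ Rep σ`, `u' = (σ^k) u` implies `u = u'`: `u ≤ u'` and, as `u = (σ^i) u'` for some `i : ℕ`, also `u' ≤ u`.
* `rep_next`: `u ∈ Rep σ → σ u ∉ Rep σ` (by `rep_unique` `σ u = u`, contradiction) and `σ u ∈ mv σ`.
* `rep_card`: `Rep σ` and its image under `σ` are disjoint subsets of `mv σ` with `|Rep σ|` elements each.
* `mv_inv`: `v ∈ mv σ → σ v ∈ mv σ`, also for powers.
-/

set_option autoImplicit false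

namespace MPbcd198.T

open Equiv

theorem RepA_mem_rep {n : ℕ} (σ : Perm (Fin n)) (v : Fin n) :
    v ∈ Rep σ ↔ σ v ≠ v ∧ ∀ k : ℕ, v ≤ (σ ^ k) v := by
  simp [Rep]

theorem RepA_mem_mv {n : ℕ} (σ : Perm (Fin n)) (v : Fin n) : v ∈ mv σ ↔ σ v ≠ v := by
  simp [mv]

theorem RepA_back {n : ℕ} (σ : Perm (Fin n)) (u u' : Fin n) (k : ℕ) (h : (σ ^ k) u = u') :
    ∃ i : ℕ, (σ ^ i) u' = u := by
  have hm : 0 < orderOf σ := orderOf_pos σ
  refine ⟨orderOf σ * k - k, ?_⟩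
  rw [← h, ← Perm.mul_apply, ← pow_add, Nat.sub_add_cancel (Nat.le_mul_of_pos_left k hm),
    pow_mul, pow_orderOf_eq_one, one_pow, Perm.one_apply]

theorem rep_sub {n : ℕ} (σ : Perm (Fin n)) : Rep σ ⊆ mv σ := by
  intro v hv
  rw [RepA_mem_mv]
  exact ((RepA_mem_rep σ v).mp hv).1

theorem rep_cover {n : ℕ} (σ : Perm (Fin n)) (v : Fin n) (hv : σ v ≠ v) :
    ∃ u ∈ Rep σ, ∃ k : ℕ, (σ ^ k) u = v := by
  classical
  set S : Finset (Fin n) := Finset.univ.filter (fun u => ∃ k : ℕ, (σ ^ k) v = u) with hS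
  have hne : S.Nonempty := ⟨v, by rw [hS, Finset.mem_filter]; exact ⟨Finset.mem_univ _, 0, rfl⟩⟩
  obtain ⟨j, hj⟩ : ∃ j : ℕ, (σ ^ j) v = S.min' hne :=
    (Finset.mem_filter.mp (S.min'_mem hne)).2
  refine ⟨S.min' hne, ?_, RepA_back σ v _ j hj⟩
  rw [RepA_mem_rep]
  constructor
  · intro h
    rw [← hj, ← Perm.mul_apply, ← pow_succ', pow_succ, Perm.mul_apply] at h
    exact hv ((σ ^ j).injective h)
  · intro k
    apply S.min'_le
    refine Finset.mem_filter.mpr ⟨Finset.mem_univ _, k + j, ?_⟩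
    rw [pow_add, Perm.mul_apply, hj]

theorem rep_unique {n : ℕ} (σ : Perm (Fin n)) (u u' : Fin n) (hu : u ∈ Rep σ) (hu' : u' ∈ Rep σ)
    (k : ℕ) (hk : (σ ^ k) u = u') : u = u' := by
  obtain ⟨i, hi⟩ := RepA_back σ u u' k hk
  apply le_antisymm
  · have := ((RepA_mem_rep σ u).mp hu).2 k
    rwa [hk] at this
  · have := ((RepA_mem_rep σ u').mp hu').2 i
    rwa [hi] at this

theorem rep_next {n : ℕ} (σ : Perm (Fin n)) (u : Fin n) (hu : u ∈ Rep σ) :
    σ u ∉ Rep σ ∧ σ u ∈ mv σ := by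
  have h1 := ((RepA_mem_rep σ u).mp hu).1
  constructor
  · intro h
    exact h1 (rep_unique σ u (σ u) hu h 1 (by simp)).symm
  · rw [RepA_mem_mv]
    intro h
    exact h1 (σ.injective h)

theorem rep_card {n : ℕ} (σ : Perm (Fin n)) : 2 * (Rep σ).card ≤ (mv σ).card := by
  classical
  have hd : Disjoint (Rep σ) ((Rep σ).image σ) := by
    rw [Finset.disjoint_right]
    intro x hx
    obtain ⟨u, hu, rfl⟩ := Finset.mem_image.mp hx
    exact (rep_next σ u hu).1
  have hs : Rep σ ∪ (Rep σ).image σ ⊆ mv σ := by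
    apply Finset.union_subset (rep_sub σ)
    intro x hx
    obtain ⟨u, hu, rfl⟩ := Finset.mem_image.mp hx
    exact (rep_next σ u hu).2
  have h := Finset.card_le_card hs
  rw [Finset.card_union_of_disjoint hd, Finset.card_image_of_injective _ σ.injective] at h
  omega

end MPbcd198.T
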