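import Pool.Agent.Lib.MP_bcd198_co.T.Base
import Pool.Agent.Lib.MP_bcd198_co.IfG

/-!
# JOB T/TilA: the vertex stabiliser has `2q` elements

Write `b = gen p q 1`, `c = gen p q 2` in `Tri p q`, `b² = c² = 1`. The map `self_map hyp : IsMapHom (selfHom p q)` (see `Types.lean`; the left
multiplication) shows that the permutation `x ↦ b c x` has all minimal periods equal to `q`, so `d = b c` has order `q`.
The subgroup `vSub = ⟨b, c⟩` is the disjoint union of `D = ⟨d⟩` and `D b` (`b d b⁻¹ = d⁻¹`); `b ∉ D` because otherwise `b` commutes with `d`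
and `d = d⁻¹`, so `q ∣ 2`.
-/

set_option autoImplicit false

namespace MPbcd198.T

theorem TilA_sq {p q : ℕ} (i : Fin 3) : gen p q i * gen p q i = 1 := by
  have : (PresentedGroup.mk (triRels p q)) (FreeGroup.of i ^ 2) = 1 :=
    PresentedGroup.one_of_mem (by fin_cases i <;> simp [triRels])
  simpa [pow_two, gen, PresentedGroup.of] using this

theorem TilA_order {p q : ℕ} (hyp : Hyp p q) : orderOf (gen p q 1 * gen p q 2) = q := by
  have h := (self_map hyp).bc (1 : Tri p q)
  have h2 : ⇑((selfHom p q) (gen p q 1) * (selfHom p q) (gen p q 2)) =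
      (fun x : Tri p q => (gen p q 1 * gen p q 2) * x) := by
    funext x
    simp only [selfHom, Equiv.Perm.coe_mul, Function.comp_apply, MulAction.toPermHom_apply,
      MulAction.toPerm_apply, smul_eq_mul, mul_assoc]
  rw [h2] at h
  exact h

/-- `⟨b,c⟩` is `D ∪ D b` -/
theorem TilA_group {G : Type*} [Group G] (b c : G) (hb : b * b = 1) (hc : c * c = 1)
    (x : G) (hx : x ∈ Subgroup.closure {b, c}) :
    x ∈ Subgroup.zpowers (b * c) ∨ x * b ∈ Subgroup.zpowers (b * c) := by
  have hbi : b⁻¹ = b := inv_eq_of_mul_eq_one_left hb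
  have hci : c⁻¹ = c := inv_eq_of_mul_eq_one_left hc
  have hconj : ∀ y ∈ Subgroup.zpowers (b * c), b * y * b ∈ Subgroup.zpowers (b * c) := by
    intro y hy
    obtain ⟨k, rfl⟩ := Subgroup.mem_zpowers_iff.mp hy
    have e1 : b * (b * c) ^ k * b = (b * (b * c) * b⁻¹) ^ k := by rw [conj_zpow, hbi]
    have e2 : b * (b * c) * b⁻¹ = (b * c)⁻¹ := by
      rw [mul_inv_rev, hbi, hci, ← mul_assoc, hb, one_mul]
    rw [e1, e2]
    exact Subgroup.zpow_mem _ (Subgroup.inv_mem _ (Subgroup.mem_zpowers _)) k
  induction hx using Subgroup.closure_induction with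
  | mem x hx =>
    rcases hx with rfl | hx
    · right; rw [hb]; exact Subgroup.one_mem _
    · have hx' : x = c := hx
      subst hx'
      right
      have : x * b = (b * x)⁻¹ := by rw [mul_inv_rev, hbi, hci]
      rw [this]
      exact Subgroup.inv_mem _ (Subgroup.mem_zpowers _)
  | one => left; exact Subgroup.one_mem _
  | mul x y _ _ hx hy =>
    rcases hx with hx | hx <;> rcases hy with hy | hy
    · left; exact Subgroup.mul_mem _ hx hy
    · right; rw [mul_assoc]; exact Subgroup.mul_mem _ hx hy
    · right
      have : x * y * b = (x * b) * (b * y * b) := by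
        calc x * y * b = x * (1 : G) * y * b := by rw [mul_one]
          _ = x * (b * b) * y * b := by rw [hb]
          _ = (x * b) * (b * y * b) := by group
      rw [this]
      exact Subgroup.mul_mem _ hx (hconj y hy)
    · left
      have : x * y = (x * b) * (b * (y * b) * b) := by
        calc x * y = x * (1 : G) * y * 1 := by rw [mul_one, mul_one]
          _ = x * (b * b) * y * (b * b) := by rw [hb]
          _ = (x * b) * (b * (y * b) * b) := by group
      rw [this]
      exact Subgroup.mul_mem _ hx (hconj _ hy)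
  | inv x _ hx =>
    rcases hx with hx | hx
    · left; exact Subgroup.inv_mem _ hx
    · right
      have h1 := hconj _ (Subgroup.inv_mem _ hx)
      have : b * (x * b)⁻¹ * b = x⁻¹ * b := by
        rw [mul_inv_rev, hbi, ← mul_assoc b b, hb, one_mul]
      rwa [this] at h1

theorem card_vSub {p q : ℕ} (hyp : Hyp p q) : Nat.card (vSub p q) = 2 * q := by
  classical
  have hb := TilA_sq (p := p) (q := q) 1
  have hc := TilA_sq (p := p) (q := q) 2
  have ho := TilA_order hyp
  set b := gen p q 1 with hbd
  set c := gen p q 2 with hcd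
  have hbi : b⁻¹ = b := inv_eq_of_mul_eq_one_left hb
  have hci : c⁻¹ = c := inv_eq_of_mul_eq_one_left hc
  have hq : 3 ≤ q := hyp.hq
  have hbD : b ∉ Subgroup.zpowers (b * c) := by
    intro h
    obtain ⟨k, hk⟩ := Subgroup.mem_zpowers_iff.mp h
    have h1 : b * (b * c) = (b * c) * b := by
      have h2 : Commute ((b * c) ^ k) (b * c) := (Commute.refl (b * c)).zpow_left k
      rw [hk] at h2
      exact h2
    have h3 : (b * c) ^ 2 = 1 := by
      have h4 : b * (b * c) = c := by rw [← mul_assoc, hb, one_mul]
      rw [h4] at h1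
      calc (b * c) ^ 2 = ((b * c) * b) * c := by rw [pow_two]; group
        _ = 1 := by rw [← h1, hc]
    have h5 := orderOf_dvd_of_pow_eq_one h3
    rw [ho] at h5
    have := Nat.le_of_dvd (by norm_num) h5
    omega
  have hset : ((vSub p q : Subgroup (Tri p q)) : Set (Tri p q)) =
      (Subgroup.zpowers (b * c) : Set (Tri p q)) ∪
        (fun x => x * b) '' (Subgroup.zpowers (b * c) : Set (Tri p q)) := by
    ext x
    constructor
    · intro hx
      rcases TilA_group b c hb hc x hx with h | h
      · left; exact h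
      · right
        refine ⟨x * b, h, ?_⟩
        show x * b * b = x
        rw [mul_assoc, hb, mul_one]
    · have hbv : b ∈ vSub p q := Subgroup.subset_closure (by simp [hbd])
      have hcv : c ∈ vSub p q := Subgroup.subset_closure (by simp [hcd])
      have hD : Subgroup.zpowers (b * c) ≤ vSub p q := by
        rw [Subgroup.zpowers_le]
        exact Subgroup.mul_mem _ hbv hcv
      rintro (hx | ⟨y, hy, rfl⟩)
      · exact hD hx
      · exact Subgroup.mul_mem _ (hD hy) hbv
  have hfin : (Subgroup.zpowers (b * c) : Set (Tri p q)).Finite := by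
    apply Set.finite_of_ncard_pos
    have : (Subgroup.zpowers (b * c) : Set (Tri p q)).ncard = q := by
      rw [← Nat.card_coe_set_eq]
      exact (Nat.card_zpowers (b * c)).trans ho
    rw [this]
    omega
  have hcard : (Subgroup.zpowers (b * c) : Set (Tri p q)).ncard = q := by
    rw [← Nat.card_coe_set_eq]
    exact (Nat.card_zpowers (b * c)).trans ho
  have h1 : Nat.card (vSub p q) = ((vSub p q : Subgroup (Tri p q)) : Set (Tri p q)).ncard :=
    Nat.card_coe_set_eq _
  rw [h1, hset, Set.ncard_union_eq ?_ hfin (hfin.image _),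
    Set.ncard_image_of_injective _ (mul_left_injective b), hcard]
  · ring
  · rw [Set.disjoint_left]
    rintro x hx ⟨y, hy, rfl⟩
    apply hbD
    have : y⁻¹ * (y * b) ∈ Subgroup.zpowers (b * c) :=
      Subgroup.mul_mem _ (Subgroup.inv_mem _ hy) hx
    rwa [inv_mul_cancel_left] at this

end MPbcd198.T
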